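import Pool.Agent.helper52.WP.SpecS
import Pool.Agent.helper54.V3.SpecT
import Pool.Agent.helper10.V3.Defs
import Pool.Agent.helper88.GR.Spec
import Pool.Agent.helper54.XP.SpecL

/-!
# Project wp: (MP_af9036_an, MP_70a088_an): Theorem W+ (no univalent near-identity returns): definitions

Paper: /team-store/MP_af9036_Wplus_helper52.md, quoted as [W+, section]; referee helper63.

THEOREM W+. For `n ≥ 2`, `r > 0` there is `ε₀ > 0` such that for `c ∈ M_n` with `dist(c, H_n) ≥ r`, `f(z) = z^n + c`, there are no `k ≥ 1`, `w`, `ρ > 0` such that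
`f^k` is injective on `D(w, ρ)`, `|f^k w - w| ≤ ε₀ ρ` and `|(f^k)'(w) - 1| ≤ ε₀`.
-/

set_option autoImplicit false

open Complex Metric Set Filter Topology MeasureTheory
open V3S (UF)
open Pool.Agent.helper16.Multibrot

noncomputable section

namespace WP

/-! ## Dynamics in the `z`-plane -/

/-- the `j`-th iterate of `f`. -/
def it (f : Polynomial ℂ) (j : ℕ) (z : ℂ) : ℂ := (fun z : ℂ => f.eval z)^[j] z

/-- all periodic points are repelling, with multipliers of modulus at least `1 + δ`. -/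
def WD (δ : ℝ) (f : Polynomial ℂ) : Prop :=
  ∀ (k : ℕ) (z : ℂ), 0 < k → it f k z = z → 1 + δ ≤ ‖deriv (it f k) z‖

/-- the univalence radius of `f^k` at `w`. -/
def rh (f : Polynomial ℂ) (k : ℕ) (w : ℂ) : ℝ := sSup {s : ℝ | 0 ≤ s ∧ InjOn (it f k) (ball w s)}

/-- the points with a near-identity return [W+, 2]. -/
def NN (f : Polynomial ℂ) (δ ε₁ : ℝ) (k : ℕ) : Set ℂ :=
  {w | ‖it f k w - w‖ ≤ ε₁ * rh f k w ∧ ‖deriv (it f k) w - 1‖ ≤ δ / 10}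

/-- the base pair `(w, k)` of [W+, 2] with its estimates (2.1); `ρ = rh f k w`, `ε = |f^k w - w| / ρ`. -/
structure Bs (f : Polynomial ℂ) (δ ε₁ ε : ℝ) (k : ℕ) (w : ℂ) (ρ : ℝ) : Prop where
  k1 : 1 ≤ k
  rho : 0 < ρ
  inj : InjOn (it f k) (ball w ρ)
  maxi : ¬ InjOn (it f k) (ball w (2 * ρ))
  e0 : 0 < ε
  e1 : ε ≤ ε₁
  ctr : ‖it f k w - w‖ = ε * ρ
  nf : ∀ z ∈ ball w (ρ / 2), it f k z ≠ z
  lo : ∀ z ∈ ball w (ρ / 16), ε * ρ / 2 ≤ ‖it f k z - z‖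
  hi : ∀ z ∈ ball w (ρ / 16), ‖it f k z - z‖ ≤ 2 * ε * ρ
  de : ∀ z ∈ ball w (ρ / 16), ‖deriv (it f k) z - 1‖ ≤ 32 * ε
  mn : ∀ m, 1 ≤ m → m < k → ∀ (z : ℂ) (s : ℝ), 0 < s → InjOn (it f m) (ball z s) →
    ‖deriv (it f m) z - 1‖ ≤ δ / 10 → ε₁ * s < ‖it f m z - z‖

/-- the final geometric configuration [W+, 4]. -/
structure Geo (C ε : ℝ) (f : Polynomial ℂ) (k : ℕ) (w : ℂ) (ρ : ℝ) : Prop where
  k1 : 1 ≤ k
  rho : 0 < ρ
  inj : InjOn (it f k) (ball w ρ)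
  dj : ∀ i < k, ∀ j < k, i ≠ j → Disjoint (it f i '' ball w (ρ / C)) (it f j '' ball w (ρ / C))
  big : ∀ j ≤ k, 1 / 2 ≤ ‖deriv (it f j) w‖
  near : ∀ z ∈ ball w ρ, ‖it f k z - z‖ ≤ ε * ρ
  fail : ¬ (InjOn (it f k) (ball w (C * ρ)) ∧ MapsTo (it f k) (ball w (C * ρ / 2)) (ball w (C * ρ)))

/-! ## Data -/

/-- the energy inequality on `ball 0 R` (as `XP.Eng`, for `WPS.AD`). -/
structure Eng (n : ℕ) (f : Polynomial ℂ) (P : Set ℂ) (H : ℂ → ℂ) (R E : ℝ) : Prop where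
  hn : 2 ≤ n
  hdeg : f.natDegree = n
  ad : WPS.AD f P H
  posR : 0 < R
  inv : ∀ y : ℂ, ‖f.eval y‖ < R → ‖y‖ < R
  E0 : 0 ≤ E
  hE : ∫⁻ z in ball (0 : ℂ) R, ENNReal.ofReal (XPS.Df f H z + 2 * ‖XPS.er f H z‖) ≤ ENNReal.ofReal E

/-- a datum: `k` levels, polynomial `f`, base point `w`, scale `ρ`, three points `a i` (in the `x`-plane, `z = w + ρ x`) with coefficients `γ i`,
radius and energy, a normalising factor `s` and the bound `om` of displacement and energy. -/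
structure Dat where
  k : ℕ
  f : Polynomial ℂ
  w : ℂ
  ρ : ℝ
  a : Fin 3 → ℂ
  γ : Fin 3 → ℂ
  rad : ℝ
  E : ℝ
  s : ℝ
  om : ℝ

namespace Dat

/-- the scale. -/
def sg (D : Dat) : ℂ := (D.ρ : ℂ)

/-- from the `x`-plane to the `z`-plane. -/
def zz (D : Dat) (x : ℂ) : ℂ := D.w + D.sg * x

/-- from the `z`-plane to the `x`-plane. -/
def xx (D : Dat) (z : ℂ) : ℂ := (z - D.w) / D.sg

/-- the `j`-th iterate of `f` in the `x`-plane. -/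
def F (D : Dat) (j : ℕ) (x : ℂ) : ℂ := D.xx (it D.f j (D.zz x))

/-- the orbits of the three points in the `x`-plane. -/
def p (D : Dat) (i : Fin 3) (j : ℕ) : ℂ := D.F j (D.a i)

/-- the residues. -/
def g (D : Dat) (i : Fin 3) (j : ℕ) : ℂ := D.γ i / deriv (D.F j) (D.a i)

/-- the differential in the `x`-plane, not normalised. -/
def B0 (D : Dat) (x : ℂ) : ℂ := ∑ i : Fin 3, ∑ j ∈ Finset.range D.k, D.g i j / (x - D.p i j)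

/-- the normalised differential in the `x`-plane. -/
def B (D : Dat) (x : ℂ) : ℂ := (D.s : ℂ) * D.B0 x

/-- the differential in the `z`-plane, not normalised. -/
def H0 (D : Dat) (z : ℂ) : ℂ := D.B0 (D.xx z) / D.sg ^ 2

/-- the normalised differential in the `z`-plane. -/
def H (D : Dat) (z : ℂ) : ℂ := (D.s : ℂ) * D.H0 z

/-- the poles of `H`. -/
def PP (D : Dat) : Set ℂ := {z | ∃ i : Fin 3, ∃ j < D.k, z = D.zz (D.p i j)}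

/-- all dangerous points in the `x`-plane (a superset of the poles of the pulled back differentials and errors). -/
def Pt (D : Dat) : Set ℂ := {x | ∃ i : Fin 3, ∃ j ≤ 2 * D.k, x = D.p i j}

/-- the coefficients of the affine part: `B0 x = ca + cb x + ...`. -/
def ca (D : Dat) : ℂ := -∑ i : Fin 3, ∑ j ∈ Finset.Ico 1 D.k, D.g i j / D.p i j

/-- see `ca`. -/
def cb (D : Dat) : ℂ := -∑ i : Fin 3, ∑ j ∈ Finset.Ico 1 D.k, D.g i j / D.p i j ^ 2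

/-- the standing assumptions on one datum: `C` is the constant of the geometry, `A` (large) the size of the part of the `x`-plane inside the ball of the energy inequality. -/
structure Good (n : ℕ) (C A : ℝ) (D : Dat) : Prop where
  hn : 2 ≤ n
  hdeg : D.f.natDegree = n
  hk : 1 ≤ D.k
  C1 : 1 ≤ C
  A1 : 1 ≤ A
  rho : 0 < D.ρ
  inj : InjOn (D.F D.k) (ball 0 1)
  dj : ∀ i < D.k, ∀ j < D.k, i ≠ j → Disjoint (D.F i '' ball 0 (1 / C)) (D.F j '' ball 0 (1 / C))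
  big : ∀ j ≤ D.k, 1 / 2 ≤ ‖deriv (D.F j) 0‖
  near : ∀ x ∈ ball (0 : ℂ) 1, ‖D.F D.k x - x‖ ≤ D.om
  pt : ∀ i, ‖D.a i‖ ≤ 1 / (4 * C)
  sep : ∀ i l, i ≠ l → 1 / (4 * C) ≤ ‖D.a i - D.a l‖
  gam : ∀ i, ‖D.γ i‖ ≤ 1
  gam1 : ∃ i, ‖D.γ i‖ = 1
  eng : Eng n D.f D.PP D.H0 D.rad D.E
  radb : ∀ x : ℂ, ‖x‖ < A → ‖D.zz x‖ < D.rad
  om0 : 0 < D.om
  om1 : D.om ≤ 1 / (16 * C)
  Eom : D.E ≤ D.om
  s0 : 0 < D.s
  s1 : D.s ≤ 1

end Dat

/-- a sequence of data. -/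
structure Seq (n : ℕ) (C : ℝ) (D : ℕ → Dat) : Prop where
  good : ∃ A : ℕ → ℝ, Tendsto A atTop atTop ∧ ∀ m, (D m).Good n C (A m)
  om : Tendsto (fun m => (D m).om) atTop (𝓝 0)
  s : ∀ m, (D m).s = (1 + ‖(D m).ca‖ + ‖(D m).cb‖)⁻¹

/-- the limit set of the dangerous points. -/
def Pin (D : ℕ → Dat) : Set ℂ :=
  {p | ∀ ε > (0 : ℝ), ∀ᶠ m in UF, ∃ x ∈ (D m).Pt, ‖x - p‖ < ε}

/-- the limit of `B`. -/
def Bin (D : ℕ → Dat) (x : ℂ) : ℂ := limUnder UF fun m => (D m).B x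

/-- the regular set: no dangerous points, no zeros of the limit. -/
def Reg (D : ℕ → Dat) : Set ℂ := {x | x ∉ Pin D ∧ Bin D x ≠ 0}

/-- the limit of the normalised differential exists and its zeros do not accumulate. -/
structure LB (D : ℕ → Dat) : Prop where
  diff : DifferentiableOn ℂ (Bin D) (Pin D)ᶜ
  conv : ∀ K : Set ℂ, IsCompact K → K ⊆ (Pin D)ᶜ →
    TendstoUniformlyOn (fun m => (D m).B) (Bin D) UF K
  acc : ∀ x : ℂ, ∀ᶠ y in 𝓝[≠] x, y ∉ Pin D ∧ Bin D y ≠ 0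

/-- the chain property: natural chart at `x` and tower of `k` levels over it with small errors. -/
structure Ctl (D : Dat) (x : ℂ) (r C : ℝ) (χ : ℂ → ℂ) (G : ℕ → ℂ → ℂ) (Φ : ℂ → ℂ) : Prop where
  nat : XPS.IsNat D.PP D.H χ (ball 0 (2 * r))
  val : χ 0 = D.zz x
  aff : ∀ w ∈ ball (0 : ℂ) (2 * r), ‖deriv χ w - deriv χ 0‖ ≤ ‖deriv χ 0‖ / 10
  lev : WPS.LevSys D.f D.PP D.H G (ball 0 r) D.k
  g0 : EqOn (G 0) χ (ball 0 r)
  sum : ∀ w ∈ ball (0 : ℂ) r, ∑ q ∈ Finset.Icc 1 D.k, XPS.lev D.H G q w ≤ C * D.om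
  phd : DifferentiableOn ℂ Φ (ball 0 r)
  phi : ∀ w ∈ ball (0 : ℂ) r, Φ w ∈ ball (0 : ℂ) (2 * r) ∧ ‖Φ w - w‖ ≤ C * D.om ∧ χ (Φ w) = G D.k w
  kc : ∀ q, 1 ≤ q → q ≤ D.k → ‖G q 0 - D.zz (D.F (D.k - q) 0)‖ ≤ C * ‖deriv (G q) 0‖

/-- the chain property at the point `x` of the limit plane. -/
def CTL (D : ℕ → Dat) (x : ℂ) : Prop :=
  ∃ r > (0 : ℝ), ∃ C > (0 : ℝ), ∀ᶠ m in UF, ∃ (χ : ℂ → ℂ) (G : ℕ → ℂ → ℂ) (Φ : ℂ → ℂ),
    Ctl (D m) x r C χ G Φ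

/-! ## The main statements -/

/-- GEO: the geometric part [W+, 1-4]. -/
def GEO_stmt : Prop := ∃ C : ℝ, 1 ≤ C ∧ ∀ δ : ℝ, 0 < δ → δ ≤ 1 → ∀ ε : ℝ, 0 < ε → ∃ ε₀ > (0 : ℝ),
  ∀ (n : ℕ) (c : ℂ), 2 ≤ n → ‖c‖ ≤ 2 → WD δ (GR.fp n c) → ∀ (k : ℕ) (w : ℂ) (ρ : ℝ), 1 ≤ k → 0 < ρ →
  InjOn (it (GR.fp n c) k) (ball w ρ) → ‖it (GR.fp n c) k w - w‖ ≤ ε₀ * ρ →
  ‖deriv (it (GR.fp n c) k) w - 1‖ ≤ ε₀ →
  ∃ (k' : ℕ) (w' : ℂ) (ρ' : ℝ), Geo C ε (GR.fp n c) k' w' ρ'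

/-- MPL: the main limit statement [W+, 6]: along a sequence of data the iterates `F k` are injective on larger and larger discs. -/
def MPL_stmt : Prop := ∀ (n : ℕ) (C : ℝ) (D : ℕ → Dat), Seq n C D → ∀ ρ > (0 : ℝ),
  ∀ᶠ m in UF, InjOn ((D m).F (D m).k) (ball 0 ρ) ∧ ∀ x ∈ ball (0 : ℂ) ρ, ‖(D m).F (D m).k x - x‖ ≤ 1

/-- W+, uniform form. -/
def WPU_stmt : Prop := ∀ n : ℕ, 2 ≤ n → ∀ r > (0 : ℝ), ∃ ε₀ > (0 : ℝ), ∀ c ∈ multibrot n,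
  Disjoint (ball c r) (hyperbolic n) → ∀ (k : ℕ) (w : ℂ) (ρ : ℝ), 1 ≤ k → 0 < ρ →
  InjOn ((fun z : ℂ => z ^ n + c)^[k]) (ball w ρ) → ‖(fun z : ℂ => z ^ n + c)^[k] w - w‖ ≤ ε₀ * ρ →
  ‖deriv ((fun z : ℂ => z ^ n + c)^[k]) w - 1‖ ≤ ε₀ → False

end WP
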