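import Pool.Agent.helper52.WP.SpecS

/-! xp:LEAX (adapted from helper36/PP/LEA.lean) -/

set_option autoImplicit false

open Complex Metric Set Filter Topology MeasureTheory
open PPS (fd fdd pre TT CV Br cn)
open MPS (PsiM)

noncomputable section

open XPS (IsNat er Df dens brv tau lev d3 e3 eT)

namespace WPS

theorem LEAX_B {P : Set ℂ} {B : ℂ → ℂ} (hP : DifferentiableOn ℂ B Pᶜ) (F : ℂ → ℂ) (Ω : Set ℂ)
    (hF : DifferentiableOn ℂ F Ω) (h : ∀ w ∈ Ω, F w ∉ P) : DifferentiableOn ℂ (fun w => B (F w)) Ω :=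
  hP.comp hF fun w hw => h w hw

theorem LEAX : LEAX_stmt := by
  intro f P B G Ω Q hcyc hO hL
  have h1 : ∀ q ≤ Q, ∀ w ∈ Ω, G q w ∉ P := fun q hq w hw => (hL.av q hq w hw).1
  have h2 : ∀ q ≤ Q, ∀ w ∈ Ω, ∀ y : ℂ, f.eval y = G q w → y ∉ P :=
    fun q hq w hw => (hL.av q hq w hw).2
  have hd : ∀ q ≤ Q, DifferentiableOn ℂ (fun w => deriv (G q) w ^ 2) Ω := fun q hq =>
    ((hL.diff q hq).deriv hO).pow 2
  have h4 : ∀ q < Q, ∀ w ∈ Ω, deriv (G q) w = fd f (G (q + 1) w) * deriv (G (q + 1)) w := by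
    intro q hq w hw
    have h1 : DifferentiableAt ℂ (G (q + 1)) w := (hL.diff (q + 1) hq).differentiableAt (hO.mem_nhds hw)
    have h2 : HasDerivAt (fun z => f.eval (G (q + 1) z))
        (f.derivative.eval (G (q + 1) w) * deriv (G (q + 1)) w) w :=
      (f.hasDerivAt (G (q + 1) w)).comp w h1.hasDerivAt
    have h3 : G q =ᶠ[𝓝 w] fun z => f.eval (G (q + 1) z) := by
      filter_upwards [hO.mem_nhds hw] with z hz
      exact ((hL.rel q hq z hz).1).symm
    rw [h3.deriv_eq, h2.deriv]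
    rfl
  refine ⟨h1, h2, fun q hq => ?_, h4, ?_⟩
  · exact (hd q hq).mul (LEAX_B hcyc.dif (G q) Ω (hL.diff q hq) (h1 q hq))
  · intro q
    induction q with
    | zero =>
      intro _ w hw h0
      have := hL.nat0.eq w hw
      rw [h0] at this
      norm_num at this
    | succ q ih =>
      intro hq w hw h0
      apply ih (by omega) w hw
      rw [h4 q (by omega) w hw, h0, mul_zero]

end WPS
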