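import Pool.Agent.helper52.WP.SpecS

/-! xp:LEIX (adapted from helper36/PP/LEI.lean) -/

set_option autoImplicit false

open Complex Metric Set Filter Topology MeasureTheory
open PPS (fd fdd pre TT CV Br cn)
open MPS (PsiM)

noncomputable section

open XPS (IsNat er Df dens brv tau lev d3 e3 eT)

namespace WPS

theorem LEIX_sum (f : Polynomial ℂ) (B : ℂ → ℂ) (G : ℂ → ℂ) (w z : ℂ) :
    ((pre f z).map (brv f B G w)).sum = deriv G w ^ 2 * TT f (B) z := by
  unfold TT
  rw [← Multiset.sum_map_mul_left]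
  refine congrArg Multiset.sum (Multiset.map_congr rfl fun y _ => ?_)
  unfold brv
  rw [div_pow]
  ring

theorem LEIX (hPRB : PPS.PRB_stmt) (hLEA : LEAX_stmt) : LEIX_stmt := by
  intro f P B G Ω Q hc hΩ hL
  obtain ⟨hA1, hA2, hA3, hder, hne⟩ := hLEA f P B G Ω Q hc hΩ hL
  refine ⟨fun w hw => hL.nat0.eq w hw, ?_, ?_, ?_⟩
  · intro q hq w hw
    refine ⟨((hPRB f hc.deg).1 _ _).2 (hL.rel q hq w hw).1, ?_⟩
    unfold brv tau
    rw [hder q hq w hw, mul_div_assoc, mul_comm (fd f (G (q + 1) w)),
      div_mul_cancel₀ _ (hL.rel q hq w hw).2]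
  · intro q hq w hw
    rw [LEIX_sum]
    unfold tau er
    ring
  · intro q hq w hw
    unfold Df
    rw [sub_mul]
    congr 1
    · rw [← Multiset.sum_map_mul_right]
      refine congrArg Multiset.sum (Multiset.map_congr rfl fun y _ => ?_)
      unfold brv
      rw [norm_mul, norm_pow, norm_div, div_pow]
      ring
    · unfold tau er
      rw [← mul_sub, norm_mul, norm_pow]
      ring_nf

end WPS
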