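import Pool.Agent.helper52.WP.SpecS

/-! xp:LVX (adapted from helper36/PP/LV.lean) -/

set_option autoImplicit false

open Complex Metric Set Filter Topology MeasureTheory
open PPS (fd fdd pre TT CV Br cn)
open MPS (PsiM)

noncomputable section

open XPS (IsNat er Df dens brv tau lev d3 e3 eT)

namespace WPS

theorem LVX_dens (f : Polynomial ℂ) (B : ℂ → ℂ) (G : ℕ → ℂ → ℂ) (q : ℕ)
    (w : ℂ) : dens f B (G q) w =
      Df f B (G q w) * ‖deriv (G q) w‖ ^ 2 + 2 * ‖deriv (G q) w ^ 2 * er f B (G q w)‖ := by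
  unfold dens
  rw [norm_mul, norm_pow]
  ring

theorem LVX_norm_sum (s : Multiset ℂ) (F : ℂ → ℂ) : ‖(s.map F).sum‖ ≤ (s.map fun y => ‖F y‖).sum := by
  induction s using Multiset.induction_on with
  | empty => simp
  | cons a s ih =>
    rw [Multiset.map_cons, Multiset.sum_cons, Multiset.map_cons, Multiset.sum_cons]
    exact (norm_add_le _ _).trans (by linarith)

theorem LVX_re_sum (s : Multiset ℂ) (F : ℂ → ℂ) : ((s.map F).sum).re = (s.map fun y => (F y).re).sum := by
  induction s using Multiset.induction_on with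
  | empty => simp
  | cons a s ih =>
    rw [Multiset.map_cons, Multiset.sum_cons, Multiset.map_cons, Multiset.sum_cons, Complex.add_re, ih]

/-- splitting off one element. -/
theorem LVX_split {M : Type*} [AddCommMonoid M] (s : Multiset ℂ) (y : ℂ) (hy : y ∈ s) (F : ℂ → M) :
    (s.map F).sum = F y + ((s.erase y).map F).sum := by
  rw [← Multiset.cons_erase hy, Multiset.map_cons, Multiset.sum_cons, Multiset.erase_cons_head]

/-- LV. -/
theorem LVX (hLEI : LEIX_stmt) (hMI : MIX_stmt) : LVX_stmt := by
  intro f P B G Ω Q hb hΩ hL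
  obtain ⟨h0, h1, h2, h3⟩ := hLEI f P B G Ω Q hb hΩ hL
  have hnn : ∀ z, 0 ≤ Df f B z := (hMI f P B hb).2.2.2.2
  have hre : ∀ z : ℂ, z.re ≤ ‖z‖ := Complex.re_le_norm
  -- the others, for one level
  have hoth : ∀ q < Q, ∀ w ∈ Ω,
      (((pre f (G q w)).erase (G (q + 1) w)).map fun y => ‖brv f B (G q) w y‖).sum =
        Df f B (G q w) * ‖deriv (G q) w‖ ^ 2 +
          ‖tau B G q w - deriv (G q) w ^ 2 * er f B (G q w)‖ - ‖tau B G (q + 1) w‖ := by
    intro q hq w hw
    obtain ⟨ha, hb'⟩ := h1 q hq w hw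
    have e1 := h3 q hq.le w hw
    rw [LVX_split _ _ ha, hb'] at e1
    linarith
  have hothc : ∀ q < Q, ∀ w ∈ Ω,
      (((pre f (G q w)).erase (G (q + 1) w)).map fun y => brv f B (G q) w y).sum =
        tau B G q w - tau B G (q + 1) w - deriv (G q) w ^ 2 * er f B (G q w) := by
    intro q hq w hw
    obtain ⟨ha, hb'⟩ := h1 q hq w hw
    have e1 := h2 q hq.le w hw
    rw [LVX_split _ _ ha, hb'] at e1
    linear_combination -e1
  have hA : ∀ Q' ≤ Q, ∀ w ∈ Ω, (‖tau B G Q' w‖ - (tau B G Q' w).re) +
    ∑ q ∈ Finset.range Q',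
      (lev B G (q + 1) w - (tau B G q w - tau B G (q + 1) w).re) ≤
    ∑ q ∈ Finset.range Q', dens f B (G q) w := by
    intro Q'
    induction Q' with
    | zero =>
      intro _ w hw
      simp [h0 w hw]
    | succ m ih =>
      intro hm w hw
      have ih' := ih (by omega) w hw
      have e1 := hoth m (by omega) w hw
      have e2 := hothc m (by omega) w hw
      have e3 := LVX_dens f B G m w
      have e4 := LVX_norm_sum ((pre f (G m w)).erase (G (m + 1) w)) (fun y => brv f B (G m) w y)
      rw [e2, e1] at e4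
      rw [Finset.sum_range_succ, Finset.sum_range_succ, e3]
      set E := deriv (G m) w ^ 2 * er f B (G m w) with hE
      have e5 : lev B G (m + 1) w ≤
          ‖tau B G m w - tau B G (m + 1) w - E‖ + ‖E‖ := by
        unfold lev
        rw [Nat.add_sub_cancel]
        have := norm_add_le (tau B G m w - tau B G (m + 1) w - E) E
        rwa [sub_add_cancel] at this
      have e6 := norm_sub_le (tau B G m w) E
      have e7 : (tau B G m w - tau B G (m + 1) w).re = (tau B G m w).re - (tau B G (m + 1) w).re :=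
        Complex.sub_re _ _
      linarith
  have hlev : ∀ q w, 0 ≤ lev B G (q + 1) w - (tau B G q w - tau B G (q + 1) w).re := by
    intro q w
    unfold lev
    rw [Nat.add_sub_cancel]
    exact sub_nonneg.2 (hre _)
  have hB : ∀ Q' ≤ Q, ∀ w ∈ Ω,
      ((pre f (G Q' w)).map fun y => ‖brv f B (G Q') w y‖ - (brv f B (G Q') w y).re).sum ≤
        ∑ q ∈ Finset.range (Q' + 1), dens f B (G q) w := by
    intro Q' hQ' w hw
    have e1 := h2 Q' hQ' w hw
    have e2 := h3 Q' hQ' w hw
    have e3 := hA Q' hQ' w hw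
    have e4 : 0 ≤ ∑ q ∈ Finset.range Q',
        (lev B G (q + 1) w - (tau B G q w - tau B G (q + 1) w).re) :=
      Finset.sum_nonneg fun q _ => hlev q w
    rw [Finset.sum_range_succ, LVX_dens, e2, Multiset.sum_map_sub]
    have e5 : (tau B G Q' w).re = ((pre f (G Q' w)).map fun y => (brv f B (G Q') w y).re).sum +
        (deriv (G Q') w ^ 2 * er f B (G Q' w)).re := by
      rw [← LVX_re_sum]
      conv_lhs => rw [e1]
      rw [Complex.add_re]
    have e6 := norm_sub_le (tau B G Q' w) (deriv (G Q') w ^ 2 * er f B (G Q' w))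
    have e7 := hre (deriv (G Q') w ^ 2 * er f B (G Q' w))
    linarith
  refine ⟨hA, hB, ?_, ?_, ?_⟩
  · intro q w
    have e1 := hnn (G q w)
    unfold dens
    constructor
    · positivity
    · have : 0 ≤ Df f B (G q w) * ‖deriv (G q) w‖ ^ 2 := by positivity
      nlinarith
  · intro q
    induction q with
    | zero =>
      intro _ w hw
      simp [h0 w hw]
    | succ m ih =>
      intro hm w hw
      have ih' := ih (by omega) w hw
      rw [Finset.sum_Icc_succ_top (by omega)]
      have e2 : tau B G (m + 1) w - 1 = (tau B G m w - 1) -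
          (tau B G m w - tau B G (m + 1) w) := by ring
      have e3 : lev B G (m + 1) w = ‖tau B G m w - tau B G (m + 1) w‖ := by
        unfold lev
        rw [Nat.add_sub_cancel]
      rw [e2, e3]
      exact (norm_sub_le _ _).trans (add_le_add ih' le_rfl)
  · intro q hq w hw
    have e1 := hoth q hq w hw
    have e2 := hA q hq.le w hw
    have e3 := norm_sub_le (tau B G q w) (deriv (G q) w ^ 2 * er f B (G q w))
    have e4 : 0 ≤ ∑ q ∈ Finset.range q,
        (lev B G (q + 1) w - (tau B G q w - tau B G (q + 1) w).re) :=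
      Finset.sum_nonneg fun q _ => hlev q w
    have e5 := hre (tau B G (q + 1) w)
    have e6 := LVX_dens f B G q w
    have e7 : (tau B G q w - tau B G (q + 1) w).re = (tau B G q w).re - (tau B G (q + 1) w).re :=
      Complex.sub_re _ _
    have e8 : ‖deriv (G q) w ^ 2 * er f B (G q w)‖ = ‖er f B (G q w)‖ * ‖deriv (G q) w‖ ^ 2 := by
      rw [norm_mul, norm_pow, mul_comm]
    rw [Finset.sum_range_succ, e6, e1, e7]
    have e9 : 0 ≤ ‖er f B (G q w)‖ * ‖deriv (G q) w‖ ^ 2 := by positivity
    rw [e8] at e3 ⊢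
    linarith

end WPS
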