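import Pool.Agent.helper52.WP.SpecS
import Pool.Agent.helper69.PP.MI

/-!
# xp:MIX: measurability, positivity of the deficit (adapted from helper69/PP/MI.lean)
-/

set_option autoImplicit false

open Complex Metric Set Filter Topology MeasureTheory
open PPS (fd fdd pre TT CV Br cn)
open MPS (PsiM)

noncomputable section

open XPS (IsNat er Df dens brv tau lev d3 e3 eT)

namespace WPS

theorem MIX_B {f : Polynomial ℂ} {P : Set ℂ} {B : ℂ → ℂ} (h : AD f P B) : Measurable B := by
  refine ContinuousOn.measurable_of_countable_compl (s := Pᶜ) h.dif.continuousOn ?_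
  rw [compl_compl]
  exact h.fin.countable

theorem MIX : MIX_stmt := by
  intro f P B h
  have h1 := MIX_B h
  have h2 := PPS.MI_TT f h.deg B h1
  refine ⟨h1, h2, h1.sub h2, ?_, ?_⟩
  · have h3 := (PPS.MS f h.deg).2.1 (fun y => ‖B y‖ / ‖fd f y‖ ^ 2)
      (h1.norm.div ((PPS.MI_poly f.derivative).norm.pow_const 2))
    exact h3.sub h2.norm
  · intro z
    unfold Df
    have h4 := PPS.MI_pos (pre f z) f B
    unfold TT
    linarith

end WPS
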