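import Pool.Agent.helper52.WP.SpecS

/-! xp:NPLX: path lifting through a natural map (adapted from helper71/MP/NPL.lean) -/

set_option autoImplicit false

open Complex Metric Set Filter Topology MeasureTheory
open PPS (fd fdd pre TT CV Br cn)
open MPS (PsiM)

noncomputable section

open XPS (IsNat er Df dens brv tau lev d3 e3 eT)

namespace WPS

theorem NPLX_loc {χ : ℂ → ℂ} {v₀ : ℂ} (hχ : AnalyticAt ℂ χ v₀) (hne : deriv χ v₀ ≠ 0) :
    ∃ e : OpenPartialHomeomorph ℂ ℂ, (∀ z, e z = χ z) ∧ v₀ ∈ e.source ∧ χ v₀ ∈ e.target := by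
  have h1 := (hχ.hasStrictDerivAt).hasStrictFDerivAt_equiv hne
  refine ⟨h1.toOpenPartialHomeomorph χ, fun z => rfl, h1.mem_toOpenPartialHomeomorph_source,
    h1.image_mem_toOpenPartialHomeomorph_target⟩

theorem NPLX : NPLX_stmt := by
  intro P B χ G Ω Ω' v₁ w₁ w₂ r hPf hBd hΩ hΩ' hχ hball hG hav hseg hst hint
  set w : ℝ → ℂ := fun t => w₁ + t * (w₂ - w₁) with hw
  have hwc : Continuous w := by
    rw [hw]
    fun_prop
  have hwd : ∀ t : ℝ, HasDerivAt w (w₂ - w₁) t := by
    intro t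
    have h1 : HasDerivAt (fun t : ℝ => (t : ℂ)) 1 t := Complex.ofRealCLM.hasDerivAt
    have h2 := (h1.mul_const (w₂ - w₁)).const_add w₁
    rw [one_mul] at h2
    exact h2
  have hwseg : ∀ t ∈ Icc (0 : ℝ) 1, w t ∈ Ω' := by
    intro t ht
    apply hseg
    rw [segment_eq_image']
    refine ⟨t, ht, ?_⟩
    simp only [hw, Complex.real_smul]
  set F : ℝ → ℝ := fun t => ‖w₂ - w₁‖ * Real.sqrt ‖deriv G (w₁ + t * (w₂ - w₁)) ^ 2 *
    B (G (w₁ + t * (w₂ - w₁)))‖ with hF
  have hF0 : ∀ t, 0 ≤ F t := fun t => mul_nonneg (norm_nonneg _) (Real.sqrt_nonneg _)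
  have hGd : ContinuousOn (deriv G) Ω' := (hG.deriv hΩ').continuousOn
  have hFc : ContinuousOn F {t | w t ∈ Ω'} := by
    have h1 : ContinuousOn (fun z => ‖w₂ - w₁‖ * Real.sqrt ‖deriv G z ^ 2 * B (G z)‖) Ω' := by
      refine continuousOn_const.mul (Real.continuous_sqrt.comp_continuousOn ?_)
      refine ((hGd.pow 2).mul ?_).norm
      exact hBd.continuousOn.comp hG.continuousOn (fun z hz => hav z hz)
    exact h1.comp hwc.continuousOn (fun t ht => ht)
  have hFI : ∀ a c : ℝ, a ≤ c → (∀ t ∈ Icc a c, w t ∈ Ω') → IntervalIntegrable F volume a c := by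
    intro a c hac h
    apply ContinuousOn.intervalIntegrable
    rw [uIcc_of_le hac]
    exact hFc.mono h
  set I : ℝ → ℝ := fun t => ∫ s in (0 : ℝ)..t, F s with hI
  have hI1 : I 1 < r := hint
  have hI0 : I 0 = 0 := intervalIntegral.integral_same
  have hImono : ∀ a c : ℝ, 0 ≤ a → a ≤ c → c ≤ 1 → I a ≤ I c := by
    intro a c ha hac hc
    have h1 : I a + ∫ s in a..c, F s = I c :=
      intervalIntegral.integral_add_adjacent_intervals
        (hFI 0 a ha fun t ht => hwseg t ⟨ht.1, ht.2.trans (hac.trans hc)⟩)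
        (hFI a c hac fun t ht => hwseg t ⟨ha.trans ht.1, ht.2.trans hc⟩)
    have h2 : 0 ≤ ∫ s in a..c, F s := intervalIntegral.integral_nonneg hac fun s _ => hF0 s
    linarith
  have hIc : ContinuousOn I (Icc 0 1) := by
    have h1 : ContinuousOn (fun t => ∫ s in (0 : ℝ)..t, F s) (uIcc 0 1) :=
      intervalIntegral.continuousOn_primitive_interval
        (by
          rw [uIcc_of_le zero_le_one]
          exact (hFc.mono hwseg).integrableOn_Icc)
    rwa [uIcc_of_le zero_le_one] at h1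
  set S : Set ℝ := {t | ∃ v : ℂ, ‖v - v₁‖ ≤ I t ∧ χ v = G (w t)} with hS
  have hinball : ∀ t ∈ Icc (0 : ℝ) 1, ∀ v : ℂ, ‖v - v₁‖ ≤ I t → v ∈ ball v₁ r := by
    intro t ht v hv
    rw [mem_ball, dist_eq_norm]
    exact (hv.trans (hImono t 1 ht.1 ht.2 le_rfl)).trans_lt hI1
  -- closedness
  have hclosed : IsClosed (S ∩ Icc 0 1) := by
    have hC : IsCompact (Icc (0 : ℝ) 1 ×ˢ closedBall v₁ (I 1)) :=
      isCompact_Icc.prod (isCompact_closedBall _ _)
    have hΦ : ContinuousOn (fun p : ℝ × ℂ => ((I p.1 - ‖p.2 - v₁‖, χ p.2 - G (w p.1)) : ℝ × ℂ))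
        (Icc (0 : ℝ) 1 ×ˢ closedBall v₁ (I 1)) := by
      apply ContinuousOn.prodMk
      · apply ContinuousOn.sub
        · exact hIc.comp continuousOn_fst (fun p hp => hp.1)
        · exact ((continuous_snd.sub continuous_const).norm).continuousOn
      · apply ContinuousOn.sub
        · refine hχ.diff.continuousOn.comp continuousOn_snd (fun p hp => hball ?_)
          exact closedBall_subset_ball hI1 hp.2
        · refine hG.continuousOn.comp (hwc.comp continuous_fst).continuousOn (fun p hp => ?_)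
          exact hwseg p.1 hp.1
    have hK : IsClosed ((Icc (0 : ℝ) 1 ×ˢ closedBall v₁ (I 1)) ∩
        (fun p : ℝ × ℂ => ((I p.1 - ‖p.2 - v₁‖, χ p.2 - G (w p.1)) : ℝ × ℂ)) ⁻¹'
          (Ici (0 : ℝ) ×ˢ ({0} : Set ℂ))) :=
      hΦ.preimage_isClosed_of_isClosed hC.isClosed (isClosed_Ici.prod isClosed_singleton)
    have hKc := hC.of_isClosed_subset hK inter_subset_left
    have h1 : S ∩ Icc 0 1 = Prod.fst '' ((Icc (0 : ℝ) 1 ×ˢ closedBall v₁ (I 1)) ∩
        (fun p : ℝ × ℂ => ((I p.1 - ‖p.2 - v₁‖, χ p.2 - G (w p.1)) : ℝ × ℂ)) ⁻¹'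
          (Ici (0 : ℝ) ×ˢ ({0} : Set ℂ))) := by
      ext t
      constructor
      · rintro ⟨⟨v, hv1, hv2⟩, ht⟩
        refine ⟨(t, v), ⟨⟨ht, ?_⟩, ?_, ?_⟩, rfl⟩
        · rw [mem_closedBall, dist_eq_norm]
          exact hv1.trans (hImono t 1 ht.1 ht.2 le_rfl)
        · show (0 : ℝ) ≤ I t - ‖v - v₁‖
          linarith
        · show χ v - G (w t) = 0
          rw [hv2, sub_self]
      · rintro ⟨⟨t', v⟩, ⟨⟨ht, hv⟩, h3, h4⟩, rfl⟩
        have h3' : (0 : ℝ) ≤ I t' - ‖v - v₁‖ := h3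
        have h4' : χ v - G (w t') = 0 := h4
        exact ⟨⟨v, by linarith, sub_eq_zero.1 h4'⟩, ht⟩
    rw [h1]
    exact (hKc.image continuous_fst).isClosed
  -- local step
  have hstep : ∀ t ∈ S ∩ Ico 0 1, S ∈ 𝓝[>] t := by
    rintro t ⟨⟨v₀, hv₀, hχv⟩, ht⟩
    have htI : t ∈ Icc (0 : ℝ) 1 := ⟨ht.1, ht.2.le⟩
    have hv₀Ω : v₀ ∈ Ω := hball (hinball t htI v₀ hv₀)
    have hAn : ∀ z ∈ Ω, AnalyticAt ℂ χ z := fun z hz => hχ.diff.analyticAt (hΩ.mem_nhds hz)
    have hne : ∀ z ∈ Ω, deriv χ z ≠ 0 := by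
      intro z hz h0
      have h1 := hχ.eq z hz
      rw [h0] at h1
      simp at h1
    obtain ⟨e, he, hes, het⟩ := NPLX_loc (hAn v₀ hv₀Ω) (hne v₀ hv₀Ω)
    have hsymm0 : e.symm (G (w t)) = v₀ := by
      rw [← hχv, ← he v₀]
      exact e.left_inv hes
    have htar : G (w t) ∈ e.target := by rw [← hχv]; exact het
    have hγc : ContinuousAt (fun s => G (w s)) t :=
      (hG.continuousOn.continuousAt (hΩ'.mem_nhds (hwseg t htI))).comp hwc.continuousAt
    have hN : ∀ᶠ s in 𝓝 t, w s ∈ Ω' ∧ G (w s) ∈ e.target ∧ e.symm (G (w s)) ∈ Ω := by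
      refine (hwc.continuousAt.eventually (hΩ'.mem_nhds (hwseg t htI))).and
        ((hγc.eventually (e.open_target.mem_nhds htar)).and ?_)
      have h1 : ContinuousAt (fun s => e.symm (G (w s))) t :=
        ContinuousAt.comp (g := e.symm) (f := fun s => G (w s)) (e.symm.continuousAt htar) hγc
      have h2 : (fun s => e.symm (G (w s))) t ∈ Ω := by
        show e.symm (G (w t)) ∈ Ω
        rw [hsymm0]
        exact hv₀Ω
      exact h1.eventually (hΩ.mem_nhds h2)
    obtain ⟨ε, hε, hN'⟩ := Metric.eventually_nhds_iff_ball.1 hN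
    set v : ℝ → ℂ := fun s => e.symm (G (w s)) with hv
    set d : ℝ → ℂ := fun s => (deriv χ (v s))⁻¹ * (deriv G (w s) * (w₂ - w₁)) with hd
    have hχv' : ∀ s ∈ ball t ε, χ (v s) = G (w s) := by
      intro s hs
      rw [← he]
      exact e.right_inv (hN' s hs).2.1
    have hder : ∀ s ∈ ball t ε, HasDerivAt v (d s) s := by
      intro s hs
      obtain ⟨h1, h2, h3⟩ := hN' s hs
      have h4 : HasDerivAt (fun s => G (w s)) (deriv G (w s) * (w₂ - w₁)) s := by
        have h5 : HasDerivAt G (deriv G (w s)) (w s) :=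
          (hG.differentiableAt (hΩ'.mem_nhds h1)).hasDerivAt
        have h6 := (h5.hasFDerivAt.restrictScalars ℝ).comp_hasDerivAt s (hwd s)
        refine h6.congr_deriv ?_
        simp [mul_comm]
      have h7 : HasDerivAt e.symm (deriv χ (v s))⁻¹ (G (w s)) := by
        refine e.hasDerivAt_symm h2 (hne _ h3) ?_
        have h8 : HasDerivAt χ (deriv χ (v s)) (v s) := (hAn _ h3).differentiableAt.hasDerivAt
        exact h8.congr_of_eventuallyEq (Eventually.of_forall he)
      have h9 := (h7.hasFDerivAt.restrictScalars ℝ).comp_hasDerivAt s h4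
      refine h9.congr_deriv ?_
      simp [d, mul_comm]
    have hnorm : ∀ s ∈ ball t ε, ‖d s‖ = F s := by
      intro s hs
      have h3 := (hN' s hs).2.2
      have h1 := hχ.eq (v s) h3
      rw [hχv' s hs] at h1
      have h2 : B (G (w s)) = (deriv χ (v s))⁻¹ ^ 2 := by
        rw [inv_pow]
        exact eq_inv_of_mul_eq_one_right h1
      have h5 : F s = ‖w₂ - w₁‖ * Real.sqrt ‖deriv G (w s) ^ 2 * B (G (w s))‖ := rfl
      rw [h5, h2, ← mul_pow, norm_pow, Real.sqrt_sq (norm_nonneg _)]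
      simp only [d, norm_mul]
      ring
    have hdc : ContinuousOn d (ball t ε) := by
      have hvc : ContinuousOn v (ball t ε) := fun s hs => (hder s hs).continuousAt.continuousWithinAt
      have hχd : ContinuousOn (deriv χ) Ω := (hχ.diff.deriv hΩ).continuousOn
      apply ContinuousOn.mul
      · exact (hχd.comp hvc (fun s hs => (hN' s hs).2.2)).inv₀ (fun s hs => hne _ (hN' s hs).2.2)
      · exact (hGd.comp hwc.continuousOn (fun s hs => (hN' s hs).1)).mul continuousOn_const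
    have hIoo : Ioo t (t + ε) ⊆ S := by
      intro t' ht'
      have hsub : Icc t t' ⊆ ball t ε := by
        intro s hs
        rw [mem_ball, Real.dist_eq, abs_lt]
        constructor <;> linarith [hs.1, hs.2, ht'.2]
      refine ⟨v t', ?_, hχv' t' (hsub ⟨ht'.1.le, le_rfl⟩)⟩
      have h1 : ∫ s in t..t', d s = v t' - v t := by
        apply intervalIntegral.integral_eq_sub_of_hasDerivAt
        · intro s hs
          rw [uIcc_of_le ht'.1.le] at hs
          exact hder s (hsub hs)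
        · apply ContinuousOn.intervalIntegrable
          rw [uIcc_of_le ht'.1.le]
          exact hdc.mono hsub
      have h2 : ‖v t' - v t‖ ≤ ∫ s in t..t', F s := by
        rw [← h1]
        refine (intervalIntegral.norm_integral_le_integral_norm ht'.1.le).trans (le_of_eq ?_)
        apply intervalIntegral.integral_congr
        intro s hs
        rw [uIcc_of_le ht'.1.le] at hs
        exact hnorm s (hsub hs)
      have h3 : I t + ∫ s in t..t', F s = I t' :=
        intervalIntegral.integral_add_adjacent_intervals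
          (hFI 0 t ht.1 fun s hs => hwseg s ⟨hs.1, hs.2.trans ht.2.le⟩)
          (hFI t t' ht'.1.le fun s hs => (hN' s (hsub hs)).1)
      have h4 : v t = v₀ := hsymm0
      calc ‖v t' - v₁‖ = ‖(v t' - v t) + (v₀ - v₁)‖ := by rw [h4]; congr 1; ring
        _ ≤ ‖v t' - v t‖ + ‖v₀ - v₁‖ := norm_add_le _ _
        _ ≤ I t' := by linarith
    exact mem_of_superset (Ioo_mem_nhdsGT (by linarith)) hIoo
  have hzero : (0 : ℝ) ∈ S := by
    refine ⟨v₁, ?_, ?_⟩
    · rw [sub_self, norm_zero, hI0]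
    · rw [← hst]
      simp [hw]
  have hall := hclosed.Icc_subset_of_forall_mem_nhdsWithin hzero hstep
  obtain ⟨v₂, hv₂, hχ₂⟩ := hall ⟨zero_le_one, le_rfl⟩
  refine ⟨v₂, hv₂, ?_⟩
  rw [hχ₂]
  simp [hw]

end WPS
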