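import Pool.Agent.helper52.WP.Defs

/-!
# Project wp: (MP_af9036_an), part A: geometry (output `WP.GEO_stmt`)

Paper: /team-store/MP_af9036_Wplus_helper52.md, sections 1-4, quoted as [W+, section].

RULES. File `Pool/Agent/<seat>/WP/XX.lean`: `import Pool.Agent.helper52.WP.SpecA`, `set_option autoImplicit false`, `open Complex Metric Set Filter Topology MeasureTheory`,
`open V3S (UF)`, `open WP`, `noncomputable section`, `namespace WPA`, `theorem XX (h : YY_stmt) ... : XX_stmt`.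
Hypotheses may be: other statements of this file (no circles), and the proved tools `V3.KO0_stmt` (injective implies derivative `≠ 0`), `V3.KO1_stmt` (quarter theorem), `V3.KO2_stmt`, `V3.KO3_stmt`
(distortion), `V3.TUL_stmt`, `V3.TMO_stmt`, `V3.TDE_stmt`, `V3.THU_stmt`, .. of Pool/Agent/helper54/V3/SpecT.lean. Auxiliary lemmas are prefixed `XX_`. No `sorry`, no double quotes in comments.
`it f j z = (fun z => f.eval z)^[j] z`; `GR.fp n c = X ^ n + C c`. Below `g z = f^k z - z`.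
-/

set_option autoImplicit false

open Complex Metric Set Filter Topology MeasureTheory
open V3S (UF)
open WP
open Pool.Agent.helper16.Multibrot

noncomputable section

namespace WPA

/-- ITB: basic facts about iterates (compare `XPD.DIT`, module DIT of project xp:, Pool/Agent/helper8/XP/DIT.lean).
PROOF. `Function.iterate_add_apply`, induction; polynomial: `f.comp^[j] X` of degree `natDegree ^ j`. Injectivity: `it f k = it f (k - j) ∘ it f j`. -/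
def ITB_stmt : Prop := ∀ f : Polynomial ℂ, (∀ z, it f 0 z = z) ∧ (∀ z, it f 1 z = f.eval z) ∧
  (∀ (i j : ℕ) (z : ℂ), it f (i + j) z = it f i (it f j z)) ∧ (∀ j, Differentiable ℂ (it f j)) ∧
  (∀ (i j : ℕ) (z : ℂ), deriv (it f (i + j)) z = deriv (it f i) (it f j z) * deriv (it f j) z) ∧
  (∀ z, deriv (it f 0) z = 1) ∧
  (∀ j, ∃ Q : Polynomial ℂ, Q.natDegree = f.natDegree ^ j ∧ ∀ z, it f j z = Q.eval z) ∧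
  (∀ (S : Set ℂ) (j k : ℕ), j ≤ k → InjOn (it f k) S → InjOn (it f j) S)

/-- ESC: escape and the critical point `0`.
PROOF. `‖z ^ n + c‖ ≥ ‖z‖² - 2 ≥ 3‖z‖` for `‖z‖ ≥ 4`, iterate. `(z^n + c)^[j]` takes the same value at `z` and `ω z` (`ω^n = 1`, `ω ≠ 1`, e.g. `MPS.om n`), so it is not injective on a ball which contains `0`: if `s > ‖w‖` then `0 ∈ ball w s`, small `z ≠ 0` and `ω z` are in it. -/
def ESC_stmt : Prop := ∀ (n : ℕ) (c : ℂ), 2 ≤ n → ‖c‖ ≤ 2 →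
  (GR.fp n c).natDegree = n ∧ (∀ (j : ℕ) (z : ℂ), it (GR.fp n c) j z = (fun z : ℂ => z ^ n + c)^[j] z) ∧
  (∀ (z : ℂ) (j : ℕ), 4 ≤ ‖z‖ → 1 ≤ j → 3 * ‖z‖ ≤ ‖it (GR.fp n c) j z‖) ∧
  ∀ (k : ℕ) (w : ℂ) (s : ℝ), 1 ≤ k → InjOn (it (GR.fp n c) k) (ball w s) → s ≤ ‖w‖

/-- WDS: the hypothesis `WD` holds away from `H_n`. Uses `V3W.FW_stmt` (import Pool.Agent.helper36.V3.SpecW).
PROOF. `δ = min δ_FW 1`. If `f^k z = z`, `k ≥ 1`, let `p` = minimal period, `k = p m`, `m ≥ 1`: `(f^k)'(z) = ((f^p)'(z))^m` (chain rule, `f^p z = z`), `‖(f^p)'(z)‖ ≥ 1 + δ ≥ 1`. -/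
def WDS_stmt : Prop := ∀ n : ℕ, 2 ≤ n → ∀ r > (0 : ℝ), ∃ δ > (0 : ℝ), δ ≤ 1 ∧ ∀ c : ℂ,
  Disjoint (ball c r) (hyperbolic n) → WD δ (GR.fp n c)

/-- RIG: rigidity [W+, 1]. Uses `V3.KO2_stmt`, `V3.TMO_stmt`, `V3.TDE_stmt`, `V3.THU_stmt`.
PROOF. Suppose it fails: for every `m` a map `F m` with `ε = 1/(m+1)` for which the conclusion fails. `‖F m x‖ ≤ ‖F m 0‖ + C‖(F m)' 0‖ ≤ C'` on `closedBall 0 (1 - η')` (KO2 for `(F m - F m 0)/(F m)' 0`; `(F m)' 0 ≠ 0` as `δ/10 < 1`). TMO: a limit `F∞` along `UF` on `ball 0 1`, `F∞ 0 = 0`,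
`‖F∞' 0 - 1‖ ≤ δ/10` (TDE). If `F∞ ≠ id` somewhere on the ball: THU for `F m - id`: for every small `ε'` eventually a fixed point `x m ∈ ball 0 ε'` of `F m`, and `‖(F m)'(x m)‖ ≤ 1 + δ/10 + small < 1 + δ` (locally uniform convergence of the derivatives, continuity of `F∞'` at `0`): contradiction. So `F∞ = id`, `F m → id`, `(F m)' → 1`
uniformly on `closedBall 0 (1 - η)`; a fixed point `x` there has `‖(F m)' x‖ < 1 + δ`: contradiction to the hypothesis. So the conclusion holds eventually. -/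
def RIG_stmt : Prop := ∀ δ : ℝ, 0 < δ → δ ≤ 1 → ∀ η : ℝ, 0 < η → η < 1 → ∃ ε > (0 : ℝ), ∀ F : ℂ → ℂ,
  DifferentiableOn ℂ F (ball 0 1) → InjOn F (ball 0 1) → ‖F 0‖ ≤ ε → ‖deriv F 0 - 1‖ ≤ δ / 10 →
  (∀ x ∈ ball (0 : ℂ) 1, F x = x → 1 + δ ≤ ‖deriv F x‖) →
  ∀ x ∈ ball (0 : ℂ) (1 - η), ‖F x - x‖ ≤ η ∧ F x ≠ x ∧ ‖deriv F x - 1‖ ≤ η

/-- HRN: Harnack.
PROOF. `G = exp L` on the ball (`DifferentiableOn` of a logarithm: `exists_lift_exp`-type lemma used in Pool/Agent/helper54/CR/Landau.lean, or `MPS.LR`-like; `L = log(G a) + ∫ G'/G` along radii), `u = log (‖G‖/m) = re L - log m ≥ 0` is harmonic, `u a = log 2`; with `φ = (L - L a)/(L - log m + conj (L a - log m))`-Schwarz as in `XPP.HAK_stmt`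
(Pool/Agent/helper74/XP/SpecR.lean, proved), or: HAK for `ρ = (1+τ) G/m`, `τ → 0`, with `c = a`: `log ‖G x‖/m ≤ 3 log ‖G a‖/m` only gives `8 m`; so do the sharper radius: `‖φ x‖ ≤ ‖x-a‖/R ≤ 1/4` gives `u x ≤ (5/3) u a`, `‖G x‖ ≤ 2^(5/3) m ≤ 4 m`. Derivative: Cauchy's estimate on the circle of radius `R/8`: `4 m/(R/8)`. -/
def HRN_stmt : Prop := ∀ (G : ℂ → ℂ) (a : ℂ) (R m : ℝ), 0 < R → 0 < m → DifferentiableOn ℂ G (ball a R) →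
  (∀ x ∈ ball a R, m ≤ ‖G x‖) → ‖G a‖ = 2 * m →
  (∀ x ∈ ball a (R / 4), ‖G x‖ ≤ 4 * m) ∧ ∀ x ∈ ball a (R / 8), ‖deriv G x‖ ≤ 32 * m / R

/-- RHO: the univalence radius. Uses ESC, ITB.
PROOF. The set `{s | 0 ≤ s ∧ InjOn ..}` contains `0` (empty ball), is bounded by `‖w‖` (ESC), downward closed; `InjOn` on the ball of radius `sSup` (two points of the open ball are in a smaller ball). Lipschitz: `ball w' (s - ‖w - w'‖) ⊆ ball w s`. Positive: `f^k` is injective near `w` if the derivative does not vanish (`HasStrictDerivAt.. ` local inverse).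
Negative `s` in the second claim: `rh ≥ 0`. Last: if injective on `ball w (2 rh)` then `2 rh ≤ rh`. -/
def RHO_stmt : Prop := ∀ (n : ℕ) (c : ℂ) (k : ℕ), 2 ≤ n → ‖c‖ ≤ 2 → 1 ≤ k →
  (∀ w, 0 ≤ rh (GR.fp n c) k w ∧ rh (GR.fp n c) k w ≤ ‖w‖ ∧
    InjOn (it (GR.fp n c) k) (ball w (rh (GR.fp n c) k w))) ∧
  (∀ (w : ℂ) (s : ℝ), InjOn (it (GR.fp n c) k) (ball w s) → s ≤ rh (GR.fp n c) k w) ∧
  (∀ w w' : ℂ, |rh (GR.fp n c) k w - rh (GR.fp n c) k w'| ≤ ‖w - w'‖) ∧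
  (∀ w, deriv (it (GR.fp n c) k) w ≠ 0 → 0 < rh (GR.fp n c) k w) ∧
  (∀ w, 0 < rh (GR.fp n c) k w → ¬ InjOn (it (GR.fp n c) k) (ball w (2 * rh (GR.fp n c) k w)))

/-- CHO: the choice of `(w, k)` [W+, 2]. Uses RHO, ESC, ITB.
PROOF. `k` minimal (`Nat.find`). `NN k` is closed (`rh` is continuous by RHO, `it`, `deriv it` are continuous) and bounded: if `‖w‖ ≥ 4` then `‖f^k w - w‖ ≥ 2‖w‖ ≥ 2 rh > ε₁ rh` unless `rh = 0`, `w = 0` (ESC). On `NN k` the derivative is `≠ 0` (`δ/10 < 1`), so `rh > 0` (RHO) and `‖f^k w - w‖/rh` is continuous on the compact set: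
a minimum. `f^k w ≠ w`: otherwise `1 + δ ≤ ‖(f^k)' w‖ ≤ 1 + δ/10`. -/
def CHO_stmt : Prop := ∀ (n : ℕ) (c : ℂ) (δ ε₁ : ℝ), 2 ≤ n → ‖c‖ ≤ 2 → 0 < δ → δ ≤ 1 → 0 < ε₁ → ε₁ ≤ 1 →
  WD δ (GR.fp n c) → (∃ k, 1 ≤ k ∧ (NN (GR.fp n c) δ ε₁ k).Nonempty) → ∃ (k : ℕ) (w : ℂ), 1 ≤ k ∧
  w ∈ NN (GR.fp n c) δ ε₁ k ∧ 0 < rh (GR.fp n c) k w ∧ it (GR.fp n c) k w ≠ w ∧
  (∀ m, 1 ≤ m → m < k → NN (GR.fp n c) δ ε₁ m = ∅) ∧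
  ∀ w' ∈ NN (GR.fp n c) δ ε₁ k, ‖it (GR.fp n c) k w - w‖ * rh (GR.fp n c) k w' ≤
    ‖it (GR.fp n c) k w' - w'‖ * rh (GR.fp n c) k w

/-- NFO: the normal form (2.1) of [W+, 2]. Uses RIG, HRN, CHO, RHO, ITB.
PROOF. `ε₂ ≤ 1` the `ε` of RIG for `δ`, `η = min (δ/20) (1/4)`. CHO: `k, w`; `ρ = rh`, `ε = ‖f^k w - w‖/ρ ∈ (0, ε₁]`. `F x = (f^k(w + ρ x) - w)/ρ` on `ball 0 1`: injective (RHO), `‖F 0‖ = ε`, `F' x = (f^k)'(w + ρ x)`, its fixed points are fixed points of `f^k` (`WD`). RIG: for `z ∈ ball w (3ρ/4)`: `f^k z ≠ z`, `‖(f^k)' z - 1‖ ≤ δ/10`.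
For `z ∈ ball w (ρ/2)`: `rh z ≥ ρ/2` (Lipschitz). If `‖g z‖ ≤ ε₁ rh z` then `z ∈ NN`, so `‖g z‖ ≥ ε rh z ≥ ερ/2`; otherwise `‖g z‖ > ε₁ ρ/2 ≥ ερ/2`. HRN (`a = w`, `R = ρ/2`, `m = ερ/2`): `lo, hi, de` (`32 (ερ/2)/(ρ/2) = 32 ε`). `maxi`: RHO. `mn`: if `‖f^m z - z‖ ≤ ε₁ s ≤ ε₁ rh m z` (RHO) then `z ∈ NN m = ∅`. -/
def NFO_stmt : Prop := ∀ δ : ℝ, 0 < δ → δ ≤ 1 → ∃ ε₂ > (0 : ℝ), ε₂ ≤ 1 ∧ ∀ ε₁ : ℝ, 0 < ε₁ → ε₁ ≤ ε₂ →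
  ∀ (n : ℕ) (c : ℂ), 2 ≤ n → ‖c‖ ≤ 2 → WD δ (GR.fp n c) →
  (∃ k, 1 ≤ k ∧ (NN (GR.fp n c) δ ε₁ k).Nonempty) → ∃ (ε : ℝ) (k : ℕ) (w : ℂ) (ρ : ℝ), Bs (GR.fp n c) δ ε₁ ε k w ρ

/-- LIN: linearisation of an injective function. Uses `V3.KO0_stmt`, `V3.KO1_stmt`, `V3.KO3_stmt`.
PROOF. KO3 (`η = 1/2`) on `ball x (ρ/2) ⊆ ball w ρ`, `x ∈ ball w (ρ/2)`: `‖h'(ξ) - h'(x)‖ ≤ C (‖ξ - x‖/(ρ/2)) ‖h' x‖` for `‖ξ - x‖ < ρ/4`; integrate along the segment (mean value inequality for `ξ ↦ h ξ - h'(x) ξ` on `ball x (ρ/4)`). Second claim: KO1 on `ball x (ρ/4) ⊆ ball w (ρ/2)`: `ball (h x) (ρ‖h' x‖/(4 C))` is in the image, does not contain `b`.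
Third: KO0. Fourth: KO3 with centre `w` (`h' x` against `h' w`). -/
def LIN_stmt : Prop := ∃ C : ℝ, 1 ≤ C ∧ ∀ (h : ℂ → ℂ) (w : ℂ) (ρ : ℝ), 0 < ρ → DifferentiableOn ℂ h (ball w ρ) →
  InjOn h (ball w ρ) →
  (∀ x ∈ ball w (ρ / 2), ∀ g : ℂ, ‖g‖ < ρ / 4 → ‖h (x + g) - h x - deriv h x * g‖ ≤ C * ‖g‖ ^ 2 / ρ * ‖deriv h x‖) ∧
  (∀ x ∈ ball w (ρ / 4), ∀ b : ℂ, b ∉ h '' ball w (ρ / 2) → ρ * ‖deriv h x‖ ≤ C * ‖h x - b‖) ∧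
  (∀ x ∈ ball w ρ, deriv h x ≠ 0) ∧
  (∀ x ∈ ball w (ρ / 2), ∀ x' ∈ ball w (ρ / 2), ‖deriv h x‖ ≤ C * ‖deriv h x'‖)

/-- POL: `1/p` is a uniform limit of polynomials on `K` [W+, (3.2)].
PROOF. All roots are simple. Partial fractions: `1 = ∑_a p z/((z - a) p' a)` (`Lagrange.sum_basis` for the set of the roots; the polynomial `p/((X - a) p'(a))` is the Lagrange basis element), so `1/p z = ∑_a 1/(p' a (z - a))` on `K`. For a root `a`: `p = (X - a) P`, `P a = p' a`, `‖P z/P a‖ ≤ 1/2` on `K`. `1 - (P/P a)^M` vanishes at `a`, so it is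
`(X - a) Q_M` and `‖1/(z - a) - Q_M z‖ = ‖P z/P a‖^M/‖z - a‖ ≤ 2^(-M)/‖z - a‖`, `‖z - a‖ ≥ d > 0` on the compact set `K`. -/
def POL_stmt : Prop := ∀ (p : Polynomial ℂ) (K : Set ℂ) (δ : ℝ), 0 < δ → 1 ≤ p.natDegree →
  (∀ a, p.eval a = 0 → δ ≤ ‖p.derivative.eval a‖) → IsCompact K →
  (∀ z ∈ K, ∀ a, p.eval a = 0 → z ≠ a ∧ ‖p.eval z‖ ≤ δ / 2 * ‖z - a‖) →
  ∀ ε > (0 : ℝ), ∃ Q : Polynomial ℂ, ∀ z ∈ K, ‖1 / p.eval z - Q.eval z‖ ≤ ε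

/-- CHN: the closed chain [W+, 3]. Uses ITB.
PROOF. Let `V` be a polynomial primitive of `Q`. The integrand is the derivative of `s ↦ V (f^q (y + s v))`, so with `V_q = V (f^q y)` the first sum is `∑_{q<k} (V_{q+m} - V_q)` (`f^q (f^m y) = f^(q+m) y`), the second `∑_{q<m} (V_{q+k} - V_q)`; both are `∑_{q<k+m} V_q - ∑_{q<k} V_q - ∑_{q<m} V_q`. -/
def CHN_stmt : Prop := ∀ (f Q : Polynomial ℂ) (k m : ℕ) (y : ℂ),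
  ∑ q ∈ Finset.range k, (∫ s in (0 : ℝ)..1, Q.eval (it f q (y + s * (it f m y - y))) *
    (deriv (it f q) (y + s * (it f m y - y)) * (it f m y - y))) =
  ∑ q ∈ Finset.range m, (∫ s in (0 : ℝ)..1, Q.eval (it f q (y + s * (it f k y - y))) *
    (deriv (it f q) (y + s * (it f k y - y)) * (it f k y - y)))

/-- the integral of `dz/(f^k z - z)` over the image under `f^q` of the segment `[y, y + v]`. -/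
def cI (f : Polynomial ℂ) (k q : ℕ) (y v : ℂ) : ℂ :=
  ∫ s in (0 : ℝ)..1, 1 / (it f q (it f k (y + s * v)) - it f q (y + s * v)) * (deriv (it f q) (y + s * v) * v)

/-- the situation: a return `f^m y` of a point `y` near `w`. -/
structure Rt (f : Polynomial ℂ) (δ ε₁ ε : ℝ) (k : ℕ) (w : ℂ) (ρ : ℝ) (m : ℕ) (y : ℂ) : Prop where
  bs : Bs f δ ε₁ ε k w ρ
  m1 : 1 ≤ m
  ml : m < k
  y1 : y ∈ ball w (ρ / 200)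
  y2 : it f m y ∈ ball w (ρ / 200)

/-- CI0: the chain identity [W+, (3.2)]. Uses POL, CHN, LIN, ITB.
PROOF. `p` = polynomial of `f^k z - z` (degree `≥ 2`), `‖p'(a)‖ = ‖(f^k)'(a) - 1‖ ≥ δ` at its roots (`WD`). `K` = union of the images of `[0,1]` under the (continuous) curves `s ↦ f^q (y + s v)`, `q < k`, `v = f^m y - y`, and `s ↦ f^q (y + s u)`, `q < m`, `u = f^k y - y` (compact). All points `x = y + s v`, `y + s u` are in `ball w (ρ/32)`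
(convexity; `‖u‖ ≤ 2ερ`). Let `z = h x`, `h = f^q`, injective on `ball w ρ` (`q ≤ k`, ITB). LIN for `h` on `ball w (ρ/8)`: `p z = h (f^k x) - h x` (the iterates commute), so `‖p z‖ ≤ 2 ‖h' x‖ ‖g x‖ ≤ 4ερ‖h' x‖`. A root `a` is not in `h '' ball w (ρ/16)`: `h x' = a` gives `h (f^k x') = f^k a = a = h x'`, `f^k x' ∈ ball w ρ`, so `f^k x' = x'`: contradiction to
`nf`. So `(ρ/8) ‖h' x‖ ≤ C ‖z - a‖`, `‖p z‖ ≤ 32 C ε ‖z - a‖ ≤ (δ/2) ‖z - a‖` for `ε₃ = δ/(64 C)`; `z ≠ a`. POL: `Q` with `‖1/p - Q‖ ≤ ε'` on `K`; CHN for `Q`; the integrals differ by `≤ ε' ∑ length`; let `ε' → 0` (all integrands are continuous in `s`). -/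
def CI0_stmt : Prop := ∀ δ : ℝ, 0 < δ → δ ≤ 1 → ∃ ε₃ > (0 : ℝ), ∀ (f : Polynomial ℂ) (ε₁ ε : ℝ) (k : ℕ) (w : ℂ) (ρ : ℝ)
  (m : ℕ) (y : ℂ), 2 ≤ f.natDegree → WD δ f → Rt f δ ε₁ ε k w ρ m y → ε₁ ≤ ε₃ →
  ∑ q ∈ Finset.range k, cI f k q y (it f m y - y) = ∑ q ∈ Finset.range m, cI f k q y (it f k y - y)

/-- CI1: each of the integrals [W+, (3.1)]. Uses LIN, ITB.
PROOF. `q < k`, `h = f^q`, `x = y + s v ∈ ball w (ρ/32)` (`v` = either vector): LIN with `g = g x = f^k x - x`, `ερ/2 ≤ ‖g‖ ≤ 2ερ < ρ/4`: `h (x + g) - h x = h' x · g (1 + θ)`, `‖θ‖ ≤ C ‖g‖/ρ ≤ 2Cε ≤ 1/2`. So the integrand is `v/(g x (1 + θ))`, and it differs from `v/g x` (the integrand for `q = 0`) by `≤ 2‖θ‖‖v‖/‖g‖ ≤ 2 C ‖v‖/ρ`.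
Third: `v = f^m y - y`, `g y = u`: `v/g x - v/g y = (v/u) (g y - g x)/g x`, `‖g x - g y‖ ≤ 32 ε‖v‖` (`de`, mean value inequality), `‖g x‖ ≥ ερ/2`: the difference is `≤ ‖v/u‖ · 64 ‖v‖/ρ`. Second: `v = u`: the same with `u/u = 1`: `‖cI 0 - 1‖ ≤ 64‖u‖/ρ ≤ 128 ε`. -/
def CI1_stmt : Prop := ∃ C : ℝ, 1 ≤ C ∧ ∀ (f : Polynomial ℂ) (δ ε₁ ε : ℝ) (k : ℕ) (w : ℂ) (ρ : ℝ)
  (m : ℕ) (y : ℂ), Rt f δ ε₁ ε k w ρ m y → C * ε ≤ 1 →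
  (∀ q < k, ‖cI f k q y (it f m y - y) - cI f k 0 y (it f m y - y)‖ ≤ C * ‖it f m y - y‖ / ρ ∧
    ‖cI f k q y (it f k y - y) - 1‖ ≤ C * ε) ∧
  ‖cI f k 0 y (it f m y - y) - (it f m y - y) / (it f k y - y)‖ ≤
    C * (‖it f m y - y‖ / ρ) * ‖(it f m y - y) / (it f k y - y)‖

/-- DSL: the displacement of a return [W+, (3.3)]. Uses CI0, CI1.
PROOF. `v = f^m y - y`, `u = f^k y - y ≠ 0`, `D = ‖v‖/ρ`, `t = cI f k 0 y v`, `c₁ = min (1/(8C)) (1/200)`, so `D ≤ 2c₁ ≤ 1/(4C)`. CI0 and the sum of the first claims of CI1: `‖k t - m‖ ≤ k C D + m C ε`, so `‖t - m/k‖ ≤ C (D + ε)` (`m ≤ k`). Third claim of CI1: `‖v/u‖ (1 - C D) ≤ ‖t‖ ≤ 1 + C (D + ε)`, so `‖v/u‖ ≤ (4/3)(1 + 1/4 + 1/4) = 2` (`Cε ≤ 1/4`) and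
`D = ‖v/u‖‖u‖/ρ ≤ 4ε` (`hi`). Now `‖v/u‖ ≤ (m/k + 5Cε)/(1 - 4Cε) ≤ (m/k + 5Cε)(1 + 8Cε) ≤ m/k + 20 C ε` (`Cε ≤ 1/8`). -/
def DSL_stmt : Prop := ∃ c₁ > (0 : ℝ), ∃ C : ℝ, 1 ≤ C ∧ c₁ ≤ 1 / 200 ∧ ∀ δ : ℝ, 0 < δ → δ ≤ 1 → ∃ ε₃ > (0 : ℝ),
  ∀ (f : Polynomial ℂ) (ε₁ ε : ℝ) (k : ℕ) (w : ℂ) (ρ : ℝ) (m : ℕ) (y : ℂ), 2 ≤ f.natDegree → WD δ f →
  Rt f δ ε₁ ε k w ρ m y → ε₁ ≤ ε₃ → y ∈ ball w (c₁ * ρ) → it f m y ∈ ball w (c₁ * ρ) →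
  ‖it f m y - y‖ ≤ ((m : ℝ) / k + C * ε) * ‖it f k y - y‖

/-- FXP: a fixed point of an almost affine map. Uses `V3.KO3_stmt`, `V3.KO0_stmt`.
PROOF. Rescale to `y = 0`, `s = 1`. `E x = h x - h 0 - h'(0) x`, KO3 (`η = 1/2`): `‖h' x - h' 0‖ ≤ C‖x‖‖h' 0‖ ≤ 2C‖x‖`, so `E` is Lipschitz with constant `2Cσ` on `closedBall 0 σ` (`σ < 1/2`). `T x = (h 0 + E x)/(1 - h' 0)`: with `σ = δ/(160 C)`, `ε₀ = σ δ/80` it is a contraction of `closedBall 0 σ` (`‖1 - h' 0‖ ≥ δ/40`). Its fixed point satisfies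
`h x = x`, `‖h' x‖ ≤ ‖h' 0‖(1 + Cσ) ≤ (1 + δ/4)(1 + δ/160) < 1 + δ`. (Or a compactness argument with `V3.THU_stmt`.) -/
def FXP_stmt : Prop := ∀ δ : ℝ, 0 < δ → δ ≤ 1 → ∃ ε₀ > (0 : ℝ), ∀ (h : ℂ → ℂ) (y : ℂ) (s : ℝ), 0 < s →
  DifferentiableOn ℂ h (ball y s) → InjOn h (ball y s) → ‖h y - y‖ ≤ ε₀ * s → ‖deriv h y‖ ≤ 1 + δ / 4 →
  δ / 40 ≤ ‖deriv h y - 1‖ → ∃ x ∈ ball y s, h x = x ∧ ‖deriv h x‖ < 1 + δ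

/-- DRV: the derivative of a return [W+, (3.5)]. Uses FXP, LIN, `V3.KO1_stmt`, ITB.
PROOF. `la = (f^m)'(y)`, `v, u` as above. Suppose `‖la - 1‖ > δ/10`. (i) `‖la‖ ≤ 1 + δ/4`: FXP for `h = f^m` on `ball y (ρ/2)` (injective: `ball y (ρ/2) ⊆ ball w ρ`), `‖v‖ ≤ 2‖u‖ ≤ 4ερ`: a fixed point of `f^m` with multiplier of modulus `< 1 + δ`: contradiction to `WD`. (ii) `‖la‖ > 1 + δ/4`: `h = f^(k-m)` at `y'' = f^m y`: `h'(y'') la = (f^k)'(y)`, so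
`‖h' y''‖ ≤ (1 + 32ε)/(1 + δ/4) ≤ 1`, `‖h' y'' - 1‖ ≥ 1 - ‖h' y''‖ ≥ δ/40` for `ε` small against `δ`. `h` is injective on `f^m (ball y (ρ/2)) ⊇ ball y'' (ρ‖la‖/(2K)) ⊇ ball y'' (ρ/(2K))` (KO1; `h ∘ f^m = f^k` is injective on `ball w ρ`). `‖h y'' - y''‖ = ‖f^k y - f^m y‖ ≤ ‖u‖ + ‖v‖ ≤ 3‖u‖ ≤ 6ερ`. FXP and `WD`. -/
def DRV_stmt : Prop := ∀ δ : ℝ, 0 < δ → δ ≤ 1 → ∃ ε₄ > (0 : ℝ), ∀ (f : Polynomial ℂ) (ε₁ ε : ℝ) (k : ℕ) (w : ℂ)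
  (ρ : ℝ) (m : ℕ) (y : ℂ), WD δ f → Rt f δ ε₁ ε k w ρ m y → ε₁ ≤ ε₄ → ‖it f m y - y‖ ≤ 2 * ‖it f k y - y‖ →
  ‖deriv (it f m) y - 1‖ ≤ δ / 10

/-- DJC: the cells are disjoint [W+, 3]. Uses DSL, DRV, ITB.
PROOF. `c₀ = c₁/2`. First: there are no `m, y` with `Rt`, `y, f^m y ∈ ball w (c₁ ρ)` and `2 m ≤ k`: DSL: `‖v‖ ≤ (1/2 + Cε)‖u‖`; DRV; `mn` with `s = ρ (1 - c₁)` (`f^m` is injective on `ball y s ⊆ ball w ρ`): `ε₁ s < ‖v‖`, but `‖u‖ = ‖g y‖ ≤ ‖g w‖ + 32 ε · ρ/200 ≤ 1.16 ερ` (`ctr`, `de`), so `‖v‖ ≤ 0.6 ε₁ρ < 0.995 ε₁ρ` (`Cε ≤ 1/100`).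
Now let `f^i x = f^j x'`, `i < j < k`, `x, x' ∈ ball w (c₀ρ)`, `m = j - i`, `y = f^k x' = f^(k-j)(f^j x') = f^(k-j+i) x = f^(k-m) x`, so `f^m y = f^k x`; both in `ball w (c₁ρ)` (`hi`: displacement `≤ 2ερ`, `ε ≤ c₁/8`). If `2m ≤ k`: contradiction. Otherwise use `y'' = f^m y`, `m'' = k - m`: `f^(k-m)(f^m y) = f^k y`, which is in `ball w (c₁ρ)` as `x', y` have
displacement `≤ 2ερ`. -/
def DJC_stmt : Prop := ∃ c₀ > (0 : ℝ), c₀ ≤ 1 / 400 ∧ ∀ δ : ℝ, 0 < δ → δ ≤ 1 → ∃ ε₅ > (0 : ℝ), ∀ (f : Polynomial ℂ) (ε₁ ε : ℝ)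
  (k : ℕ) (w : ℂ) (ρ : ℝ), 2 ≤ f.natDegree → WD δ f → Bs f δ ε₁ ε k w ρ → ε₁ ≤ ε₅ →
  ∀ i j, i < j → j < k → Disjoint (it f i '' ball w (c₀ * ρ)) (it f j '' ball w (c₀ * ρ))

/-- SMC: change to the smallest cell [W+, 4, 6]. Uses LIN, `V3.KO1_stmt`, `V3.KO3_stmt`, ITB.
PROOF. `j₀ < k` with `‖(f^j₀)'(w)‖` minimal, `a = (f^j₀)'(w)`, `0 < ‖a‖ ≤ 1`, `w' = f^j₀ w`, `ρ' = ‖a‖ρ c₀/(4K)`: `ball w' ρ' ⊆ f^j₀ '' ball w (c₀ρ/2)` (KO1, radius `c₀ρ/2`, `K` its constant, also `≥` the constants of LIN, KO3). Let `z = f^j₀ x`, `x ∈ ball w (c₀ρ/2)`: `f^k z = f^j₀ (f^k x)`, `‖f^k x - x‖ ≤ 2ερ`.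
`inj`: `f^j₀` is injective on `ball w ρ`, `f^k` on `ball w ρ`. `near`: `‖f^j₀ (f^k x) - f^j₀ x‖ ≤ K² ‖a‖ 2ερ ≤ C' ε ρ'`. `big`: `(f^j)'(w') a = (f^(j+j₀))'(w)`; if `j + j₀ < k`: `≥ ‖a‖`; else it is `(f^(j+j₀-k))'(f^k w) (f^k)'(w)`, `j + j₀ - k ≤ j₀ < k`, of modulus `≥ ‖a‖ (1 - K·4ε)(1 - 32ε) ≥ ‖a‖/2` (LIN for the derivative: `‖h'(f^k w) - h' w‖ ≤ K (2ερ/ρ)·2 ‖h' w‖`, KO3).
`dj` (ball of radius `ρ'/C ≤ ρ'`): a point of `f^i (ball w' ρ')` is `f^(i+j₀) x`; if `i + j₀ ≥ k` it is `f^(i+j₀-k)(f^k x)`, `f^k x ∈ ball w (c₀ρ)`; `i ↦ (i + j₀) mod k` is injective. `fail`: suppose `f^k` is injective on `ball w' (Cρ')` and maps `ball w' (Cρ'/2)` into `ball w' (Cρ')`. `u = f^(k-j₀)` is injective on `ball w' (Cρ')` (`f^k = f^j₀ ∘ u`), `u w' = f^k w`,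
`u'(w') = (f^k)'(w)/a`, modulus `≥ 1/(2‖a‖)`. KO1: `u (ball w' (Cρ'/2)) ⊇ ball (f^k w) (Cρ'/(4K‖a‖)) ⊇ ball w (2ρ)` for `C = 64 K²/c₀`. For `p = u z`, `p' = u z'` in `ball w (2ρ)` with `f^k p = f^k p'`: `u (f^k z) = f^k (u z) = f^k (u z') = u (f^k z')`, so `f^k z = f^k z'`, `z = z'`: so `f^k` is injective on `ball w (2ρ)`: contradiction to `maxi`. -/
def SMC_stmt : Prop := ∀ c₀ : ℝ, 0 < c₀ → c₀ ≤ 1 / 400 → ∃ C : ℝ, 1 ≤ C ∧ ∀ ε' > (0 : ℝ), ∃ ε₆ > (0 : ℝ),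
  ∀ (f : Polynomial ℂ) (δ ε₁ ε : ℝ) (k : ℕ) (w : ℂ) (ρ : ℝ), Bs f δ ε₁ ε k w ρ → ε₁ ≤ ε₆ →
  (∀ i j, i < j → j < k → Disjoint (it f i '' ball w (c₀ * ρ)) (it f j '' ball w (c₀ * ρ))) →
  ∃ (w' : ℂ) (ρ' : ℝ), Geo C ε' f k w' ρ'

/-- GEO: the geometric part. Uses NFO, DJC, SMC, RHO, ESC.
PROOF. `c₀` from DJC, `C` from SMC. Given `δ, ε`: `ε₁ = min` of `ε₂, ε₅, ε₆`, `ε₀ = min ε₁ (δ/10)`. The given pair `(w, k, ρ)`: `ρ ≤ rh` (RHO), so `w ∈ NN k`. NFO: `Bs` with other `k, w, ρ`; DJC; SMC. -/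
def GEO_stmt : Prop := WP.GEO_stmt

end WPA
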