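import Pool.Agent.helper54.XP.SpecS

/-!
# Project wp: (MP_af9036_an): part S: the chain step for a general quadratic differential `B`, poles not forward invariant

Copy of Pool/Agent/helper54/XP/SpecS.lean (project xp:) without the hypothesis `f(P) ⊆ P`: the systems of levels avoid the poles by definition (`LevSys.av`), and `SU3.far` says that
the chart avoids `f^q(P)` for `q ≤ k + 1`. All modules are proved (helper52), see AllS.lean.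

RULES. File `Pool/Agent/<seat>/XP/XX.lean`: `import Pool.Agent.helper54.XP.SpecS`, `set_option autoImplicit false`,
`open Complex Metric Set Filter Topology MeasureTheory`, `open PPS (fd fdd pre TT CV Br cn)`, `open MPS (PsiM)`, `noncomputable section`, `namespace WPS`, `theorem XX (h : YY_stmt) ... : XX_stmt`.
Hypotheses may be: other statements of this file (no circles), and all statements of `PPS`, `MPS` (proved). Auxiliary lemmas prefixed `XX_`. No `sorry`, no double quotes in comments.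
EVERY MODULE IS A COPY of an existing file (named in the docstring): replace `b g` by `B` (in `IsNat`, `LevSys`, `SU3`, `H3` by `P B`), `(b g : ZMod k → ℂ)` by `(P : Set ℂ) (B : ℂ → ℂ)`,
`BB b g z` by `B z`, drop `[NeZero k]`; `∀ j, z ≠ b j` is now `z ∉ P`.
-/

set_option autoImplicit false

open Complex Metric Set Filter Topology MeasureTheory
open PPS (fd fdd pre TT CV Br cn)
open MPS (PsiM)
open XPS (IsNat er Df dens brv tau lev d3 e3 eT)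

noncomputable section

namespace WPS

/-- `B` is an abstract differential: holomorphic off the finite set `P`. -/
structure AD (f : Polynomial ℂ) (P : Set ℂ) (B : ℂ → ℂ) : Prop where
  deg : 1 ≤ f.natDegree
  fin : P.Finite
  dif : DifferentiableOn ℂ B Pᶜ

/-- a system of levels `0..Q` over a natural map. -/
structure LevSys (f : Polynomial ℂ) (P : Set ℂ) (B : ℂ → ℂ) (G : ℕ → ℂ → ℂ) (Ω : Set ℂ) (Q : ℕ) : Prop where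
  nat0 : IsNat P B (G 0) Ω
  diff : ∀ q ≤ Q, DifferentiableOn ℂ (G q) Ω
  rel : ∀ q < Q, ∀ w ∈ Ω, f.eval (G (q + 1) w) = G q w ∧ fd f (G (q + 1) w) ≠ 0
  av : ∀ q ≤ Q, ∀ w ∈ Ω, G q w ∉ P ∧ ∀ y : ℂ, f.eval y = G q w → y ∉ P

/-! ## The general lemmas -/

/-- LEAX: avoidance of `P`, holomorphy (copy of helper36/PP/LEA.lean). -/
def LEAX_stmt : Prop := ∀ (f : Polynomial ℂ) (P : Set ℂ) (B : ℂ → ℂ) (G : ℕ → ℂ → ℂ)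
  (Ω : Set ℂ) (Q : ℕ), AD f P B → IsOpen Ω → LevSys f P B G Ω Q →
  (∀ q ≤ Q, ∀ w ∈ Ω, G q w ∉ P) ∧
  (∀ q ≤ Q, ∀ w ∈ Ω, ∀ y : ℂ, f.eval y = G q w → y ∉ P) ∧
  (∀ q ≤ Q, DifferentiableOn ℂ (tau B G q) Ω) ∧
  (∀ q < Q, ∀ w ∈ Ω, deriv (G q) w = fd f (G (q + 1) w) * deriv (G (q + 1)) w) ∧
  (∀ q ≤ Q, ∀ w ∈ Ω, deriv (G q) w ≠ 0)

/-- LEIX: the identities between the level functions (copy of helper36/PP/LEI.lean). -/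
def LEIX_stmt : Prop := ∀ (f : Polynomial ℂ) (P : Set ℂ) (B : ℂ → ℂ) (G : ℕ → ℂ → ℂ)
  (Ω : Set ℂ) (Q : ℕ), AD f P B → IsOpen Ω → LevSys f P B G Ω Q →
  (∀ w ∈ Ω, tau B G 0 w = 1) ∧
  (∀ q < Q, ∀ w ∈ Ω, G (q + 1) w ∈ pre f (G q w) ∧
    brv f B (G q) w (G (q + 1) w) = tau B G (q + 1) w) ∧
  (∀ q ≤ Q, ∀ w ∈ Ω, tau B G q w = ((pre f (G q w)).map (brv f B (G q) w)).sum +
    deriv (G q) w ^ 2 * er f B (G q w)) ∧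
  (∀ q ≤ Q, ∀ w ∈ Ω, Df f B (G q w) * ‖deriv (G q) w‖ ^ 2 =
    ((pre f (G q w)).map fun y => ‖brv f B (G q) w y‖).sum -
      ‖tau B G q w - deriv (G q) w ^ 2 * er f B (G q w)‖)

/-- MIX: measurability, positivity of the deficit (copy of helper69/PP/MI.lean; `B` is continuous on the open set `Pᶜ` and `P` is finite, so `B` is measurable). -/
def MIX_stmt : Prop := ∀ (f : Polynomial ℂ) (P : Set ℂ) (B : ℂ → ℂ), AD f P B →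
  Measurable B ∧ Measurable (TT f B) ∧ Measurable (er f B) ∧ Measurable (Df f B) ∧ ∀ z, 0 ≤ Df f B z

/-- LVX: the deficit inequalities (copy of helper36/PP/LV.lean). -/
def LVX_stmt : Prop := ∀ (f : Polynomial ℂ) (P : Set ℂ) (B : ℂ → ℂ) (G : ℕ → ℂ → ℂ)
  (Ω : Set ℂ) (Q : ℕ), AD f P B → IsOpen Ω → LevSys f P B G Ω Q →
  (∀ Q' ≤ Q, ∀ w ∈ Ω, (‖tau B G Q' w‖ - (tau B G Q' w).re) + ∑ q ∈ Finset.range Q',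
      (lev B G (q + 1) w - (tau B G q w - tau B G (q + 1) w).re) ≤
    ∑ q ∈ Finset.range Q', dens f B (G q) w) ∧
  (∀ Q' ≤ Q, ∀ w ∈ Ω,
    ((pre f (G Q' w)).map fun y => ‖brv f B (G Q') w y‖ - (brv f B (G Q') w y).re).sum ≤
      ∑ q ∈ Finset.range (Q' + 1), dens f B (G q) w) ∧
  (∀ (q : ℕ) (w : ℂ), 0 ≤ dens f B (G q) w ∧
    2 * (‖er f B (G q w)‖ * ‖deriv (G q) w‖ ^ 2) ≤ dens f B (G q) w) ∧
  (∀ q ≤ Q, ∀ w ∈ Ω, ‖tau B G q w - 1‖ ≤ ∑ p ∈ Finset.Icc 1 q, lev B G p w) ∧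
  (∀ q < Q, ∀ w ∈ Ω,
    (((pre f (G q w)).erase (G (q + 1) w)).map fun y => ‖brv f B (G q) w y‖).sum ≤
      ∑ q' ∈ Finset.range (q + 1), dens f B (G q') w + (tau B G q w - tau B G (q + 1) w).re +
        ‖er f B (G q w)‖ * ‖deriv (G q) w‖ ^ 2)

/-- LVG: the same for levels over an arbitrary map `G 0` (not natural), pointwise and without any hypothesis on `B`.
PROOF. Fix `w`. `deriv (G q) w = fd f (G (q+1) w) * deriv (G (q+1)) w` (chain rule; `f (G (q+1)) = G q` near `w`). So `τ_{q+1} = brv f B (G q) w (G (q+1) w)`, one of the terms of the sum over `pre f (G q w)` (PRB; `Multiset.cons_erase`). With `E = G_q'² er(G_q)`: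
`τ_q - τ_{q+1} = ∑_{others} brv + E`, `∑_{others} ‖brv‖ = Df‖G_q'‖² + ‖τ_q - E‖ - ‖τ_{q+1}‖`, so `lev (q+1) ≤ ∑_{others} ‖brv‖ + ‖E‖ ≤ Df‖G_q'‖² + 2‖E‖ + ‖τ_q‖ - ‖τ_{q+1}‖ = dens + ‖τ_q‖ - ‖τ_{q+1}‖`; add up. Compare the proof of LV (helper36/PP/LV.lean, LEI.lean).
Second claim: `‖τ_0 - τ_Q‖ ≤ ∑ lev` and `‖τ_0‖ = re (u τ_0)`, `re (u τ_Q) ≤ ‖τ_Q‖`. -/
def LVG_stmt : Prop := ∀ (f : Polynomial ℂ) (B : ℂ → ℂ) (G : ℕ → ℂ → ℂ) (Ω : Set ℂ) (Q : ℕ),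
  1 ≤ f.natDegree → IsOpen Ω → (∀ q ≤ Q, DifferentiableOn ℂ (G q) Ω) →
  (∀ q < Q, ∀ w ∈ Ω, f.eval (G (q + 1) w) = G q w ∧ fd f (G (q + 1) w) ≠ 0) → ∀ w ∈ Ω,
  (∑ q ∈ Finset.Icc 1 Q, lev B G q w ≤
    ∑ q ∈ Finset.range Q, dens f B (G q) w + ‖tau B G 0 w‖ - ‖tau B G Q w‖) ∧
  (∀ u : ℂ, ‖u‖ = 1 → u * tau B G 0 w = (‖tau B G 0 w‖ : ℂ) →
    ‖tau B G 0 w - tau B G Q w‖ - (u * (tau B G 0 w - tau B G Q w)).re ≤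
      ∑ q ∈ Finset.range Q, dens f B (G q) w)

/-- MAX: sum of the pulled back densities over a family of injective maps with images of multiplicity at most `M` (first half of helper95/PP/MA.lean with `MPS.MA_cov`, `MPS.MA_mult`, `MPS.MA_meas` of helper74/MP/MA.lean; for the second
claim use `2‖er‖ ≤ Df + 2‖er‖` (MIX)). -/
def MAX_stmt : Prop := ∀ (f : Polynomial ℂ) (P : Set ℂ) (B : ℂ → ℂ) (R E : ℝ), AD f P B →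
  ∫⁻ z in ball (0 : ℂ) R, ENNReal.ofReal (Df f B z + 2 * ‖er f B z‖) ≤ ENNReal.ofReal E →
  ∀ (Q M : ℕ) (Ω : ℕ → Set ℂ) (G : ℕ → ℂ → ℂ),
  (∀ q < Q, IsOpen (Ω q) ∧ DifferentiableOn ℂ (G q) (Ω q) ∧ InjOn (G q) (Ω q) ∧
    MapsTo (G q) (Ω q) (ball 0 R)) →
  (∀ z : ℂ, ∀ F : Finset ℕ, (∀ q ∈ F, q < Q ∧ z ∈ G q '' Ω q) → F.card ≤ M) →
  (∑ q ∈ Finset.range Q, ∫⁻ w in Ω q, ENNReal.ofReal (dens f B (G q) w) ≤ M * ENNReal.ofReal E) ∧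
  (∑ q ∈ Finset.range Q, ∫⁻ w in Ω q, ENNReal.ofReal (‖er f B (G q w)‖ * ‖deriv (G q) w‖ ^ 2) ≤
    M * ENNReal.ofReal E)

/-- EVTX: comparison of branches near a critical value (copy of helper36/PP/EVT.lean). -/
def EVTX_stmt : Prop := ∀ (n : ℕ) (f : Polynomial ℂ) (P : Set ℂ) (B : ℂ → ℂ) (G h : ℂ → ℂ)
  (a ws ys : ℂ) (r d ν : ℝ), 2 ≤ n → f.natDegree = n → AD f P B → 0 < d → d ≤ r → 0 ≤ ν →
  ‖ws - a‖ = r → DifferentiableOn ℂ G (ball ws d) → InjOn G (ball ws d) →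
  (∀ w ∈ ball ws d, G w ∉ P) → (∀ w ∈ ball ws d, ∀ y : ℂ, f.eval y = G w → y ∉ P) →
  DifferentiableOn ℂ h (ball a r) →
  (∀ w ∈ ball a r ∩ ball ws d, f.eval (h w) = G w ∧ fd f (h w) ≠ 0) → fd f ys = 0 →
  Tendsto h (𝓝[ball a r] ws) (𝓝 ys) →
  ∫⁻ w in ball ws d, ENNReal.ofReal
    ((pre f (G w)).map fun y => ‖brv f B G w y‖ - (brv f B G w y).re).sum ≤ ENNReal.ofReal ν →
  ∫⁻ w in ball ws d, ENNReal.ofReal (‖er f B (G w)‖ * ‖deriv G w‖ ^ 2) ≤ ENNReal.ofReal ν →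
  ∃ t : ℝ, d / 4 ^ n ≤ t ∧ t ≤ d ∧ ∀ w₀ : ℂ, w₀ = ws + ((t / (2 * r) : ℝ) : ℂ) * (a - ws) →
    ‖brv f B G w₀ (h w₀)‖ ≤ 4 ^ 21 * (‖deriv G w₀ ^ 2 * B (G w₀) - brv f B G w₀ (h w₀)‖ +
      100 * ν / t ^ 2)

/-- NPLX: path lifting through a natural map (copy of helper71/MP/NPL.lean). -/
def NPLX_stmt : Prop := ∀ (P : Set ℂ) (B : ℂ → ℂ) (χ G : ℂ → ℂ) (Ω Ω' : Set ℂ)
  (v₁ w₁ w₂ : ℂ) (r : ℝ), P.Finite → DifferentiableOn ℂ B Pᶜ → IsOpen Ω → IsOpen Ω' → IsNat P B χ Ω → ball v₁ r ⊆ Ω →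
  DifferentiableOn ℂ G Ω' → (∀ w ∈ Ω', G w ∉ P) → segment ℝ w₁ w₂ ⊆ Ω' → G w₁ = χ v₁ →
  (∫ t in (0 : ℝ)..1, ‖w₂ - w₁‖ * Real.sqrt ‖deriv G (w₁ + t * (w₂ - w₁)) ^ 2 *
    B (G (w₁ + t * (w₂ - w₁)))‖) < r →
  ∃ v₂ : ℂ, ‖v₂ - v₁‖ ≤ (∫ t in (0 : ℝ)..1, ‖w₂ - w₁‖ * Real.sqrt ‖deriv G (w₁ + t * (w₂ - w₁)) ^ 2 *
    B (G (w₁ + t * (w₂ - w₁)))‖) ∧ χ v₂ = G w₂

/-- NUX: uniqueness of natural maps along paths and on connected sets (copy of helper97/MP/NU.lean, helper59/MP/NL0.lean). -/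
def NUX_stmt : Prop := ∀ (P : Set ℂ) (B : ℂ → ℂ) (χ₁ χ₂ : ℂ → ℂ) (Ω₁ Ω₂ : Set ℂ)
  (w₁ w₂ : ℂ), P.Finite → DifferentiableOn ℂ B Pᶜ → IsOpen Ω₁ → IsOpen Ω₂ → IsNat P B χ₁ Ω₁ → IsNat P B χ₂ Ω₂ → w₁ ∈ Ω₁ → w₂ ∈ Ω₂ →
  χ₁ w₁ = χ₂ w₂ → ∃ s : ℂ, (s = 1 ∨ s = -1) ∧ deriv χ₁ w₁ = s * deriv χ₂ w₂ ∧
    (∀ K : Set ℂ, IsOpen K → IsPreconnected K → (0 : ℂ) ∈ K →
      (∀ h ∈ K, w₁ + h ∈ Ω₁ ∧ w₂ + s * h ∈ Ω₂) → ∀ h ∈ K, χ₁ (w₁ + h) = χ₂ (w₂ + s * h)) ∧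
    (∀ h₀ : ℂ, (∀ t ∈ Icc (0 : ℝ) 1, w₁ + t * h₀ ∈ Ω₁ ∧ w₂ + s * (t * h₀) ∈ Ω₂) →
      χ₁ (w₁ + h₀) = χ₂ (w₂ + s * h₀) ∧ deriv χ₁ (w₁ + h₀) = s * deriv χ₂ (w₂ + s * h₀))

/-! ## The chain step -/

/-- the setting of the chain step: an almost affine natural chart `χ` on `ball 0 (16 h)`, a tower `G0` of `k` levels on
`ball 0 r₀`, and the set `PP` of exceptional levels. -/
structure SU3 (n k : ℕ) (f : Polynomial ℂ) (P : Set ℂ) (B : ℂ → ℂ) (R E η h r₀ : ℝ)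
    (χ : ℂ → ℂ) (G0 : ℕ → ℂ → ℂ) (PP : Finset ℕ) (M : ℕ) : Prop where
  hn : 2 ≤ n
  hdeg : f.natDegree = n
  ad : AD f P B
  posR : 0 < R
  inv : ∀ y : ℂ, ‖f.eval y‖ < R → ‖y‖ < R
  E0 : 0 ≤ E
  hE : ∫⁻ z in ball (0 : ℂ) R, ENNReal.ofReal (Df f B z + 2 * ‖er f B z‖) ≤ ENNReal.ofReal E
  h0 : 0 < h
  h1 : h ≤ 1
  r0 : 0 < r₀
  r1 : r₀ ≤ h / 2
  nat : IsNat P B χ (ball 0 (16 * h))
  far : ∀ w ∈ ball (0 : ℂ) (16 * h), ∀ q ≤ k + 1, ∀ z ∈ P, (fun y : ℂ => f.eval y)^[q] z ≠ χ w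
  aff : ∀ w ∈ ball (0 : ℂ) (16 * h), ‖deriv χ w - deriv χ 0‖ ≤ ‖deriv χ 0‖ / 10
  mp : MapsTo χ (ball 0 h) (ball 0 R)
  t0 : EqOn (G0 0) χ (ball 0 r₀)
  tdiff : ∀ q ≤ k, DifferentiableOn ℂ (G0 q) (ball 0 r₀)
  trel : ∀ q < k, ∀ w ∈ ball (0 : ℂ) r₀, f.eval (G0 (q + 1) w) = G0 q w ∧ fd f (G0 (q + 1) w) ≠ 0
  tlev : ∑ q ∈ Finset.Icc 1 k, lev B G0 q 0 ≤ η
  hPP : ∀ p, 1 ≤ p → p < k → p ∉ PP → 8 * h * ‖deriv χ 0‖ ≤ ‖G0 p 0 - χ 0‖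
  hM : PP.card ≤ M

/-- a system of `Q` levels on the discs of radius `T q` about `0`. -/
structure Sys3 (f : Polynomial ℂ) (h : ℝ) (χ : ℂ → ℂ) (G0 : ℕ → ℂ → ℂ) (PP : Finset ℕ) (T : ℕ → ℝ)
    (G : ℕ → ℂ → ℂ) (Q : ℕ) : Prop where
  t0 : T 0 ≤ h
  anti : ∀ q, q < Q → T (q + 1) ≤ T q
  pos : ∀ q, q ≤ Q → 0 < T q
  g0 : G 0 = χ
  diff : ∀ q, q ≤ Q → DifferentiableOn ℂ (G q) (ball 0 (T q))
  rel : ∀ q, q < Q → ∀ w ∈ ball (0 : ℂ) (T (q + 1)),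
    f.eval (G (q + 1) w) = G q w ∧ fd f (G (q + 1) w) ≠ 0
  val : ∀ q, q ≤ Q → G q 0 = G0 q 0
  disj : ∀ q, 1 ≤ q → q < Q → q ∉ PP → Disjoint (G q '' ball 0 (T (q + 1))) (χ '' ball 0 h)

/-- the standing assumptions for a system with `Q` levels. -/
structure H3 (n k : ℕ) (f : Polynomial ℂ) (P : Set ℂ) (B : ℂ → ℂ) (R E η h r₀ : ℝ) (χ : ℂ → ℂ)
    (G0 : ℕ → ℂ → ℂ) (PP : Finset ℕ) (M : ℕ) (T : ℕ → ℝ) (G : ℕ → ℂ → ℂ) (Q : ℕ) : Prop where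
  su3 : SU3 n k f P B R E η h r₀ χ G0 PP M
  sys : Sys3 f h χ G0 PP T G Q
  hQ : Q ≤ k

/-- the measure `μ` of layers (layer `s` = circle of radius `h - s` about `0`) dominates the level functions. -/
def Mu3 (B : ℂ → ℂ) (h : ℝ) (T : ℕ → ℝ) (G : ℕ → ℂ → ℂ) (Q : ℕ) (μ : Measure ℝ) : Prop :=
  ∀ p, 1 ≤ p → p ≤ Q → ∀ (s t : ℝ) (w : ℂ), h - T p ≤ s → 0 < t → ‖w‖ = h - (s + t) →
    ENNReal.ofReal (∑ q ∈ Finset.Icc 1 p, lev B G q w) ≤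
      ENNReal.ofReal (4 / (Real.pi * t ^ 2)) * μ (Ioo (s + t / 2) (s + 3 * t / 2))

/-- failure of the level `q` at the radius `r`. -/
def Fail3 (f : Polynomial ℂ) (h : ℝ) (χ : ℂ → ℂ) (G0 : ℕ → ℂ → ℂ) (PP : Finset ℕ) (G : ℕ → ℂ → ℂ)
    (q : ℕ) (r : ℝ) : Prop :=
  (1 ≤ q ∧ q ∉ PP ∧ ¬ Disjoint (G q '' ball 0 r) (χ '' ball 0 h)) ∨
    ¬ Br f (G q) (ball 0 r) 0 (G0 (q + 1) 0)

/-- S3G: geometry of the chart; numerical bounds of `e3`.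
PROOF. `‖deriv χ w - deriv χ 0‖ ≤ s/10`, so by the mean value inequality on the convex ball `‖χ w - χ w' - deriv χ 0 (w - w')‖ ≤ (s/10) ‖w - w'‖`: injectivity (`s > 0` by `IsNat.eq`), and the bound of `‖χ w - χ 0‖`.
`d3 ≤ h/16`, `cn n ≥ 4^40`, so `e3 ≤ h²/(256 · 4^40)`. `0 ≤ η` because the terms of `tlev` are norms. -/
def S3G_stmt : Prop := ∀ (n k : ℕ) (f : Polynomial ℂ) (P : Set ℂ) (B : ℂ → ℂ)
  (R E η h r₀ : ℝ) (χ : ℂ → ℂ) (G0 : ℕ → ℂ → ℂ) (PP : Finset ℕ) (M : ℕ),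
  SU3 n k f P B R E η h r₀ χ G0 PP M →
  0 < ‖deriv χ 0‖ ∧ InjOn χ (ball 0 (16 * h)) ∧
  (∀ w ∈ ball (0 : ℂ) (16 * h), ‖χ w - χ 0‖ ≤ 11 / 10 * ‖deriv χ 0‖ * ‖w‖) ∧
  0 ≤ η ∧ 0 ≤ eT M E η ∧ 0 < d3 n M h r₀ ∧ d3 n M h r₀ ≤ r₀ ∧ d3 n M h r₀ ≤ h / (16 * (M + 1) * n) ∧ 0 < e3 n M h r₀ ∧
  e3 n M h r₀ ≤ h ^ 2 / 256

/-- S3A: structure of the system (compare P2A: helper51/PP/P2A.lean).
PROOF. (1) induction on `q`: on the ball `D (min r₀ (T (q+1)))` both `G (q+1)` and `G0 (q+1)` are branches of `f⁻¹` over `G q = G0 q`, equal at `0` (`val`): LUN.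
Iterates: for `w ∈ D (T q)` the `q`-th iterate of `f` maps `G q w` to `χ w` (`anti`). (2) injectivity: S3G. (3) `SU3.inv` and `mp`. (4) nat0 from `SU3.nat`. (5) if `q < q'` and `G q w = G q' w'` (`w ∈ D (T (q+1))`, `w' ∈ D (T (q'+1))`), the `q`-th iterate
gives `χ w = G (q'-q) w'`, so `q'-q ∈ PP` (`disj`); so for the minimum `q₀` of `F` the map `q ↦ q - q₀` is an injection of `F \ {q₀}` into `PP`. (6) the same with all radii equal to `r ≤ T Q`. (7) agreement near `0`, `tlev` (the terms are `≥ 0`). -/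
def S3A_stmt : Prop := ∀ (n k : ℕ) (f : Polynomial ℂ) (P : Set ℂ) (B : ℂ → ℂ)
  (R E η h r₀ : ℝ) (χ : ℂ → ℂ) (G0 : ℕ → ℂ → ℂ) (PP : Finset ℕ) (M : ℕ) (T : ℕ → ℝ)
  (G : ℕ → ℂ → ℂ) (Q : ℕ), H3 n k f P B R E η h r₀ χ G0 PP M T G Q →
  (∀ q ≤ Q, EqOn (G q) (G0 q) (ball 0 (min r₀ (T q)))) ∧
  (∀ q ≤ Q, InjOn (G q) (ball 0 (T q))) ∧
  (∀ q ≤ Q, MapsTo (G q) (ball 0 (T q)) (ball 0 R)) ∧
  (∀ q ≤ Q, LevSys f P B G (ball 0 (T q)) q) ∧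
  (∀ (z : ℂ) (F : Finset ℕ), (∀ q ∈ F, q < Q ∧ z ∈ G q '' ball 0 (T (q + 1))) → F.card ≤ M + 1) ∧
  (∀ r, r ≤ T Q → (1 ≤ Q → Q ∉ PP → Disjoint (G Q '' ball 0 r) (χ '' ball 0 h)) →
    ∀ (z : ℂ) (F : Finset ℕ), (∀ q ∈ F, q ≤ Q ∧ z ∈ G q '' ball 0 r) → F.card ≤ M + 1) ∧
  (∑ q ∈ Finset.Icc 1 Q, lev B G q 0 ≤ η)

/-- S3L: the `L¹` bound (compare P2L: helper16/PP/P2L.lean).
PROOF. For `w ∈ D h` the levels `q ∈ Icc 1 Q` with `w ∈ D (T q)` form an initial segment; LV (1) there, so with `h_q = τ_{q-1} - τ_q`: `∑_q ∫_{D (T q)} (‖h_q‖ - re h_q) ≤ ∑_{q<Q} ∫_{D (T (q+1))} dens (G q) ≤ (M+1) E` (MA, S3A).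
`MPS.HAR` (first claim, one function, centre `0`, radius `T q ≤ h ≤ 1`): `∫_{D (T q)} ‖h_q‖ ≤ ∫ (‖h_q‖ - re h_q) + π ‖h_q 0‖`; sum over `q` (S3A (7)): `≤ (M+1) E + π η ≤ eT M E η`. -/
def S3L_stmt : Prop := ∀ (n k : ℕ) (f : Polynomial ℂ) (P : Set ℂ) (B : ℂ → ℂ)
  (R E η h r₀ : ℝ) (χ : ℂ → ℂ) (G0 : ℕ → ℂ → ℂ) (PP : Finset ℕ) (M : ℕ) (T : ℕ → ℝ)
  (G : ℕ → ℂ → ℂ) (Q : ℕ), H3 n k f P B R E η h r₀ χ G0 PP M T G Q →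
  ∑ q ∈ Finset.Icc 1 Q, ∫⁻ w in ball (0 : ℂ) (T q), ENNReal.ofReal (lev B G q w) ≤
    ENNReal.ofReal (eT M E η)

/-- MU3: the measure of layers (compare MU2: helper21/PP/MU2.lean): image under `w ↦ h - ‖w‖` of `∑_q` (volume on `D (T q)` with density `lev q`). -/
def MU3_stmt : Prop := ∀ (n k : ℕ) (f : Polynomial ℂ) (P : Set ℂ) (B : ℂ → ℂ)
  (R E η h r₀ : ℝ) (χ : ℂ → ℂ) (G0 : ℕ → ℂ → ℂ) (PP : Finset ℕ) (M : ℕ) (T : ℕ → ℝ)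
  (G : ℕ → ℂ → ℂ) (Q : ℕ), H3 n k f P B R E η h r₀ χ G0 PP M T G Q →
  ∃ μ : Measure ℝ, μ univ ≤ ENNReal.ofReal (eT M E η) ∧ Mu3 B h T G Q μ

/-- PT3: pointwise bounds (compare PT2: helper75/PP/PT2.lean). PROOF. HSM on `ball w t` for the family `τ_{q-1} - τ_q`, S3L, `π ≥ 1`; LV (4). -/
def PT3_stmt : Prop := ∀ (n k : ℕ) (f : Polynomial ℂ) (P : Set ℂ) (B : ℂ → ℂ)
  (R E η h r₀ : ℝ) (χ : ℂ → ℂ) (G0 : ℕ → ℂ → ℂ) (PP : Finset ℕ) (M : ℕ) (T : ℕ → ℝ)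
  (G : ℕ → ℂ → ℂ) (Q : ℕ), H3 n k f P B R E η h r₀ χ G0 PP M T G Q →
  ∀ p, 1 ≤ p → p ≤ Q → ∀ (w : ℂ) (t : ℝ), 0 < t → ‖w‖ + t ≤ T p →
    ∑ q ∈ Finset.Icc 1 p, lev B G q w ≤ eT M E η / t ^ 2 ∧
    ‖tau B G p w - 1‖ ≤ ∑ q ∈ Finset.Icc 1 p, lev B G q w

/-- REACH3 (compare REACH2: helper97/PP/REACH2.lean).
PROOF. `w₁ ∈ D r`, `v₁ ∈ D h` with `G p w₁ = χ v₁`. `w₂` = `w₁` if `‖w₁‖ ≤ r - h/8`, else the point of the segment `[w₁, 0]` with `‖w₂‖ = r - h/8`. On `[w₂, 0]` PT3 with `t = h/8`: `‖τ_p - 1‖ ≤ 64 eT/h² ≤ 1/4`; its length is `≤ h`, so its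
`‖τ‖^{1/2}`-length is `≤ 1.12 h`. The length of `[w₁,w₂]` is `≤ h/8 + ∫_{t₀}^{h/8} ‖τ_p - 1‖^{1/2} dt`, `t = r - ‖w‖`, and by `Mu3` with `s = h - r`: `‖τ_p - 1‖ ≤ (4/(π t²)) μ(Ioo (s+t/2) (s+3t/2))`, so the integral is
`≤ PsiM μ (h/8) (h - r)`. If that is `< h` then the total length is `< 3h` and NPL twice (`χ` natural on `ball 0 (16h) ⊇ ball v₁ (3h)`; `G p` on `D (T p)`) gives `v₃`, `‖v₃ - v₁‖ < 3h`, `χ v₃ = G p 0 = G0 p 0`. So `‖G0 p 0 - χ 0‖ ≤ (11/10) s · 4h < 8 h s` (S3G),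
contradiction to `hPP`. -/
def REACH3_stmt : Prop := ∀ (n k : ℕ) (f : Polynomial ℂ) (P : Set ℂ) (B : ℂ → ℂ)
  (R E η h r₀ : ℝ) (χ : ℂ → ℂ) (G0 : ℕ → ℂ → ℂ) (PP : Finset ℕ) (M : ℕ) (T : ℕ → ℝ)
  (G : ℕ → ℂ → ℂ) (Q : ℕ) (μ : Measure ℝ), H3 n k f P B R E η h r₀ χ G0 PP M T G Q →
  eT M E η ≤ e3 n M h r₀ → Mu3 B h T G Q μ → ∀ (p : ℕ) (r : ℝ), 1 ≤ p → p < k → p ≤ Q → p ∉ PP →
  3 * h / 4 ≤ r → r ≤ T p →
  ¬ Disjoint (G p '' ball 0 r) (χ '' ball 0 h) →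
    ENNReal.ofReal h ≤ PsiM μ (h / 8) (h - r)

/-- EV3: the loss of radius at a critical value (compare EV2: helper60/PP/EV2.lean).
PROOF. Suppose `d = d3 n M h r₀ ≤ r - T (Q+1)`. If `T (Q+1) < r₀` take `r'` with `T (Q+1) < r' ≤ min r r₀`: `G0 (Q+1)` is a branch over `G Q = G0 Q` on `D r'` (S3A (1), `trel`), contradiction. So `d ≤ r₀ ≤ T (Q+1)`. BDY with centre `0`, radius `T (Q+1)`, `r₁ = r`, `F = G Q`, `h = G (Q+1)`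
(`G (Q+1) 0 = G0 (Q+1) 0`): `ws`, `ys`. EVT with `a = 0`, radius `T (Q+1)`, `G = G Q` on `ball ws d ⊆ D r` (injective: S3A; avoids the `b j`: LEA), `ν = (M+1) E ≤ eT`: LV (2), (3) for the system of `Q` levels and MA with `M + 1` (S3A (6), at the radius `r`).
`t ∈ [d/4^n, d]`, `‖w₀‖ = T (Q+1) - t/2`; PT3 at the level `Q+1`, depth `t/2`: `∑ lev ≤ 4 eT/t²`. So `1 - 4 eT/t² ≤ 4^21 · 104 eT/t²`, while `t² ≥ d²/16^n` and `eT ≤ e3` give `eT/t² ≤ 4^{-40}`: contradiction. -/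
def EV3_stmt : Prop := ∀ (n k : ℕ) (f : Polynomial ℂ) (P : Set ℂ) (B : ℂ → ℂ)
  (R E η h r₀ : ℝ) (χ : ℂ → ℂ) (G0 : ℕ → ℂ → ℂ) (PP : Finset ℕ) (M : ℕ) (T : ℕ → ℝ)
  (G : ℕ → ℂ → ℂ) (Q : ℕ), H3 n k f P B R E η h r₀ χ G0 PP M T G (Q + 1) → eT M E η ≤ e3 n M h r₀ →
  ∀ r : ℝ, r ≤ T Q →
  (1 ≤ Q → Q ∉ PP → Disjoint (G Q '' ball 0 r) (χ '' ball 0 h)) →
  (∀ r', T (Q + 1) < r' → r' ≤ r → ¬ Br f (G Q) (ball 0 r') 0 (G0 (Q + 1) 0)) →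
  r < T (Q + 1) + d3 n M h r₀

/-- STEP3: one more level (compare STEP2: helper30/PP/STEP2.lean).
PROOF. `S = {r | 0 < r ≤ T Q, ¬ Fail3 .. Q r}` is not empty: for `r ≤ min r₀ (T Q)` the branch `G0 (Q+1)` over `G Q = G0 Q` (S3A (1)); if `1 ≤ Q`, `Q ∉ PP` then `‖G Q 0 - χ 0‖ ≥ 8 h s` (`hPP`, `Q < k`), every point of `χ '' D h` has distance `≤ 11 h s/10` from `χ 0` (S3G) and `G Q` is continuous at `0`:
disjointness for small `r`. `t' = sSup S`; `¬ Fail3` at `t'`: union of smaller balls, branches agree (LUN). `g'` = the branch on `D t'`. -/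
def STEP3_stmt : Prop := ∀ (n k : ℕ) (f : Polynomial ℂ) (P : Set ℂ) (B : ℂ → ℂ)
  (R E η h r₀ : ℝ) (χ : ℂ → ℂ) (G0 : ℕ → ℂ → ℂ) (PP : Finset ℕ) (M : ℕ) (T : ℕ → ℝ)
  (G : ℕ → ℂ → ℂ) (Q : ℕ), H3 n k f P B R E η h r₀ χ G0 PP M T G Q → Q < k →
  ∃ (t' : ℝ) (g' : ℂ → ℂ),
    H3 n k f P B R E η h r₀ χ G0 PP M (Function.update T (Q + 1) t')
      (Function.update G (Q + 1) g') (Q + 1) ∧
    ∀ r, t' < r → r < T Q → Fail3 f h χ G0 PP G Q r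

/-- SEQ3: all levels. PROOF. Induction with STEP3, starting from `T 0 = h`, `G 0 = χ` (as SEQ2: helper19/PP/SEQ2.lean). -/
def SEQ3_stmt : Prop := ∀ (n k : ℕ) (f : Polynomial ℂ) (P : Set ℂ) (B : ℂ → ℂ)
  (R E η h r₀ : ℝ) (χ : ℂ → ℂ) (G0 : ℕ → ℂ → ℂ) (PP : Finset ℕ) (M : ℕ),
  SU3 n k f P B R E η h r₀ χ G0 PP M →
  ∃ (T : ℕ → ℝ) (G : ℕ → ℂ → ℂ), H3 n k f P B R E η h r₀ χ G0 PP M T G k ∧ T 0 = h ∧
    ∀ q < k, ∀ r, T (q + 1) < r → r < T q → Fail3 f h χ G0 PP G q r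

/-- PH3: conclusion (compare PH2: helper16/PP/PH2.lean).
PROOF. SEQ3, MU3 (`Q = k`). Suppose `T k ≤ 3h/4`. Almost every `r ∈ (3h/4, h)` is in some `(T (q+1), T q)`, `q < k`. Either (i) `1 ≤ q`, `q ∉ PP` and not disjoint at `r`: REACH3: `PsiM μ (h/8) (h - r) ≥ h`; CHEB: measure `≤ 16 (h/8) eT/(π h²) ≤ h/16` (S3G: `eT ≤ e3 ≤ h²/256`).
Or (ii) `r ∈ J_q`: level `q` is good at `r` (disjoint, or `q = 0`, or `q ∈ PP`) and there is no branch at `r`. `J_q` is a down-set of `(max (T (q+1)) (3h/4), T q)`; EV3 (system with `q+1` levels; for `T (q+1) < r' ≤ r` the level is good at `r'`, so by Fail3 there is no branch):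
`r < T (q+1) + d3` for every `r ∈ J_q`, so `J_q` has measure `≤ d3`. If `r_q ∈ J_q` then by LIFT some critical value `v_q` is in `G q '' D r_q`. Every critical value occurs for at most `M + 1` of the `q`: for `q < q'` with `v_q = v_q' = G q w = G q' w'` the `q`-th iterate gives
`χ w = G (q'-q) w'`, `w' ∈ D r_q' ⊆ D (T (q'-q+1))` if `q ≥ 1` (`r_q' < T q' ≤ T (q'-q+1)`), so `disj` gives `q' - q ∈ PP`; for `q = 0` use that `q'` is good at `r_q'`; so for the smallest such `q₀` all other differences `q - q₀` are in `PP`. So at most `(M+1)(n-1)` of the `J_q` are non empty (PRB): total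
`h/4 ≤ h/16 + (M+1)(n-1) h/(16(M+1)n) < h/4`: contradiction. Take `r = T k`, restrict. -/
def PH3_stmt : Prop := ∀ (n k : ℕ) (f : Polynomial ℂ) (P : Set ℂ) (B : ℂ → ℂ)
  (R E η h r₀ : ℝ) (χ : ℂ → ℂ) (G0 : ℕ → ℂ → ℂ) (PP : Finset ℕ) (M : ℕ),
  SU3 n k f P B R E η h r₀ χ G0 PP M → eT M E η ≤ e3 n M h r₀ →
  ∃ (r : ℝ) (G : ℕ → ℂ → ℂ), 3 * h / 4 < r ∧ H3 n k f P B R E η h r₀ χ G0 PP M (fun _ => r) G k

/-- CS: the chain step.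
PROOF. PH3, S3A (restrict to `D (3h/4)`; `r₀ ≤ h/2 < 3h/4 < r`), PT3 with `t = h/4`. -/
def CS_stmt : Prop := ∀ (n k : ℕ) (f : Polynomial ℂ) (P : Set ℂ) (B : ℂ → ℂ)
  (R E η h r₀ : ℝ) (χ : ℂ → ℂ) (G0 : ℕ → ℂ → ℂ) (PP : Finset ℕ) (M : ℕ),
  SU3 n k f P B R E η h r₀ χ G0 PP M → eT M E η ≤ e3 n M h r₀ →
  ∃ G : ℕ → ℂ → ℂ, G 0 = χ ∧ LevSys f P B G (ball 0 (3 * h / 4)) k ∧
    (∀ q ≤ k, EqOn (G q) (G0 q) (ball 0 r₀)) ∧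
    (∀ q ≤ k, InjOn (G q) (ball 0 (3 * h / 4))) ∧
    (∀ q ≤ k, MapsTo (G q) (ball 0 (3 * h / 4)) (ball 0 R)) ∧
    ∀ w ∈ ball (0 : ℂ) (h / 2), (∑ q ∈ Finset.Icc 1 k, lev B G q w ≤ 16 * eT M E η / h ^ 2) ∧
      ∀ q ≤ k, ‖tau B G q w - 1‖ ≤ 16 * eT M E η / h ^ 2

end WPS
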