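import Pool.Agent.helper52.WP.SpecS

/-!
# Project v3 (MP_af9036_an, MP_70a088_an): CS, the chain step
-/

set_option autoImplicit false

open Complex Metric Set Filter Topology MeasureTheory
open PPS (fd fdd pre TT CV Br cn)
open MPS (PsiM)

noncomputable section

open XPS (IsNat er Df dens brv tau lev d3 e3 eT)

namespace WPS

theorem CS_lev {f : Polynomial ℂ} {P : Set ℂ} {B : ℂ → ℂ} {G : ℕ → ℂ → ℂ} {Ω Ω' : Set ℂ} {Q : ℕ}
    (h : LevSys f P B G Ω Q) (hs : Ω' ⊆ Ω) : LevSys f P B G Ω' Q :=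
  ⟨⟨h.nat0.diff.mono hs, fun w hw => h.nat0.av w (hs hw), fun w hw => h.nat0.eq w (hs hw)⟩,
    fun q hq => (h.diff q hq).mono hs, fun q hq w hw => h.rel q hq w (hs hw),
    fun q hq w hw => h.av q hq w (hs hw)⟩

theorem CS (hPH : PH3_stmt) (hS3G : S3G_stmt) (hS3A : S3A_stmt) (hPT : PT3_stmt) : CS_stmt := by
  intro n k f P B R E η h r₀ χ G0 PP M hsu he
  obtain ⟨r, G, hr, hH⟩ := hPH n k f P B R E η h r₀ χ G0 PP M hsu he
  obtain ⟨hA1, hA2, hA3, hA4, -, -, -⟩ := hS3A n k f P B R E η h r₀ χ G0 PP M (fun _ => r) G k hH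
  have hε : 0 ≤ eT M E η := (hS3G n k f P B R E η h r₀ χ G0 PP M hsu).2.2.2.2.1
  have h0 : 0 < h := hsu.h0
  have hr0 : r₀ ≤ h / 2 := hsu.r1
  have hsub : ball (0 : ℂ) (3 * h / 4) ⊆ ball 0 r := ball_subset_ball hr.le
  have hg0 : G 0 = χ := hH.sys.g0
  have hbd : 0 ≤ 16 * eT M E η / h ^ 2 := by positivity
  have hpt : ∀ w ∈ ball (0 : ℂ) (h / 2), ∀ p, 1 ≤ p → p ≤ k →
      ∑ q ∈ Finset.Icc 1 p, lev B G q w ≤ 16 * eT M E η / h ^ 2 ∧
      ‖tau B G p w - 1‖ ≤ 16 * eT M E η / h ^ 2 := by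
    intro w hw p h1 hp
    have hw' : ‖w‖ < h / 2 := by simpa using hw
    obtain ⟨e1, e2⟩ := hPT n k f P B R E η h r₀ χ G0 PP M (fun _ => r) G k hH p h1 hp w (h / 4)
      (by linarith) (by linarith)
    have e3 : eT M E η / (h / 4) ^ 2 = 16 * eT M E η / h ^ 2 := by
      field_simp
      norm_num
    rw [e3] at e1
    exact ⟨e1, e2.trans e1⟩
  refine ⟨G, hg0, CS_lev (hA4 k le_rfl) hsub, fun q hq => ?_, fun q hq => (hA2 q hq).mono hsub,
    fun q hq => (hA3 q hq).mono_left hsub, fun w hw => ⟨?_, fun q hq => ?_⟩⟩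
  · have h1 := hA1 q hq
    rwa [min_eq_left (by linarith)] at h1
  · rcases Nat.eq_zero_or_pos k with hk | hk
    · rw [hk]
      simpa using hbd
    · exact (hpt w hw k hk le_rfl).1
  · rcases Nat.eq_zero_or_pos q with rfl | hq0
    · have hw' : ‖w‖ < h / 2 := by simpa using hw
      have h1 : tau B G 0 w = 1 := by
        unfold tau
        rw [hg0]
        exact hsu.nat.eq w (by simpa using (by linarith : ‖w‖ < 16 * h))
      rw [h1, sub_self, norm_zero]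
      exact hbd
    · exact (hpt w hw q hq0 hq).2

end WPS
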