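import Pool.Agent.helper52.WP.SpecS

/-! xp:LVG: the level functions over an arbitrary map -/

set_option autoImplicit false

open Complex Metric Set Filter Topology MeasureTheory
open PPS (fd fdd pre TT CV Br cn)
open MPS (PsiM)

noncomputable section

open XPS (IsNat er Df dens brv tau lev d3 e3 eT)

namespace WPS

theorem LVG_sum (f : Polynomial ℂ) (B : ℂ → ℂ) (G : ℂ → ℂ) (w z : ℂ) :
    ((pre f z).map (brv f B G w)).sum = deriv G w ^ 2 * TT f B z := by
  unfold TT
  rw [← Multiset.sum_map_mul_left]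
  refine congrArg Multiset.sum (Multiset.map_congr rfl fun y _ => ?_)
  unfold brv
  rw [div_pow]
  ring

theorem LVG_norm_sum (s : Multiset ℂ) (F : ℂ → ℂ) : ‖(s.map F).sum‖ ≤ (s.map fun y => ‖F y‖).sum := by
  induction s using Multiset.induction_on with
  | empty => simp
  | cons a s ih =>
    rw [Multiset.map_cons, Multiset.sum_cons, Multiset.map_cons, Multiset.sum_cons]
    exact (norm_add_le _ _).trans (by linarith)

theorem LVG_split {M : Type*} [AddCommMonoid M] (s : Multiset ℂ) (y : ℂ) (hy : y ∈ s) (F : ℂ → M) :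
    (s.map F).sum = F y + ((s.erase y).map F).sum := by
  rw [← Multiset.cons_erase hy, Multiset.map_cons, Multiset.sum_cons, Multiset.erase_cons_head]

/-- one level. -/
theorem LVG_one (hPRB : PPS.PRB_stmt) (f : Polynomial ℂ) (B : ℂ → ℂ) (G : ℕ → ℂ → ℂ) (q : ℕ) (w : ℂ)
    (hn : 1 ≤ f.natDegree) (h1 : f.eval (G (q + 1) w) = G q w) (h0 : fd f (G (q + 1) w) ≠ 0)
    (hd : deriv (G q) w = fd f (G (q + 1) w) * deriv (G (q + 1)) w) :
    lev B G (q + 1) w ≤ dens f B (G q) w + ‖tau B G q w‖ - ‖tau B G (q + 1) w‖ := by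
  have hm : G (q + 1) w ∈ pre f (G q w) := ((hPRB f hn).1 _ _).2 h1
  have hb : brv f B (G q) w (G (q + 1) w) = tau B G (q + 1) w := by
    unfold brv tau
    rw [hd, mul_div_assoc, mul_comm (fd f (G (q + 1) w)), div_mul_cancel₀ _ h0]
  have e1 : tau B G q w = ((pre f (G q w)).map (brv f B (G q) w)).sum +
      deriv (G q) w ^ 2 * er f B (G q w) := by
    rw [LVG_sum]
    unfold tau er
    ring
  have e2 : Df f B (G q w) * ‖deriv (G q) w‖ ^ 2 =
      ((pre f (G q w)).map fun y => ‖brv f B (G q) w y‖).sum -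
        ‖tau B G q w - deriv (G q) w ^ 2 * er f B (G q w)‖ := by
    unfold Df
    rw [sub_mul]
    congr 1
    · rw [← Multiset.sum_map_mul_right]
      refine congrArg Multiset.sum (Multiset.map_congr rfl fun y _ => ?_)
      unfold brv
      rw [norm_mul, norm_pow, norm_div, div_pow]
      ring
    · unfold tau er
      rw [← mul_sub, norm_mul, norm_pow]
      ring_nf
  have e3 : dens f B (G q) w =
      Df f B (G q w) * ‖deriv (G q) w‖ ^ 2 + 2 * ‖deriv (G q) w ^ 2 * er f B (G q w)‖ := by
    unfold dens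
    rw [norm_mul, norm_pow]
    ring
  rw [LVG_split _ _ hm, hb] at e1 e2
  set E := deriv (G q) w ^ 2 * er f B (G q w) with hE
  set O := (((pre f (G q w)).erase (G (q + 1) w)).map (brv f B (G q) w)).sum with hO
  have e4 := LVG_norm_sum ((pre f (G q w)).erase (G (q + 1) w)) (fun y => brv f B (G q) w y)
  have e5 : lev B G (q + 1) w = ‖O + E‖ := by
    unfold lev
    rw [Nat.add_sub_cancel, e1]
    congr 1
    ring
  have e6 := norm_add_le O E
  have e7 := norm_sub_le (tau B G q w) E
  rw [e5, e3]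
  have e8 : ‖O‖ ≤ (((pre f (G q w)).erase (G (q + 1) w)).map fun y => ‖brv f B (G q) w y‖).sum := e4
  linarith

theorem LVG (hPRB : PPS.PRB_stmt) : LVG_stmt := by
  intro f B G Ω Q hn hO hdiff hrel w hw
  have hd : ∀ q < Q, deriv (G q) w = fd f (G (q + 1) w) * deriv (G (q + 1)) w := by
    intro q hq
    have h1 : DifferentiableAt ℂ (G (q + 1)) w := (hdiff (q + 1) hq).differentiableAt (hO.mem_nhds hw)
    have h2 : HasDerivAt (fun z => f.eval (G (q + 1) z))
        (f.derivative.eval (G (q + 1) w) * deriv (G (q + 1)) w) w :=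
      (f.hasDerivAt (G (q + 1) w)).comp w h1.hasDerivAt
    have h3 : G q =ᶠ[𝓝 w] fun z => f.eval (G (q + 1) z) := by
      filter_upwards [hO.mem_nhds hw] with z hz
      exact ((hrel q hq z hz).1).symm
    rw [h3.deriv_eq, h2.deriv]
    rfl
  have key : ∀ m ≤ Q, ∑ q ∈ Finset.Icc 1 m, lev B G q w ≤
      ∑ q ∈ Finset.range m, dens f B (G q) w + ‖tau B G 0 w‖ - ‖tau B G m w‖ := by
    intro m
    induction m with
    | zero => intro _; simp
    | succ m ih =>
      intro hm
      have h1 := ih (by omega)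
      have h2 := LVG_one hPRB f B G m w hn (hrel m (by omega) w hw).1 (hrel m (by omega) w hw).2
        (hd m (by omega))
      rw [Finset.sum_Icc_succ_top (by omega), Finset.sum_range_succ]
      linarith
  have key2 : ∀ m, ‖tau B G 0 w - tau B G m w‖ ≤ ∑ q ∈ Finset.Icc 1 m, lev B G q w := by
    intro m
    induction m with
    | zero => simp
    | succ m ih =>
      rw [Finset.sum_Icc_succ_top (by omega)]
      have e2 : tau B G 0 w - tau B G (m + 1) w = (tau B G 0 w - tau B G m w) +
          (tau B G m w - tau B G (m + 1) w) := by ring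
      have e3 : lev B G (m + 1) w = ‖tau B G m w - tau B G (m + 1) w‖ := by
        unfold lev
        rw [Nat.add_sub_cancel]
      rw [e2, e3]
      exact (norm_add_le _ _).trans (by linarith)
  refine ⟨key Q le_rfl, fun u hu hu0 => ?_⟩
  have h1 := key Q le_rfl
  have h2 := key2 Q
  have h3 : (u * (tau B G 0 w - tau B G Q w)).re = ‖tau B G 0 w‖ - (u * tau B G Q w).re := by
    rw [mul_sub, Complex.sub_re, hu0, Complex.ofReal_re]
  have h4 : (u * tau B G Q w).re ≤ ‖tau B G Q w‖ := by
    refine (Complex.re_le_norm _).trans ?_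
    rw [norm_mul, hu, one_mul]
  rw [h3]
  linarith

end WPS
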