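import Pool.Agent.helper52.WP.SpecS
import Pool.Agent.helper74.MP.MA

/-!
# xp:MAX (adapted from helper95/PP/MA.lean)
-/

set_option autoImplicit false

open Complex Metric Set Filter Topology MeasureTheory
open PPS (fd fdd pre TT CV Br cn)
open MPS (PsiM)

noncomputable section

open XPS (IsNat er Df dens brv tau lev d3 e3 eT)

namespace WPS

/-- MAX. -/
theorem MAX (hMI : MIX_stmt) : MAX_stmt := by
  intro f P B R E had hE Q M Ω G hG hmult
  obtain ⟨-, -, hmer, hmDf, hpos⟩ := hMI f P B had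
  have hS : ∀ q < Q, MeasurableSet (G q '' Ω q) := fun q hq =>
    MPS.MA_meas (hG q hq).1 (hG q hq).2.1 (hG q hq).2.2.1
  have hSD : ∀ q < Q, G q '' Ω q ⊆ ball 0 R := fun q hq => (hG q hq).2.2.2.image_subset
  constructor
  · have h1 : ∀ q ∈ Finset.range Q, ∫⁻ w in Ω q, ENNReal.ofReal (dens f B (G q) w) =
        ∫⁻ z in G q '' Ω q, ENNReal.ofReal (Df f B z + 2 * ‖er f B z‖) := by
      intro q hq
      have hq' := hG q (Finset.mem_range.mp hq)
      exact MPS.MA_cov hq'.1 hq'.2.1 hq'.2.2.1 (fun z => Df f B z + 2 * ‖er f B z‖)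
    rw [Finset.sum_congr rfl h1]
    have hmeas : Measurable fun z => ENNReal.ofReal (Df f B z + 2 * ‖er f B z‖) :=
      (hmDf.add (hmer.norm.const_mul 2)).ennreal_ofReal
    refine (MPS.MA_mult hS measurableSet_ball hSD hmult hmeas).trans ?_
    gcongr
  · have h1 : ∀ q ∈ Finset.range Q,
        ∫⁻ w in Ω q, ENNReal.ofReal (‖er f B (G q w)‖ * ‖deriv (G q) w‖ ^ 2) =
        ∫⁻ z in G q '' Ω q, ENNReal.ofReal ‖er f B z‖ := by
      intro q hq
      have hq' := hG q (Finset.mem_range.mp hq)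
      exact MPS.MA_cov hq'.1 hq'.2.1 hq'.2.2.1 (fun z => ‖er f B z‖)
    rw [Finset.sum_congr rfl h1]
    refine (MPS.MA_mult hS measurableSet_ball hSD hmult hmer.norm.ennreal_ofReal).trans ?_
    gcongr
    refine le_trans (lintegral_mono fun z => ENNReal.ofReal_le_ofReal ?_) hE
    have h2 := hpos z
    have h3 := norm_nonneg (er f B z)
    linarith

end WPS
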