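import Pool.Agent.helper52.WP.SpecS

/-! xp:NUX: uniqueness of natural maps (adapted from helper59/MP/NL0.lean, helper97/MP/NU.lean) -/

set_option autoImplicit false

open Complex Metric Set Filter Topology MeasureTheory
open PPS (fd fdd pre TT CV Br cn)
open MPS (PsiM)

noncomputable section

open XPS (IsNat er Df dens brv tau lev d3 e3 eT)

namespace WPS

/-- A holomorphic square root of `B` with a primitive, injective near a regular point. -/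
theorem NUX_prim {P : Set ℂ} {B : ℂ → ℂ} (hPf : P.Finite) (hBd : DifferentiableOn ℂ B Pᶜ) {z₀ : ℂ} (hz : z₀ ∉ P)
    (hB : B z₀ ≠ 0) : ∃ r > (0 : ℝ), ∃ σ F : ℂ → ℂ, (∀ z ∈ ball z₀ r, HasDerivAt F (σ z) z) ∧
      (∀ z ∈ ball z₀ r, σ z ^ 2 = B z) ∧ (∀ z ∈ ball z₀ r, σ z ≠ 0) ∧
      (∀ z ∈ ball z₀ r, z ∉ P) ∧ ContinuousOn σ (ball z₀ r) ∧ InjOn F (ball z₀ r) := by
  obtain ⟨σ₀, hσ₀⟩ : ∃ σ₀ : ℂ, σ₀ ^ 2 = B z₀ := by
    obtain ⟨x, hx⟩ := IsAlgClosed.exists_pow_nat_eq (B z₀) (n := 2) (by norm_num)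
    exact ⟨x, hx⟩
  have hσ₀0 : σ₀ ≠ 0 := by
    rintro rfl
    rw [zero_pow two_ne_zero] at hσ₀
    exact hB hσ₀.symm
  have hav : ∀ᶠ z in 𝓝 z₀, z ∉ P := hPf.isClosed.isOpen_compl.mem_nhds hz
  have hBdz : ∀ z, z ∉ P → DifferentiableAt ℂ B z := fun z h =>
    hBd.differentiableAt (hPf.isClosed.isOpen_compl.mem_nhds h)
  have hcont : ContinuousAt (fun z => B z / B z₀) z₀ :=
    (hBdz z₀ hz).continuousAt.div_const _
  have hsl : ∀ᶠ z in 𝓝 z₀, B z / B z₀ ∈ slitPlane := by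
    have h1 : B z₀ / B z₀ ∈ slitPlane := by
      rw [div_self hB]
      exact one_mem_slitPlane
    exact hcont.eventually_mem (isOpen_slitPlane.mem_nhds h1)
  obtain ⟨r₀, hr₀, hr₀'⟩ := Metric.eventually_nhds_iff_ball.1 (hav.and hsl)
  set σ : ℂ → ℂ := fun z => σ₀ * (B z / B z₀) ^ ((1 : ℂ) / 2) with hσdef
  have hσsq : ∀ z ∈ ball z₀ r₀, σ z ^ 2 = B z := by
    intro z hz'
    have h1 : ((B z / B z₀) ^ ((1 : ℂ) / 2)) ^ 2 = B z / B z₀ := by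
      rw [← Complex.cpow_nat_mul]
      norm_num
    simp only [hσdef]
    rw [mul_pow, h1, hσ₀]
    field_simp
  have hBne : ∀ z ∈ ball z₀ r₀, B z ≠ 0 := by
    intro z hz' h0
    have := (hr₀' z hz').2
    rw [h0, zero_div] at this
    exact zero_notMem_slitPlane this
  have hσne : ∀ z ∈ ball z₀ r₀, σ z ≠ 0 := by
    intro z hz' h0
    have := hσsq z hz'
    rw [h0, zero_pow two_ne_zero] at this
    exact hBne z hz' this.symm
  have hσdiff : DifferentiableOn ℂ σ (ball z₀ r₀) := by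
    intro z hz'
    obtain ⟨h1, h2⟩ := hr₀' z hz'
    have h3 : DifferentiableAt ℂ (fun z => B z / B z₀) z :=
      (hBdz z h1).div_const _
    exact ((h3.cpow (differentiableAt_const _) h2).const_mul σ₀).differentiableWithinAt
  obtain ⟨F, hF⟩ := hσdiff.isExactOn_ball
  have hz₀ : z₀ ∈ ball z₀ r₀ := mem_ball_self hr₀
  have hstrict : HasStrictDerivAt F (σ z₀) z₀ := by
    have h1 : AnalyticAt ℂ F z₀ := by
      have h2 : DifferentiableOn ℂ F (ball z₀ r₀) := fun z hz' =>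
        (hF z hz').differentiableAt.differentiableWithinAt
      exact h2.analyticAt (ball_mem_nhds z₀ hr₀)
    have h2 := h1.hasStrictDerivAt
    rwa [(hF z₀ hz₀).deriv] at h2
  have hinj : ∃ r₁ > (0 : ℝ), InjOn F (ball z₀ r₁) := by
    obtain ⟨r₁, hr₁, hr₁'⟩ := Metric.eventually_nhds_iff_ball.1
      (hstrict.eventually_left_inverse (hσne z₀ hz₀))
    refine ⟨r₁, hr₁, fun x hx y hy hxy => ?_⟩
    rw [← hr₁' x hx, ← hr₁' y hy, hxy]
  obtain ⟨r₁, hr₁, hr₁'⟩ := hinj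
  have hs0 : ball z₀ (min r₀ r₁) ⊆ ball z₀ r₀ := ball_subset_ball (min_le_left _ _)
  have hs1 : ball z₀ (min r₀ r₁) ⊆ ball z₀ r₁ := ball_subset_ball (min_le_right _ _)
  exact ⟨min r₀ r₁, lt_min hr₀ hr₁, σ, F, fun z hz' => hF z (hs0 hz'), fun z hz' => hσsq z (hs0 hz'),
    fun z hz' => hσne z (hs0 hz'), fun z hz' => (hr₀' z (hs0 hz')).1,
    hσdiff.continuousOn.mono hs0, hr₁'.mono hs1⟩

theorem NUX_loc (P : Set ℂ) (B : ℂ → ℂ) (hPf : P.Finite) (hBd : DifferentiableOn ℂ B Pᶜ) (χ₁ χ₂ : ℂ → ℂ) (Ω₁ Ω₂ : Set ℂ)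
    (w₁ w₂ s : ℂ) (hΩ₁ : IsOpen Ω₁) (hΩ₂ : IsOpen Ω₂) (h₁ : IsNat P B χ₁ Ω₁) (h₂ : IsNat P B χ₂ Ω₂) (hw₁ : w₁ ∈ Ω₁)
    (hw₂ : w₂ ∈ Ω₂) (hχ : χ₁ w₁ = χ₂ w₂) (hs : s = 1 ∨ s = -1) (hd : deriv χ₁ w₁ = s * deriv χ₂ w₂) :
    ∃ ε > (0 : ℝ), ∀ h ∈ ball (0 : ℂ) ε, χ₁ (w₁ + h) = χ₂ (w₂ + s * h) := by
  have hs0 : s ≠ 0 := by
    rcases hs with rfl | rfl <;> norm_num
  have hsn : ‖s‖ = 1 := by
    rcases hs with rfl | rfl <;> simp
  have hB : B (χ₁ w₁) ≠ 0 := by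
    intro h0
    have := h₁.eq w₁ hw₁
    rw [h0, mul_zero] at this
    exact zero_ne_one this
  obtain ⟨r, hr, σ, F, hF, hσ2, hσ0, -, hσc, hinj⟩ := NUX_prim hPf hBd (h₁.av w₁ hw₁) hB
  -- the two functions
  have hd1 : ∀ h, w₁ + h ∈ Ω₁ → HasDerivAt (fun h => χ₁ (w₁ + h)) (deriv χ₁ (w₁ + h)) h := by
    intro h hh
    have h3 : HasDerivAt χ₁ (deriv χ₁ (w₁ + h)) (w₁ + h) :=
      (h₁.diff.differentiableAt (hΩ₁.mem_nhds hh)).hasDerivAt
    exact h3.comp_const_add w₁ h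
  have hd2 : ∀ h, w₂ + s * h ∈ Ω₂ →
      HasDerivAt (fun h => χ₂ (w₂ + s * h)) (deriv χ₂ (w₂ + s * h) * s) h := by
    intro h hh
    have h3 : HasDerivAt χ₂ (deriv χ₂ (w₂ + s * h)) (w₂ + s * h) :=
      (h₂.diff.differentiableAt (hΩ₂.mem_nhds hh)).hasDerivAt
    have h4 : HasDerivAt (fun h : ℂ => w₂ + s * h) s h := by
      simpa using ((hasDerivAt_id h).const_mul s).const_add w₂
    exact h3.comp h h4
  have hm1 : ∀ᶠ h in 𝓝 (0 : ℂ), w₁ + h ∈ Ω₁ := by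
    have : ContinuousAt (fun h : ℂ => w₁ + h) 0 := by fun_prop
    exact this.eventually_mem (hΩ₁.mem_nhds (by simpa using hw₁))
  have hm2 : ∀ᶠ h in 𝓝 (0 : ℂ), w₂ + s * h ∈ Ω₂ := by
    have : ContinuousAt (fun h : ℂ => w₂ + s * h) 0 := by fun_prop
    exact this.eventually_mem (hΩ₂.mem_nhds (by simpa using hw₂))
  have hb1 : ∀ᶠ h in 𝓝 (0 : ℂ), χ₁ (w₁ + h) ∈ ball (χ₁ w₁) r := by
    have h3 := (hd1 0 (by simpa using hw₁)).continuousAt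
    exact h3.eventually_mem (by simpa using ball_mem_nhds (χ₁ w₁) hr)
  have hb2 : ∀ᶠ h in 𝓝 (0 : ℂ), χ₂ (w₂ + s * h) ∈ ball (χ₁ w₁) r := by
    have h3 := (hd2 0 (by simpa using hw₂)).continuousAt
    refine h3.eventually_mem ?_
    have : χ₂ (w₂ + s * 0) = χ₁ w₁ := by simpa using hχ.symm
    rw [this]
    exact ball_mem_nhds (χ₁ w₁) hr
  obtain ⟨ε, hε, hall⟩ := Metric.eventually_nhds_iff_ball.1 ((hm1.and hm2).and (hb1.and hb2))
  refine ⟨ε, hε, ?_⟩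
  have hc1 : ContinuousOn (fun h => deriv χ₁ (w₁ + h)) (ball 0 ε) := by
    have h3 : ContinuousOn (deriv χ₁) Ω₁ := (h₁.diff.deriv hΩ₁).continuousOn
    exact h3.comp (by fun_prop) fun h hh => (hall h hh).1.1
  have hc2 : ContinuousOn (fun h => deriv χ₂ (w₂ + s * h)) (ball 0 ε) := by
    have h3 : ContinuousOn (deriv χ₂) Ω₂ := (h₂.diff.deriv hΩ₂).continuousOn
    exact h3.comp (by fun_prop) fun h hh => (hall h hh).1.2
  have hq1 : ContinuousOn (fun h => σ (χ₁ (w₁ + h)) * deriv χ₁ (w₁ + h)) (ball 0 ε) := by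
    refine ContinuousOn.mul (hσc.comp ?_ fun h hh => (hall h hh).2.1) hc1
    intro h hh
    exact (hd1 h (hall h hh).1.1).continuousAt.continuousWithinAt
  have hq2 : ContinuousOn (fun h => σ (χ₂ (w₂ + s * h)) * (deriv χ₂ (w₂ + s * h) * s))
      (ball 0 ε) := by
    refine ContinuousOn.mul (hσc.comp ?_ fun h hh => (hall h hh).2.2)
      (hc2.mul continuousOn_const)
    intro h hh
    exact (hd2 h (hall h hh).1.2).continuousAt.continuousWithinAt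
  have hs2 : s ^ 2 = 1 := by
    rcases hs with rfl | rfl <;> norm_num
  have hq1s : ∀ h ∈ ball (0 : ℂ) ε, (σ (χ₁ (w₁ + h)) * deriv χ₁ (w₁ + h)) ^ 2 = 1 := by
    intro h hh
    rw [mul_pow, hσ2 _ (hall h hh).2.1, mul_comm]
    exact h₁.eq _ (hall h hh).1.1
  have hq2s : ∀ h ∈ ball (0 : ℂ) ε,
      (σ (χ₂ (w₂ + s * h)) * (deriv χ₂ (w₂ + s * h) * s)) ^ 2 = 1 := by
    intro h hh
    rw [mul_pow, mul_pow, hσ2 _ (hall h hh).2.2, hs2, mul_one, mul_comm]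
    exact h₂.eq _ (hall h hh).1.2
  have h0 : (0 : ℂ) ∈ ball (0 : ℂ) ε := mem_ball_self hε
  have hq : EqOn (fun h => σ (χ₁ (w₁ + h)) * deriv χ₁ (w₁ + h))
      (fun h => σ (χ₂ (w₂ + s * h)) * (deriv χ₂ (w₂ + s * h) * s)) (ball 0 ε) := by
    have hpre : IsPreconnected (ball (0 : ℂ) ε) := (convex_ball _ _).isPreconnected
    have hne : ∀ {h : ℂ}, h ∈ ball (0 : ℂ) ε →
        (fun h => σ (χ₂ (w₂ + s * h)) * (deriv χ₂ (w₂ + s * h) * s)) h ≠ 0 := by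
      intro h hh h3
      have h4 := hq2s h hh
      simp only at h3
      rw [h3] at h4
      norm_num at h4
    rcases hpre.eq_or_eq_neg_of_sq_eq hq1 hq2 (fun h hh => by
      simp only [Pi.pow_apply]
      rw [hq1s h hh, hq2s h hh]) hne with h3 | h3
    · exact h3
    · exfalso
      have h4 := h3 h0
      have h5 := hq2s 0 h0
      simp only [add_zero, mul_zero, Pi.neg_apply] at h4 h5
      rw [← hχ] at h4 h5
      rw [hd, mul_comm s] at h4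
      have h6 : σ (χ₁ w₁) * (deriv χ₂ w₂ * s) = 0 := by linear_combination h4 / 2
      rw [h6] at h5
      norm_num at h5
  have hFd1 : ∀ h ∈ ball (0 : ℂ) ε, HasDerivAt (fun h => F (χ₁ (w₁ + h)))
      (σ (χ₁ (w₁ + h)) * deriv χ₁ (w₁ + h)) h := by
    intro h hh
    exact (hF _ (hall h hh).2.1).comp h (hd1 h (hall h hh).1.1)
  have hFd2 : ∀ h ∈ ball (0 : ℂ) ε, HasDerivAt (fun h => F (χ₂ (w₂ + s * h)))
      (σ (χ₂ (w₂ + s * h)) * (deriv χ₂ (w₂ + s * h) * s)) h := by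
    intro h hh
    exact (hF _ (hall h hh).2.2).comp h (hd2 h (hall h hh).1.2)
  intro h hh
  refine hinj (hall h hh).2.1 (hall h hh).2.2 ?_
  have hD : EqOn (fun h => F (χ₁ (w₁ + h))) (fun h => F (χ₂ (w₂ + s * h))) (ball 0 ε) := by
    refine isOpen_ball.eqOn_of_deriv_eq (convex_ball _ _).isPreconnected
      (fun h hh => (hFd1 h hh).differentiableAt.differentiableWithinAt)
      (fun h hh => (hFd2 h hh).differentiableAt.differentiableWithinAt) ?_ h0 ?_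
    · intro h hh
      rw [(hFd1 h hh).deriv, (hFd2 h hh).deriv]
      exact hq hh
    · simp only [add_zero, mul_zero]
      rw [hχ]
  exact hD hh



theorem NUX_core (P : Set ℂ) (B : ℂ → ℂ) (hPf : P.Finite) (hBd : DifferentiableOn ℂ B Pᶜ) (χ₁ χ₂ : ℂ → ℂ)
    (Ω₁ Ω₂ : Set ℂ) (w₁ w₂ s : ℂ) (hs : s = 1 ∨ s = -1) (hΩ₁ : IsOpen Ω₁) (hΩ₂ : IsOpen Ω₂)
    (h1 : IsNat P B χ₁ Ω₁) (h2 : IsNat P B χ₂ Ω₂) (hv : χ₁ w₁ = χ₂ w₂)
    (hd : deriv χ₁ w₁ = s * deriv χ₂ w₂) (K : Set ℂ) (hK : IsPreconnected K) (h0 : (0 : ℂ) ∈ K)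
    (hKA : ∀ h ∈ K, w₁ + h ∈ Ω₁ ∧ w₂ + s * h ∈ Ω₂) :
    ∀ h ∈ K, χ₁ (w₁ + h) = χ₂ (w₂ + s * h) ∧
      deriv χ₁ (w₁ + h) = s * deriv χ₂ (w₂ + s * h) := by
  have hc1 : Continuous fun y : ℂ => w₁ + y := by fun_prop
  have hc2 : Continuous fun y : ℂ => w₂ + s * y := by fun_prop
  obtain ⟨S, hSdef⟩ : ∃ S : Set ℂ, S = {h | (w₁ + h ∈ Ω₁ ∧ w₂ + s * h ∈ Ω₂) ∧
    χ₁ (w₁ + h) = χ₂ (w₂ + s * h) ∧ deriv χ₁ (w₁ + h) = s * deriv χ₂ (w₂ + s * h)} := ⟨_, rfl⟩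
  have hmem : ∀ h, h ∈ S ↔ (w₁ + h ∈ Ω₁ ∧ w₂ + s * h ∈ Ω₂) ∧
    χ₁ (w₁ + h) = χ₂ (w₂ + s * h) ∧ deriv χ₁ (w₁ + h) = s * deriv χ₂ (w₂ + s * h) := by
    intro h
    rw [hSdef]
    exact Iff.rfl
  have hSopen : IsOpen S := by
    rw [isOpen_iff_mem_nhds]
    intro h hh
    obtain ⟨⟨ha, hb⟩, hc, hdd⟩ := (hmem h).mp hh
    obtain ⟨ε, hε, hNL⟩ := NUX_loc P B hPf hBd χ₁ χ₂ Ω₁ Ω₂ (w₁ + h) (w₂ + s * h) s hΩ₁ hΩ₂ h1 h2 ha hb hc
      hs hdd
    have hval : ∀ x ∈ ball h ε, χ₁ (w₁ + x) = χ₂ (w₂ + s * x) := by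
      intro x hx
      have h3 := hNL (x - h) (by rw [mem_ball_zero_iff, ← dist_eq_norm]; exact hx)
      have e1 : w₁ + h + (x - h) = w₁ + x := by ring
      have e2 : w₂ + s * h + s * (x - h) = w₂ + s * x := by ring
      rwa [e1, e2] at h3
    have hn1 : ∀ᶠ x in 𝓝 h, w₁ + x ∈ Ω₁ := hc1.continuousAt.eventually (hΩ₁.mem_nhds ha)
    have hn2 : ∀ᶠ x in 𝓝 h, w₂ + s * x ∈ Ω₂ := hc2.continuousAt.eventually (hΩ₂.mem_nhds hb)
    filter_upwards [isOpen_ball.mem_nhds (mem_ball_self hε), hn1, hn2] with x hx hx1 hx2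
    refine (hmem x).mpr ⟨⟨hx1, hx2⟩, hval x hx, ?_⟩
    have d1 : HasDerivAt (fun y : ℂ => χ₁ (w₁ + y)) (deriv χ₁ (w₁ + x)) x := by
      have h4 : HasDerivAt χ₁ (deriv χ₁ (w₁ + x)) (w₁ + x) :=
        (h1.diff.differentiableAt (hΩ₁.mem_nhds hx1)).hasDerivAt
      have h5 : HasDerivAt (fun y : ℂ => w₁ + y) 1 x := (hasDerivAt_id x).const_add w₁
      have h6 := h4.comp x h5
      rw [mul_one] at h6
      exact h6
    have d2 : HasDerivAt (fun y : ℂ => χ₂ (w₂ + s * y)) (deriv χ₂ (w₂ + s * x) * s) x := by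
      have h4 : HasDerivAt χ₂ (deriv χ₂ (w₂ + s * x)) (w₂ + s * x) :=
        (h2.diff.differentiableAt (hΩ₂.mem_nhds hx2)).hasDerivAt
      have h5 : HasDerivAt (fun y : ℂ => w₂ + s * y) s x := by
        have h7 := ((hasDerivAt_id x).const_mul s).const_add w₂
        rw [mul_one] at h7
        exact h7
      exact h4.comp x h5
    have h8 : (fun y : ℂ => χ₁ (w₁ + y)) =ᶠ[𝓝 x] fun y : ℂ => χ₂ (w₂ + s * y) := by
      filter_upwards [isOpen_ball.mem_nhds hx] with y hy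
      exact hval y hy
    rw [mul_comm]
    exact d1.unique (d2.congr_of_eventuallyEq h8)
  have hsub : K ⊆ S := by
    refine hK.subset_of_closure_inter_subset hSopen ⟨0, h0, (hmem 0).mpr ⟨hKA 0 h0, ?_, ?_⟩⟩ ?_
    · rw [add_zero, mul_zero, add_zero]
      exact hv
    · rw [add_zero, mul_zero, add_zero]
      exact hd
    · rintro h ⟨hcl, hKh⟩
      obtain ⟨ha, hb⟩ := hKA h hKh
      have hNB : (𝓝[S] h).NeBot := mem_closure_iff_nhdsWithin_neBot.mp hcl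
      have c1 : ContinuousAt (fun y : ℂ => χ₁ (w₁ + y)) h :=
        ContinuousAt.comp (f := fun y : ℂ => w₁ + y) (g := χ₁)
          (h1.diff.differentiableAt (hΩ₁.mem_nhds ha)).continuousAt hc1.continuousAt
      have c2 : ContinuousAt (fun y : ℂ => χ₂ (w₂ + s * y)) h :=
        ContinuousAt.comp (f := fun y : ℂ => w₂ + s * y) (g := χ₂)
          (h2.diff.differentiableAt (hΩ₂.mem_nhds hb)).continuousAt hc2.continuousAt
      have c3 : ContinuousAt (fun y : ℂ => deriv χ₁ (w₁ + y)) h :=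
        ContinuousAt.comp (f := fun y : ℂ => w₁ + y) (g := deriv χ₁)
          ((h1.diff.deriv hΩ₁).differentiableAt (hΩ₁.mem_nhds ha)).continuousAt hc1.continuousAt
      have c4 : ContinuousAt (fun y : ℂ => deriv χ₂ (w₂ + s * y)) h :=
        ContinuousAt.comp (f := fun y : ℂ => w₂ + s * y) (g := deriv χ₂)
          ((h2.diff.deriv hΩ₂).differentiableAt (hΩ₂.mem_nhds hb)).continuousAt hc2.continuousAt
      have c5 : ContinuousAt (fun y : ℂ => s * deriv χ₂ (w₂ + s * y)) h := continuousAt_const.mul c4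
      refine (hmem h).mpr ⟨⟨ha, hb⟩, ?_, ?_⟩
      · refine tendsto_nhds_unique_of_eventuallyEq (l := 𝓝[S] h)
          (c1.tendsto.mono_left nhdsWithin_le_nhds)
          (c2.tendsto.mono_left nhdsWithin_le_nhds) ?_
        filter_upwards [self_mem_nhdsWithin] with y hy
        exact ((hmem y).mp hy).2.1
      · refine tendsto_nhds_unique_of_eventuallyEq (l := 𝓝[S] h)
          (c3.tendsto.mono_left nhdsWithin_le_nhds)
          (c5.tendsto.mono_left nhdsWithin_le_nhds) ?_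
        filter_upwards [self_mem_nhdsWithin] with y hy
        exact ((hmem y).mp hy).2.2
  intro h hh
  exact ((hmem h).mp (hsub hh)).2

theorem NUX : NUX_stmt := by
  intro P B χ₁ χ₂ Ω₁ Ω₂ w₁ w₂ hPf hBd hΩ₁ hΩ₂ h1 h2 hw₁ hw₂ hv
  obtain ⟨s, hs, hd⟩ : ∃ s : ℂ, (s = 1 ∨ s = -1) ∧ deriv χ₁ w₁ = s * deriv χ₂ w₂ := by
    have e1 := h1.eq w₁ hw₁
    have e2 := h2.eq w₂ hw₂
    rw [hv] at e1
    have hB : B (χ₂ w₂) ≠ 0 := by
      intro h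
      rw [h, mul_zero] at e2
      exact zero_ne_one e2
    have e3 : deriv χ₁ w₁ ^ 2 = deriv χ₂ w₂ ^ 2 := by
      apply mul_right_cancel₀ hB
      rw [e1, e2]
    rcases sq_eq_sq_iff_eq_or_eq_neg.mp e3 with h | h
    · exact ⟨1, Or.inl rfl, by rw [one_mul]; exact h⟩
    · exact ⟨-1, Or.inr rfl, by rw [neg_one_mul]; exact h⟩
  refine ⟨s, hs, hd, ?_, ?_⟩
  · intro K _ hK h0 hKA h hh
    exact (NUX_core P B hPf hBd χ₁ χ₂ Ω₁ Ω₂ w₁ w₂ s hs hΩ₁ hΩ₂ h1 h2 hv hd K hK h0 hKA h hh).1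
  · intro h₀ hseg
    have hK : IsPreconnected ((fun t : ℝ => (t : ℂ) * h₀) '' Icc (0 : ℝ) 1) := by
      refine isPreconnected_Icc.image _ (Continuous.continuousOn ?_)
      exact Complex.continuous_ofReal.mul continuous_const
    refine NUX_core P B hPf hBd χ₁ χ₂ Ω₁ Ω₂ w₁ w₂ s hs hΩ₁ hΩ₂ h1 h2 hv hd _ hK ?_ ?_ h₀ ?_
    · exact ⟨0, left_mem_Icc.mpr zero_le_one, by simp⟩
    · rintro _ ⟨t, ht, rfl⟩
      exact hseg t ht
    · exact ⟨1, right_mem_Icc.mpr zero_le_one, by simp⟩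

end WPS

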