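import Pool.Agent.helper52.WP.SpecS

/-!
# Project v3: module PH3, the conclusion of the chain step (adapted from helper16/PP/PH2.lean)
-/

set_option autoImplicit false

open Complex Metric Set Filter Topology MeasureTheory
open PPS (fd fdd pre TT CV Br cn)
open MPS (PsiM)

noncomputable section

open XPS (IsNat er Df dens brv tau lev d3 e3 eT)

namespace WPS

section
variable {n k : ℕ} {f : Polynomial ℂ} {P : Set ℂ} {B : ℂ → ℂ}
  {R E η h r₀ : ℝ} {χ : ℂ → ℂ} {G0 : ℕ → ℂ → ℂ} {PP : Finset ℕ} {M : ℕ} {T : ℕ → ℝ} {G : ℕ → ℂ → ℂ}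
  {Q : ℕ}

theorem PH3_restrict (H : H3 n k f P B R E η h r₀ χ G0 PP M T G Q) {q : ℕ} (hq : q ≤ Q) :
    H3 n k f P B R E η h r₀ χ G0 PP M T G q := by
  refine ⟨H.su3, ⟨H.sys.t0, fun p hp => H.sys.anti p (by omega), fun p hp => H.sys.pos p (by omega),
    H.sys.g0, fun p hp => H.sys.diff p (by omega), fun p hp => H.sys.rel p (by omega),
    fun p hp => H.sys.val p (by omega), fun p h1 hp => H.sys.disj p h1 (by omega)⟩,
    hq.trans H.hQ⟩

theorem PH3_anti (H : H3 n k f P B R E η h r₀ χ G0 PP M T G Q) {p q : ℕ} (hpq : p ≤ q)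
    (hq : q ≤ Q) : T q ≤ T p := by
  induction q, hpq using Nat.le_induction with
  | base => exact le_rfl
  | succ q hpq ih => exact (H.sys.anti q (by omega)).trans (ih (by omega))

theorem PH3_iter (H : H3 n k f P B R E η h r₀ χ G0 PP M T G Q) {p : ℕ} (hp : p ≤ Q) {w : ℂ}
    (hw : w ∈ ball (0 : ℂ) (T p)) {q : ℕ} (hq : q ≤ p) :
    (fun z : ℂ => f.eval z)^[q] (G p w) = G (p - q) w := by
  induction q with
  | zero => simp
  | succ q ih =>
    rw [Function.iterate_succ_apply', ih (by omega)]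
    have h1 : p - q = (p - (q + 1)) + 1 := by omega
    rw [h1]
    refine (H.sys.rel (p - (q + 1)) (by omega) w ?_).1
    rw [← h1]
    exact ball_subset_ball (PH3_anti H (Nat.sub_le _ _) hp) hw

/-- the radii without a branch at the level `q`. -/
def PH3_J (f : Polynomial ℂ) (h : ℝ) (χ : ℂ → ℂ) (G0 : ℕ → ℂ → ℂ) (PP : Finset ℕ) (T : ℕ → ℝ)
    (G : ℕ → ℂ → ℂ) (q : ℕ) : Set ℝ :=
  {r | 3 * h / 4 < r ∧ T (q + 1) < r ∧ r < T q ∧
    (1 ≤ q → q ∉ PP → Disjoint (G q '' ball 0 r) (χ '' ball 0 h)) ∧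
    ¬ Br f (G q) (ball 0 r) 0 (G0 (q + 1) 0)}

theorem PH3_vol (hEV3 : EV3_stmt) (H : H3 n k f P B R E η h r₀ χ G0 PP M T G k)
    (hε : eT M E η ≤ e3 n M h r₀)
    (hfail : ∀ q < k, ∀ r, T (q + 1) < r → r < T q → Fail3 f h χ G0 PP G q r) {q : ℕ} (hq : q < k) :
    volume (PH3_J f h χ G0 PP T G q) ≤ ENNReal.ofReal (d3 n M h r₀) := by
  have hsub : PH3_J f h χ G0 PP T G q ⊆ Ioo (T (q + 1)) (T (q + 1) + d3 n M h r₀) := by
    rintro r ⟨h1, h2, h3, h4, h5⟩
    refine ⟨h2, ?_⟩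
    refine hEV3 n k f P B R E η h r₀ χ G0 PP M T G q (PH3_restrict H (by omega)) hε r h3.le h4 ?_
    intro r' hr1 hr2
    rcases hfail q hq r' hr1 (hr2.trans_lt h3) with h6 | h6
    · exact absurd ((h4 h6.1 h6.2.1).mono_left (image_mono (ball_subset_ball hr2))) h6.2.2
    · exact h6
  refine (measure_mono hsub).trans ?_
  rw [Real.volume_Ioo]
  exact ENNReal.ofReal_le_ofReal (by linarith)

theorem PH3_crit (hLIFT : PPS.LIFT_stmt) (H : H3 n k f P B R E η h r₀ χ G0 PP M T G k) {q : ℕ} (hq : q < k)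
    {r : ℝ} (hr : r ∈ PH3_J f h χ G0 PP T G q) :
    ∃ w ∈ ball (0 : ℂ) r, G q w ∈ CV f := by
  obtain ⟨h1, h2, h3, h4, h5⟩ := hr
  by_contra hcon
  push Not at hcon
  have hh : 0 < h := H.su3.h0
  apply h5
  have hx : (0 : ℂ) ∈ ball (0 : ℂ) (T (q + 1)) := mem_ball_self (H.sys.pos (q + 1) (by omega))
  refine hLIFT f (ball 0 r) (G q) 0 (G0 (q + 1) 0) ?_ isOpen_ball
    (convex_ball _ _) ?_ hcon (mem_ball_self (by linarith)) ?_
  · rw [H.su3.hdeg]; linarith [H.su3.hn]
  · exact (H.sys.diff q (by omega)).mono (ball_subset_ball h3.le)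
  · have h6 := (H.sys.rel q hq _ hx).1
    rw [H.sys.val (q + 1) (by omega)] at h6
    exact h6

theorem PH3_pair (H : H3 n k f P B R E η h r₀ χ G0 PP M T G k) {q₁ q₂ : ℕ} (h12 : q₁ < q₂)
    (h2 : q₂ < k) {r₁ r₂ : ℝ} (n1 : r₁ ∈ PH3_J f h χ G0 PP T G q₁)
    (n2 : r₂ ∈ PH3_J f h χ G0 PP T G q₂) {w w' : ℂ} (hw : w ∈ ball (0 : ℂ) r₁)
    (hw' : w' ∈ ball (0 : ℂ) r₂) (he : G q₁ w = G q₂ w') : q₂ - q₁ ∈ PP := by
  obtain ⟨hr1, -, hr1T, -, -⟩ := n1
  obtain ⟨hr2, -, hr2T, hgood, -⟩ := n2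
  have hwT : w ∈ ball (0 : ℂ) (T q₁) := ball_subset_ball hr1T.le hw
  have hwT' : w' ∈ ball (0 : ℂ) (T q₂) := ball_subset_ball hr2T.le hw'
  have e1 := PH3_iter H (by omega : q₁ ≤ k) hwT le_rfl
  have e2 := PH3_iter H h2.le hwT' h12.le
  rw [Nat.sub_self, H.sys.g0, he] at e1
  rw [e1] at e2
  have hT0 : T q₁ ≤ h := (PH3_anti H (Nat.zero_le q₁) (by omega)).trans H.sys.t0
  have hwρ : w ∈ ball (0 : ℂ) h := ball_subset_ball hT0 hwT
  by_contra hne
  rcases Nat.eq_zero_or_pos q₁ with h0 | h0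
  · subst h0
    rw [Nat.sub_zero] at hne e2
    have hd := hgood (by omega) hne
    rw [Set.disjoint_left] at hd
    exact hd ⟨w', hw', rfl⟩ ⟨w, hwρ, e2⟩
  · have hd := H.sys.disj (q₂ - q₁) (by omega) (by omega) hne
    rw [Set.disjoint_left] at hd
    refine hd ⟨w', ?_, rfl⟩ ⟨w, hwρ, e2⟩
    exact ball_subset_ball (PH3_anti H (by omega) h2.le) hwT'

theorem PH3_card (hLIFT : PPS.LIFT_stmt) (hPRB : PPS.PRB_stmt) (H : H3 n k f P B R E η h r₀ χ G0 PP M T G k)
    (F : Finset ℕ) (hF : ∀ q ∈ F, q < k ∧ (PH3_J f h χ G0 PP T G q).Nonempty) :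
    F.card ≤ (M + 1) * (n - 1) := by
  classical
  have hdeg1 : 1 ≤ f.natDegree := by rw [H.su3.hdeg]; linarith [H.su3.hn]
  obtain ⟨-, -, -, -, hfin, hcard⟩ := hPRB f hdeg1
  have hex : ∀ q : ℕ, ∃ (r : ℝ) (w : ℂ), q ∈ F → r ∈ PH3_J f h χ G0 PP T G q ∧ w ∈ ball (0 : ℂ) r ∧
      G q w ∈ CV f := by
    intro q
    by_cases hq : q ∈ F
    · obtain ⟨hqk, r, hr⟩ := hF q hq
      obtain ⟨w, hw, hc⟩ := PH3_crit hLIFT H hqk hr
      exact ⟨r, w, fun _ => ⟨hr, hw, hc⟩⟩
    · exact ⟨0, 0, fun h => absurd h hq⟩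
  choose r w hrw using hex
  have hpair : ∀ p ∈ F, ∀ q ∈ F, G p (w p) = G q (w q) → p < q → q - p ∈ PP := fun p hp q hq he hpq =>
    PH3_pair H hpq (hF q hq).1 (hrw p hp).1 (hrw q hq).1 (hrw p hp).2.1 (hrw q hq).2.1 he
  have h1 : F.card ≤ (M + 1) * (F.image (fun q => G q (w q))).card := by
    apply Finset.card_le_mul_card_image
    intro v hv
    set Fv := F.filter (fun q => G q (w q) = v) with hFv
    rcases Fv.eq_empty_or_nonempty with h0 | hne
    · rw [h0, Finset.card_empty]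
      omega
    · set q₀ := Fv.min' hne with hq₀
      have hq₀m : q₀ ∈ Fv := Finset.min'_mem _ _
      have h2 : (Fv.erase q₀).card ≤ PP.card := by
        apply Finset.card_le_card_of_injOn (fun q => q - q₀)
        · intro q hq
          rw [Finset.mem_coe, Finset.mem_erase] at hq
          rw [Finset.mem_coe]
          have hlt : q₀ < q := by
            have := Finset.min'_le Fv q hq.2
            rw [← hq₀] at this
            omega
          have hm1 := (Finset.mem_filter.1 hq₀m)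
          have hm2 := (Finset.mem_filter.1 hq.2)
          exact hpair q₀ hm1.1 q hm2.1 (hm1.2.trans hm2.2.symm) hlt
        · intro q hq q' hq' he
          rw [Finset.mem_coe, Finset.mem_erase] at hq hq'
          have i1 := Finset.min'_le Fv q hq.2
          have i2 := Finset.min'_le Fv q' hq'.2
          rw [← hq₀] at i1 i2
          simp only at he
          omega
      have h3 := Finset.card_erase_add_one hq₀m
      have h4 := H.su3.hM
      omega
  have h2 : (F.image (fun q => G q (w q))).card ≤ n - 1 := by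
    have h3 : ((F.image (fun q => G q (w q)) : Finset ℂ) : Set ℂ) ⊆ CV f := by
      intro v hv
      rw [Finset.mem_coe, Finset.mem_image] at hv
      obtain ⟨q, hq, rfl⟩ := hv
      exact (hrw q hq).2.2
    have h4 := Set.ncard_le_ncard h3 hfin
    rw [Set.ncard_coe_finset] at h4
    rw [H.su3.hdeg] at hcard
    exact h4.trans hcard
  calc F.card ≤ (M + 1) * (F.image (fun q => G q (w q))).card := h1
    _ ≤ (M + 1) * (n - 1) := Nat.mul_le_mul_left _ h2

theorem PH3_final (hS3G : S3G_stmt) (hMU3 : MU3_stmt) (hREACH3 : REACH3_stmt) (hEV3 : EV3_stmt)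
    (hCHEB : MPS.CHEB_stmt) (hLIFT : PPS.LIFT_stmt) (hPRB : PPS.PRB_stmt)
    (H : H3 n k f P B R E η h r₀ χ G0 PP M T G k)
    (hε : eT M E η ≤ e3 n M h r₀) (hT0 : T 0 = h)
    (hfail : ∀ q < k, ∀ r, T (q + 1) < r → r < T q → Fail3 f h χ G0 PP G q r) :
    3 * h / 4 < T k := by
  classical
  by_contra hcon
  rw [not_lt] at hcon
  have hh : 0 < h := H.su3.h0
  have hn : 2 ≤ n := H.su3.hn
  obtain ⟨-, -, -, -, hε0, hd0, -, hd2, -, he2⟩ := hS3G n k f P B R E η h r₀ χ G0 PP M H.su3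
  obtain ⟨μ, hμ, hMu⟩ := hMU3 n k f P B R E η h r₀ χ G0 PP M T G k H
  have hM0 : (0 : ℝ) ≤ M := Nat.cast_nonneg M
  have hε7 : eT M E η ≤ h ^ 2 / 256 := hε.trans he2
  -- the set of type (i)
  set S1 : Set ℝ := {r | ENNReal.ofReal h ≤ PsiM μ (h / 8) (h - r)} with hS1
  have hS1v : volume S1 ≤ ENNReal.ofReal (h / 16) := by
    have h1 := hCHEB μ (h / 8) (eT M E η) h (by positivity) (by positivity) hh hμ
    have h2 : volume S1 = volume {s : ℝ | ENNReal.ofReal h ≤ PsiM μ (h / 8) s} :=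
      MeasurePreserving.measure_preimage_equiv (f := MeasurableEquiv.subLeft h)
        (Measure.measurePreserving_sub_left (volume : Measure ℝ) h)
        {s : ℝ | ENNReal.ofReal h ≤ PsiM μ (h / 8) s}
    rw [h2]
    refine h1.trans (ENNReal.ofReal_le_ofReal ?_)
    have hπ : (3 : ℝ) < Real.pi := Real.pi_gt_three
    rw [div_le_iff₀ (by positivity)]
    have h4 : h ^ 2 * h * 3 ≤ h ^ 2 * h * Real.pi := by gcongr
    have h5 : h * eT M E η ≤ h * (h ^ 2 / 256) := by gcongr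
    have h6 : 0 < h ^ 2 * h := by positivity
    nlinarith
  set F : Finset ℕ := (Finset.range k).filter
    fun q => (PH3_J f h χ G0 PP T G q).Nonempty with hF
  have hFm : ∀ q ∈ F, q < k ∧ (PH3_J f h χ G0 PP T G q).Nonempty := by
    intro q hq
    rw [hF, Finset.mem_filter, Finset.mem_range] at hq
    exact hq
  have hFc : F.card ≤ (M + 1) * (n - 1) := PH3_card hLIFT hPRB H F hFm
  set D : Set ℝ := T '' ((Finset.range (k + 1) : Finset ℕ) : Set ℕ) with hD
  have hDv : volume D = 0 := ((Finset.finite_toSet _).image T).measure_zero _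
  have hcov : Ioo (3 * h / 4) h ⊆ S1 ∪ ((⋃ q ∈ F, PH3_J f h χ G0 PP T G q) ∪ D) := by
    intro r hr
    by_cases hrD : r ∈ D
    · exact Or.inr (Or.inr hrD)
    have hrne : ∀ q, q ≤ k → r ≠ T q := by
      intro q hq hrq
      exact hrD ⟨q, by simpa using Nat.lt_succ_of_le hq, hrq.symm⟩
    -- the maximal q with r < T q
    obtain ⟨q, hqk, hrq, hlow⟩ : ∃ q, q < k ∧ r < T q ∧ T (q + 1) < r := by
      have hex : ∃ q ∈ (Finset.range (k + 1)).filter (fun q => r < T q),
          ∀ p ∈ (Finset.range (k + 1)).filter (fun q => r < T q), p ≤ q :=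
        Finset.exists_max_image _ (fun q => q) ⟨0, by simp [hT0, hr.2]⟩
      obtain ⟨q, hq, hmax⟩ := hex
      rw [Finset.mem_filter, Finset.mem_range] at hq
      have hqk : q < k := by
        rcases Nat.lt_or_ge q k with h1 | h1
        · exact h1
        · have h2 : q = k := by omega
          rw [h2] at hq
          linarith [hq.2, hr.1]
      refine ⟨q, hqk, hq.2, ?_⟩
      by_contra hcon'
      have h1 : r < T (q + 1) := lt_of_le_of_ne (not_lt.1 hcon') (hrne (q + 1) (by omega))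
      have h2 := hmax (q + 1) (by
        rw [Finset.mem_filter, Finset.mem_range]
        exact ⟨by omega, h1⟩)
      omega
    have hF2 := hfail q hqk r hlow hrq
    by_cases hA : 1 ≤ q ∧ q ∉ PP ∧ ¬ Disjoint (G q '' ball 0 r) (χ '' ball 0 h)
    · left
      exact hREACH3 n k f P B R E η h r₀ χ G0 PP M T G k μ H hε hMu q r hA.1 hqk hqk.le hA.2.1
        hr.1.le hrq.le hA.2.2
    · right
      left
      have hc : ¬ Br f (G q) (ball 0 r) 0 (G0 (q + 1) 0) := by
        rcases hF2 with h1 | h1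
        · exact absurd h1 hA
        · exact h1
      have hmem : r ∈ PH3_J f h χ G0 PP T G q := by
        refine ⟨hr.1, hlow, hrq, fun h1 h2 => ?_, hc⟩
        by_contra h3
        exact hA ⟨h1, h2, h3⟩
      have hqF : q ∈ F := by
        rw [hF, Finset.mem_filter, Finset.mem_range]
        exact ⟨hqk, r, hmem⟩
      exact mem_biUnion hqF hmem
  have hnR : (0 : ℝ) < n := by exact_mod_cast (by omega : 0 < n)
  have hvol : volume (Ioo (3 * h / 4) h) ≤ ENNReal.ofReal (h / 16 + h / 16) := by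
    calc volume (Ioo (3 * h / 4) h) ≤ volume (S1 ∪ ((⋃ q ∈ F, PH3_J f h χ G0 PP T G q) ∪ D)) :=
          measure_mono hcov
      _ ≤ volume S1 + volume ((⋃ q ∈ F, PH3_J f h χ G0 PP T G q) ∪ D) :=
          measure_union_le _ _
      _ ≤ volume S1 + (volume (⋃ q ∈ F, PH3_J f h χ G0 PP T G q) + volume D) := by
          gcongr
          exact measure_union_le _ _
      _ ≤ ENNReal.ofReal (h / 16) + (∑ q ∈ F, ENNReal.ofReal (d3 n M h r₀) + 0) := by
          refine add_le_add hS1v (add_le_add ?_ hDv.le)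
          refine (measure_biUnion_finset_le F _).trans (Finset.sum_le_sum fun q hq => ?_)
          exact PH3_vol hEV3 H hε hfail (hFm q hq).1
      _ ≤ ENNReal.ofReal (h / 16) + ENNReal.ofReal (h / 16) := by
          refine add_le_add le_rfl ?_
          rw [add_zero, Finset.sum_const, nsmul_eq_mul, ← ENNReal.ofReal_natCast,
            ← ENNReal.ofReal_mul (by positivity)]
          refine ENNReal.ofReal_le_ofReal ?_
          have h1 : (F.card : ℝ) ≤ (M + 1) * n := by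
            have : F.card ≤ (M + 1) * n := hFc.trans (Nat.mul_le_mul_left _ (by omega))
            exact_mod_cast this
          calc (F.card : ℝ) * d3 n M h r₀ ≤ ((M + 1) * n) * (h / (16 * (M + 1) * n)) := by gcongr
            _ = h / 16 := by field_simp
      _ = ENNReal.ofReal (h / 16 + h / 16) := by
          rw [ENNReal.ofReal_add (by positivity) (by positivity)]
  rw [Real.volume_Ioo, ENNReal.ofReal_le_ofReal_iff (by positivity)] at hvol
  linarith

end

theorem PH3 (hS3G : S3G_stmt) (hSEQ3 : SEQ3_stmt) (hMU3 : MU3_stmt) (hREACH3 : REACH3_stmt)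
    (hEV3 : EV3_stmt) (hCHEB : MPS.CHEB_stmt) (hLIFT : PPS.LIFT_stmt) (hPRB : PPS.PRB_stmt) : PH3_stmt := by
  intro n k f P B R E η h r₀ χ G0 PP M hSU hε
  obtain ⟨T, G, hH, hT, hF⟩ := hSEQ3 n k f P B R E η h r₀ χ G0 PP M hSU
  refine ⟨T k, G, PH3_final hS3G hMU3 hREACH3 hEV3 hCHEB hLIFT hPRB hH hε hT hF, hSU, ?_, le_rfl⟩
  have hle : ∀ q ≤ k, T k ≤ T q := fun q hq => PH3_anti hH hq le_rfl
  exact
    { t0 := (hle 0 (by omega)).trans hH.sys.t0
      anti := fun _ _ => le_rfl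
      pos := fun q _ => hH.sys.pos k le_rfl
      g0 := hH.sys.g0
      diff := fun q hq => (hH.sys.diff q hq).mono (ball_subset_ball (hle q hq))
      rel := fun q hq w hw => hH.sys.rel q hq w (ball_subset_ball (hle (q + 1) (by omega)) hw)
      val := hH.sys.val
      disj := fun q h1 h2 h3 => (hH.sys.disj q h1 h2 h3).mono_left
        (image_mono (ball_subset_ball (hle (q + 1) (by omega)))) }

end WPS
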