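import Pool.Agent.helper52.WP.SpecS
import Pool.Agent.helper82.MP.REACH2

set_option autoImplicit false

/-! # Project v3, REACH3: reaching the flat disc (adapted from helper97/PP/REACH2.lean) -/

open Complex Metric Set Filter Topology MeasureTheory
open PPS (fd fdd pre TT CV Br cn)
open MPS (PsiM)

noncomputable section

open XPS (IsNat er Df dens brv tau lev d3 e3 eT)

namespace WPS

theorem REACH3 (hNPL : NPLX_stmt) (hLEA : LEAX_stmt) (hS3G : S3G_stmt) (hS3A : S3A_stmt)
    (hPT3 : PT3_stmt) : REACH3_stmt := by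
  intro n k f P B R E η h r₀ χ G0 PP M T G Q μ hH hε hMu p r hp1 hpk hpQ hps hr1 hr2 hnd
  by_contra hcon
  rw [not_le] at hcon
  have hSU := hH.su3
  have hh0 : 0 < h := hSU.h0
  have hsys := hH.sys
  obtain ⟨hs0, -, hchi, -, hε0, -, -, -, -, he3⟩ := hS3G n k f P B R E η h r₀ χ G0 PP M hSU
  -- radii
  have hTp : T p ≤ h := by
    have : ∀ q, q ≤ Q → T q ≤ h := by
      intro q
      induction q with
      | zero => intro _; exact hsys.t0
      | succ q ih => intro hq; exact (hsys.anti q hq).trans (ih (Nat.le_of_succ_le hq))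
    exact this p hpQ
  -- the level system
  obtain ⟨-, -, -, hLev, -, -, -⟩ := hS3A n k f P B R E η h r₀ χ G0 PP M T G Q hH
  have hlev := hLev p hpQ
  have hav := (hLEA f P B G _ p hSU.ad isOpen_ball hlev).1 p le_rfl
  have hpt := hPT3 n k f P B R E η h r₀ χ G0 PP M T G Q hH p hp1 hpQ
  have hdiff := hlev.diff p le_rfl
  obtain ⟨z, ⟨w₁, hw₁, hzw⟩, ⟨v₁, hv₁, hzv⟩⟩ := not_disjoint_iff.1 hnd
  have hwv : G p w₁ = χ v₁ := by rw [hzw, hzv]
  rw [mem_ball_zero_iff] at hw₁ hv₁
  -- the bound of `ε`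
  have hεb : eT M E η ≤ h ^ 2 / 256 := hε.trans he3
  -- open sets
  have hΩ : IsOpen (ball (0 : ℂ) (16 * h)) := isOpen_ball
  have hball : ∀ (v v' : ℂ) (s : ℝ), ‖v'‖ + s < 16 * h → v ∈ ball v' s →
      v ∈ ball (0 : ℂ) (16 * h) := by
    intro v v' s hs hv
    rw [mem_ball, dist_eq_norm] at hv
    rw [mem_ball_zero_iff]
    have e : v = (v - v') + v' := by ring
    have h1 := norm_add_le (v - v') v'
    rw [← e] at h1
    linarith
  -- the second path
  have second : ∀ w₂ v₂ : ℂ, ‖w₂‖ ≤ r - h / 8 → ‖v₂‖ < 17 / 8 * h → G p w₂ = χ v₂ →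
      ∃ v₃ : ℂ, ‖v₃‖ < 4 * h ∧ χ v₃ = G p 0 := by
    intro w₂ v₂ h1 h2 h3
    have hbound : ∀ t ∈ Icc (0 : ℝ) 1, ‖w₂ + t * (0 - w₂)‖ ≤ r - h / 8 := by
      intro t ht
      have hc := (convex_closedBall (0 : ℂ) (r - h / 8)).add_smul_sub_mem (x := w₂) (y := 0)
        (by rw [mem_closedBall_zero_iff]; exact h1)
        (by rw [mem_closedBall_zero_iff, norm_zero]; linarith) ht
      rw [mem_closedBall_zero_iff, Complex.real_smul] at hc
      exact hc
    have hlen : (∫ t in (0 : ℝ)..1, ‖(0 : ℂ) - w₂‖ * Real.sqrt ‖deriv (G p) (w₂ + t * (0 - w₂)) ^ 2 *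
        B (G p (w₂ + t * (0 - w₂)))‖) ≤ 3 / 2 * h := by
      have hh : ∀ t ∈ Set.uIoc (0 : ℝ) 1, ‖‖(0 : ℂ) - w₂‖ * Real.sqrt ‖deriv (G p) (w₂ + t * (0 - w₂)) ^ 2 *
          B (G p (w₂ + t * (0 - w₂)))‖‖ ≤ 3 / 2 * h := by
        intro t ht
        rw [uIoc_of_le zero_le_one] at ht
        have h4 := hbound t ⟨ht.1.le, ht.2⟩
        obtain ⟨h5, h6⟩ := hpt (w₂ + t * (0 - w₂)) (h / 8) (by linarith) (by
          linarith)
        have h7 : eT M E η / (h / 8) ^ 2 ≤ 1 / 4 := by
          rw [div_le_iff₀ (by positivity)]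
          nlinarith [hεb]
        have h8 : ‖tau B G p (w₂ + t * (0 - w₂)) - 1‖ ≤ 1 / 4 := h6.trans (h5.trans h7)
        have h9 : Real.sqrt ‖tau B G p (w₂ + t * (0 - w₂))‖ ≤ 3 / 2 := by
          refine (MPS.REACH2_sqrt).trans ?_
          have : Real.sqrt ‖tau B G p (w₂ + t * (0 - w₂)) - 1‖ ≤ 1 / 2 := by
            apply Real.sqrt_le_iff.2
            refine ⟨by norm_num, h8.trans (by norm_num)⟩
          linarith
        have h10 : ‖(0 : ℂ) - w₂‖ ≤ h := by
          rw [norm_sub_rev, sub_zero]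
          linarith
        rw [Real.norm_of_nonneg (by positivity)]
        have h11 := mul_le_mul h10 h9 (Real.sqrt_nonneg _) (by linarith)
        have h12 : ‖(0 : ℂ) - w₂‖ * Real.sqrt ‖deriv (G p) (w₂ + t * (0 - w₂)) ^ 2 *
          B (G p (w₂ + t * (0 - w₂)))‖ ≤ h * (3 / 2) := h11
        linarith
      have := intervalIntegral.norm_integral_le_of_norm_le_const hh
      rw [sub_zero, abs_one, mul_one] at this
      exact (le_abs_self _).trans this
    obtain ⟨v₃, h4, h5⟩ := hNPL P B χ (G p) _ (ball 0 (T p)) v₂ w₂ 0 (7 / 4 * h) hSU.ad.fin hSU.ad.dif hΩ isOpen_ball hSU.nat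
      (fun v hv => hball v v₂ _ (by linarith) hv) hdiff hav
      ((convex_ball (0 : ℂ) (T p)).segment_subset (by rw [mem_ball_zero_iff]; linarith)
        (by rw [mem_ball_zero_iff, norm_zero]; linarith)) h3 (by linarith)
    refine ⟨v₃, ?_, h5⟩
    have : v₃ = (v₃ - v₂) + v₂ := by ring
    rw [this]
    exact (norm_add_le _ _).trans_lt (by linarith)
  -- the first path
  have first : ∃ w₂ v₂ : ℂ, ‖w₂‖ ≤ r - h / 8 ∧ ‖v₂‖ < 17 / 8 * h ∧ G p w₂ = χ v₂ := by
    by_cases hw : ‖w₁‖ ≤ r - h / 8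
    · exact ⟨w₁, v₁, hw, by linarith, hwv⟩
    · rw [not_le] at hw
      set a := ‖w₁‖ with ha
      have ha0 : 0 < a := by linarith
      set κ : ℝ := (r - h / 8) / a with hκ
      have hκ0 : 0 < κ := div_pos (by linarith) ha0
      have hκ1 : κ < 1 := (div_lt_one ha0).2 hw
      have hκa : κ * a = r - h / 8 := div_mul_cancel₀ _ ha0.ne'
      set w₂ : ℂ := κ * w₁ with hw₂
      have hw₂x : ‖w₂‖ = r - h / 8 := by
        rw [hw₂, norm_mul, Complex.norm_real, Real.norm_of_nonneg hκ0.le, ← ha, hκa]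
      have hl : ‖w₂ - w₁‖ = a - (r - h / 8) := by
        have e : w₂ - w₁ = -(((1 - κ : ℝ) : ℂ) * w₁) := by
          rw [hw₂]
          push_cast
          ring
        rw [e, norm_neg, norm_mul, Complex.norm_real, Real.norm_of_nonneg (by linarith), ← ha]
        linear_combination (-1 : ℝ) * hκa
      have hpath : ∀ t ∈ Icc (0 : ℝ) 1, ‖w₁ + t * (w₂ - w₁)‖ = a - t * (a - (r - h / 8)) := by
        intro t ht
        have e : w₁ + t * (w₂ - w₁) = ((1 - t * (1 - κ) : ℝ) : ℂ) * w₁ := by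
          rw [hw₂]
          push_cast
          ring
        have h0 : 0 ≤ 1 - t * (1 - κ) := by nlinarith [ht.1, ht.2]
        rw [e, norm_mul, Complex.norm_real, Real.norm_of_nonneg h0, ← ha]
        linear_combination t * hκa
      have hlen := MPS.REACH2_B (fun t => ‖w₂ - w₁‖ * Real.sqrt ‖deriv (G p) (w₁ + t * (w₂ - w₁)) ^ 2 *
          B (G p (w₁ + t * (w₂ - w₁)))‖)
        (fun t => ENNReal.ofReal (2 / (Real.sqrt Real.pi * t)) *
          (μ (Ioo (h - r + t / 2) (h - r + 3 * t / 2))) ^ (1 / 2 : ℝ))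
        (a - (r - h / 8)) (r - a) (h / 8) (by linarith) (by linarith) (by linarith) (by
          intro t ht
          refine ⟨by positivity, ?_⟩
          have hn := hpath t ⟨ht.1.le, ht.2.le⟩
          set w := w₁ + t * (w₂ - w₁) with hwdef
          have hpos : 0 < r - a + (a - (r - h / 8)) * t := by
            have : 0 < (a - (r - h / 8)) * t := mul_pos (by linarith) ht.1
            linarith
          have hm := hMu p hp1 hpQ (h - r) (r - a + (a - (r - h / 8)) * t) w (by linarith) hpos (by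
            rw [hn]
            ring)
          obtain ⟨-, h6⟩ := hpt w (r - a + (a - (r - h / 8)) * t) hpos (by
            rw [hn]
            have : a - t * (a - (r - h / 8)) + (r - a + (a - (r - h / 8)) * t) = r := by ring
            rw [this]
            exact hr2)
          have h7 := MPS.REACH2_F (norm_nonneg (tau B G p w - 1)) hpos
            ((ENNReal.ofReal_le_ofReal h6).trans hm)
          rw [hl]
          have h8 : ENNReal.ofReal ((a - (r - h / 8)) * Real.sqrt ‖deriv (G p) w ^ 2 * B (G p w)‖) ≤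
              ENNReal.ofReal ((a - (r - h / 8)) + (a - (r - h / 8)) * Real.sqrt ‖tau B G p w - 1‖) := by
            apply ENNReal.ofReal_le_ofReal
            have h9 : Real.sqrt ‖deriv (G p) w ^ 2 * B (G p w)‖ ≤ 1 + Real.sqrt ‖tau B G p w - 1‖ :=
              MPS.REACH2_sqrt (z := tau B G p w)
            have h10 := mul_le_mul_of_nonneg_left h9 (by linarith : (0 : ℝ) ≤ a - (r - h / 8))
            linarith
          refine h8.trans ?_
          rw [ENNReal.ofReal_add (by linarith) (mul_nonneg (by linarith) (Real.sqrt_nonneg _)),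
            ENNReal.ofReal_mul (by linarith)]
          exact add_le_add le_rfl (mul_le_mul' le_rfl h7))
      have hlt : ENNReal.ofReal (a - (r - h / 8)) + PsiM μ (h / 8) (h - r) <
          ENNReal.ofReal (h / 8) + ENNReal.ofReal h :=
        ENNReal.add_lt_add_of_le_of_lt ENNReal.ofReal_ne_top (ENNReal.ofReal_le_ofReal (by linarith)) hcon
      rw [← ENNReal.ofReal_add (by linarith) hh0.le] at hlt
      have hlt2 := hlen.trans_lt hlt
      have hlt3 := (ENNReal.ofReal_lt_ofReal_iff (by linarith)).1 hlt2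
      obtain ⟨v₂, h4, h5⟩ := hNPL P B χ (G p) _ (ball 0 (T p)) v₁ w₁ w₂ (h / 8 + h) hSU.ad.fin hSU.ad.dif hΩ isOpen_ball
        hSU.nat (fun v hv => hball v v₁ _ (by linarith) hv) hdiff hav
        ((convex_ball (0 : ℂ) (T p)).segment_subset (by rw [mem_ball_zero_iff]; linarith)
          (by rw [mem_ball_zero_iff, hw₂x]; linarith)) hwv hlt3
      refine ⟨w₂, v₂, hw₂x.le, ?_, h5.symm⟩
      have : v₂ = (v₂ - v₁) + v₁ := by ring
      rw [this]
      exact (norm_add_le _ _).trans_lt (by linarith)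
  obtain ⟨w₂, v₂, h1, h2, h3⟩ := first
  obtain ⟨v₃, h4, h5⟩ := second w₂ v₂ h1 h2 h3
  have h6 := hchi v₃ (by rw [mem_ball_zero_iff]; linarith)
  rw [h5, hsys.val p hpQ] at h6
  have h7 := hSU.hPP p hp1 hpk hps
  have h8 : 11 / 10 * ‖deriv χ 0‖ * ‖v₃‖ ≤ 11 / 10 * ‖deriv χ 0‖ * (4 * h) :=
    mul_le_mul_of_nonneg_left h4.le (by positivity)
  have h9 : 0 < ‖deriv χ 0‖ * h := mul_pos hs0 hh0
  nlinarith [h6, h7, h8, h9]

end WPS
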