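import Pool.Agent.helper52.WP.SpecS

/-!
# v3:S3A: structure of the system (adapted from helper51/PP/P2A.lean)
-/

set_option autoImplicit false

open Complex Metric Set Filter Topology MeasureTheory
open PPS (fd fdd pre TT CV Br cn)
open MPS (PsiM)

noncomputable section

open XPS (IsNat er Df dens brv tau lev d3 e3 eT)

namespace WPS

theorem S3A_card (F PP : Finset ℕ) (M : ℕ) (hM : PP.card ≤ M)
    (h : ∀ a ∈ F, ∀ b ∈ F, a < b → b - a ∈ PP) : F.card ≤ M + 1 := by
  rcases F.eq_empty_or_nonempty with rfl | hne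
  · simp
  · set m := F.min' hne with hm
    have hmF : m ∈ F := F.min'_mem hne
    have h1 : (F.erase m).card ≤ PP.card := by
      refine Finset.card_le_card_of_injOn (fun b => b - m) ?_ ?_
      · intro b hb
        have hb' : b ∈ F.erase m := hb
        rw [Finset.mem_erase] at hb'
        have h2 : m ≤ b := F.min'_le b hb'.2
        exact h m hmF b hb'.2 (lt_of_le_of_ne h2 (Ne.symm hb'.1))
      · intro a ha b hb hab
        have ha' : a ∈ F.erase m := ha
        have hb' : b ∈ F.erase m := hb
        rw [Finset.mem_erase] at ha' hb'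
        have h2 : m ≤ a := F.min'_le a ha'.2
        have h3 : m ≤ b := F.min'_le b hb'.2
        have h4 : a - m = b - m := hab
        omega
    rw [Finset.card_erase_of_mem hmF] at h1
    omega

theorem S3A (hLUN : PPS.LUN_stmt) (hS3G : S3G_stmt) : S3A_stmt := by
  intro n k f P B R E η h r₀ χ G0 PP M T G Q hH
  obtain ⟨h2, hsys, hQk⟩ := hH
  obtain ⟨-, hinj, -⟩ := hS3G n k f P B R E η h r₀ χ G0 PP M h2
  have hr0 := h2.r0
  have hr1 := h2.r1
  have hh0 := h2.h0
  set x : ℂ := 0 with hx
  -- monotonicity
  have hanti : ∀ q q', q ≤ q' → q' ≤ Q → T q' ≤ T q := by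
    intro q q' hqq
    induction q', hqq using Nat.le_induction with
    | base => intro _; exact le_rfl
    | succ m hm ih =>
      intro hmQ
      exact (hsys.anti m (by omega)).trans (ih (by omega))
  have hTρ : ∀ q ≤ Q, T q ≤ h := fun q hq => (hanti 0 q (by omega) hq).trans hsys.t0
  have hT16 : ∀ q ≤ Q, T q ≤ 16 * h := fun q hq => (hTρ q hq).trans (by linarith)
  have hrel : ∀ q < Q, ∀ w ∈ ball x (T (q + 1)), f.eval (G (q + 1) w) = G q w ∧
      fd f (G (q + 1) w) ≠ 0 := hsys.rel
  have hiter : ∀ d q, q + d ≤ Q → ∀ w ∈ ball x (T (q + d)),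
      (fun z : ℂ => f.eval z)^[d] (G (q + d) w) = G q w := by
    intro d
    induction d with
    | zero => intro q _ w _; rfl
    | succ d ih =>
      intro q hq w hw
      rw [Function.iterate_succ_apply]
      have h1 := (hrel (q + d) (by omega) w hw).1
      change (fun z : ℂ => f.eval z)^[d] (f.eval (G (q + d + 1) w)) = G q w
      rw [h1]
      exact ih q (by omega) w (ball_subset_ball (hanti (q + d) (q + (d + 1)) (by omega) hq) hw)
  have hiter0 : ∀ q ≤ Q, ∀ w ∈ ball x (T q),
      (fun z : ℂ => f.eval z)^[q] (G q w) = χ w := by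
    intro q hq w hw
    have h1 := hiter q 0 (by omega) w (by rwa [zero_add])
    rw [zero_add, hsys.g0] at h1
    exact h1
  -- the centre
  have hw₀ball : ∀ q ≤ Q, x ∈ ball x (T q) := fun q hq => mem_ball_self (hsys.pos q hq)
  -- first claim
  have c1 : ∀ q ≤ Q, EqOn (G q) (G0 q) (ball x (min r₀ (T q))) := by
    intro q
    induction q with
    | zero =>
      intro _ w hw
      rw [hsys.g0]
      exact (h2.t0 (ball_subset_ball (min_le_left _ _) hw)).symm
    | succ q ih =>
      intro hq
      have hs1 : ball x (min r₀ (T (q + 1))) ⊆ ball x r₀ := ball_subset_ball (min_le_left _ _)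
      have hs2 : ball x (min r₀ (T (q + 1))) ⊆ ball x (T (q + 1)) := ball_subset_ball (min_le_right _ _)
      have hs3 : ball x (min r₀ (T (q + 1))) ⊆ ball x (min r₀ (T q)) :=
        ball_subset_ball (min_le_min le_rfl (hanti q (q + 1) (by omega) hq))
      refine hLUN f (ball x (min r₀ (T (q + 1)))) (G (q + 1)) (G0 (q + 1)) x isOpen_ball
        (convex_ball _ _).isPreconnected ((hsys.diff (q + 1) hq).continuousOn.mono hs2)
        ((h2.tdiff (q + 1) (by omega)).continuousOn.mono hs1) ?_ ?_
        (mem_ball_self (lt_min hr0 (hsys.pos (q + 1) hq))) (hsys.val (q + 1) hq)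
      · intro z hz
        have h1 := (hrel q (by omega) z (hs2 hz)).1
        have h3 := (h2.trel q (by omega) z (hs1 hz)).1
        rw [h1, h3]
        exact ih (by omega) (hs3 hz)
      · intro z hz
        exact (hrel q (by omega) z (hs2 hz)).2
  -- injectivity
  have c2 : ∀ q ≤ Q, InjOn (G q) (ball x (T q)) := by
    intro q hq w hw w' hw' he
    have h1 := hiter0 q hq w hw
    have h3 := hiter0 q hq w' hw'
    rw [he, h3] at h1
    exact (hinj (ball_subset_ball (hT16 q hq) hw') (ball_subset_ball (hT16 q hq) hw) h1).symm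
  have c3 : ∀ q ≤ Q, MapsTo (G q) (ball x (T q)) (ball 0 R) := by
    intro q
    induction q with
    | zero =>
      intro hq w hw
      rw [hsys.g0]
      exact h2.mp (ball_subset_ball hsys.t0 hw)
    | succ q ih =>
      intro hq w hw
      have h1 := ih (by omega) (ball_subset_ball (hanti q (q + 1) (by omega) hq) hw)
      rw [← (hrel q (by omega) w hw).1, mem_ball_zero_iff] at h1
      rw [mem_ball_zero_iff]
      exact h2.inv _ h1
  have c4 : ∀ q ≤ Q, LevSys f P B G (ball x (T q)) q := by
    intro q hq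
    refine ⟨?_, ?_, ?_, ?_⟩
    · rw [hsys.g0]
      have hsub : ball x (T q) ⊆ ball 0 (16 * h) := ball_subset_ball (hT16 q hq)
      exact ⟨h2.nat.diff.mono hsub, fun w hw => h2.nat.av w (hsub hw),
        fun w hw => h2.nat.eq w (hsub hw)⟩
    · intro q' hq'
      exact (hsys.diff q' (by omega)).mono (ball_subset_ball (hanti q' q hq' hq))
    · intro q' hq' w hw
      exact hrel q' (by omega) w (ball_subset_ball (hanti (q' + 1) q (by omega) hq) hw)
    · intro q' hq' w hw
      have hw' : w ∈ ball x (T q') := ball_subset_ball (hanti q' q hq' hq) hw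
      have hw16 : w ∈ ball x (16 * h) := ball_subset_ball (hT16 q' (by omega)) hw'
      have hit := hiter0 q' (by omega) w hw'
      constructor
      · intro hP
        exact h2.far w hw16 q' (by omega) _ hP hit
      · intro y hy hP
        refine h2.far w hw16 (q' + 1) (by omega) _ hP ?_
        rw [Function.iterate_succ_apply]
        change (fun z : ℂ => f.eval z)^[q'] (f.eval y) = χ w
        rw [hy]
        exact hit
  refine ⟨c1, c2, c3, c4, ?_, ?_, ?_⟩
  · intro z F hF
    refine S3A_card F PP M h2.hM ?_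
    intro q hq q' hq' hqq
    obtain ⟨hqQ, w, hw, hwz⟩ := hF q hq
    obtain ⟨hqQ', w', hw', hwz'⟩ := hF q' hq'
    by_contra hne
    have h1 := hiter0 q (by omega) w (ball_subset_ball (hanti q (q + 1) (by omega) (by omega)) hw)
    have h3 := hiter q (q' - q) (by omega) w'
      (by
        have h4 : q' - q + q = q' := by omega
        rw [h4]
        exact ball_subset_ball (hanti q' (q' + 1) (by omega) (by omega)) hw')
    have h4 : q' - q + q = q' := by omega
    rw [h4, hwz'] at h3
    rw [hwz] at h1
    have h5 := hsys.disj (q' - q) (by omega) (by omega) hne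
    refine Set.disjoint_left.mp h5 ⟨w', ?_, rfl⟩ ⟨w, ?_, ?_⟩
    · exact ball_subset_ball (hanti (q' - q + 1) (q' + 1) (by omega) (by omega)) hw'
    · exact ball_subset_ball (hTρ (q + 1) (by omega)) hw
    · rw [← h1, h3]
  · intro r hr hdis z F hF
    refine S3A_card F PP M h2.hM ?_
    intro q hq q' hq' hqq
    obtain ⟨hqQ, w, hw, hwz⟩ := hF q hq
    obtain ⟨hqQ', w', hw', hwz'⟩ := hF q' hq'
    by_contra hne
    have h1 := hiter0 q (by omega) w
      (ball_subset_ball (hr.trans (hanti q Q (by omega) le_rfl)) hw)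
    have h3 := hiter q (q' - q) (by omega) w'
      (by
        have h4 : q' - q + q = q' := by omega
        rw [h4]
        exact ball_subset_ball (hr.trans (hanti q' Q (by omega) le_rfl)) hw')
    have h4 : q' - q + q = q' := by omega
    rw [h4, hwz'] at h3
    rw [hwz] at h1
    have hwρ : w ∈ ball x h := ball_subset_ball (hr.trans (hTρ Q le_rfl)) hw
    by_cases hpQ : q' - q < Q
    · have h5 := hsys.disj (q' - q) (by omega) hpQ hne
      refine Set.disjoint_left.mp h5 ⟨w', ?_, rfl⟩ ⟨w, hwρ, ?_⟩
      · exact ball_subset_ball (hr.trans (hanti (q' - q + 1) Q (by omega) le_rfl)) hw'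
      · rw [← h1, h3]
    · have hpQ' : q' - q = Q := by omega
      rw [hpQ'] at hne h3
      have h5 := hdis (by omega) hne
      refine Set.disjoint_left.mp h5 ⟨w', hw', rfl⟩ ⟨w, hwρ, ?_⟩
      rw [← h1, h3]
  · have hev : ∀ q ≤ Q, G q =ᶠ[𝓝 x] G0 q := by
      intro q hq
      filter_upwards [isOpen_ball.mem_nhds (mem_ball_self (x := x) (lt_min hr0 (hsys.pos q hq)))] with z hz
      exact c1 q hq hz
    have hlev : ∀ q ∈ Finset.Icc 1 Q, lev B G q x = lev B G0 q x := by
      intro q hq
      rw [Finset.mem_Icc] at hq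
      unfold lev tau
      rw [(hev q hq.2).deriv_eq, (hev q hq.2).eq_of_nhds, (hev (q - 1) (by omega)).deriv_eq,
        (hev (q - 1) (by omega)).eq_of_nhds]
    rw [Finset.sum_congr rfl hlev]
    refine le_trans ?_ h2.tlev
    refine Finset.sum_le_sum_of_subset_of_nonneg (Finset.Icc_subset_Icc le_rfl hQk) ?_
    intro q _ _
    exact norm_nonneg _

end WPS
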