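import Pool.Agent.helper52.WP.SpecS

set_option autoImplicit false

open Complex Metric Set Filter Topology MeasureTheory
open PPS (fd fdd pre TT CV Br cn)
open MPS (PsiM)

noncomputable section

open XPS (IsNat er Df dens brv tau lev d3 e3 eT)

namespace WPS

theorem S3G_cn (n : ℕ) (hn : 2 ≤ n) : 1 ≤ cn n := by
  unfold cn
  have h1 : (1 : ℝ) ≤ (4 : ℝ) ^ (40 + 2 * n) := one_le_pow₀ (by norm_num)
  have h2 : (1 : ℝ) ≤ n := by
    have : 1 ≤ n := by omega
    exact_mod_cast this
  have h3 : (1 : ℝ) ≤ (n : ℝ) ^ 2 := one_le_pow₀ h2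
  nlinarith

theorem S3G : S3G_stmt := by
  intro n k f P B R E η h r₀ χ G0 PP M hS
  have hh := hS.h0
  have h0mem : (0 : ℂ) ∈ ball (0 : ℂ) (16 * h) := mem_ball_self (by linarith)
  have hd0 : deriv χ 0 ≠ 0 := by
    intro h0
    have h1 := hS.nat.eq 0 h0mem
    rw [h0] at h1
    simp at h1
  have hs : 0 < ‖deriv χ 0‖ := norm_pos_iff.mpr hd0
  have key : ∀ w ∈ ball (0 : ℂ) (16 * h), ∀ w' ∈ ball (0 : ℂ) (16 * h),
      ‖(χ w - deriv χ 0 * w) - (χ w' - deriv χ 0 * w')‖ ≤ ‖deriv χ 0‖ / 10 * ‖w - w'‖ := by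
    intro w hw w' hw'
    refine Convex.norm_image_sub_le_of_norm_hasDerivWithin_le
      (f := fun z => χ z - deriv χ 0 * z) (f' := fun z => deriv χ z - deriv χ 0)
      (s := ball (0 : ℂ) (16 * h)) ?_ (fun z hz => hS.aff z hz) (convex_ball _ _) hw' hw
    intro z hz
    have h1 : HasDerivAt χ (deriv χ z) z :=
      ((hS.nat.diff z hz).differentiableAt (isOpen_ball.mem_nhds hz)).hasDerivAt
    have h2 : HasDerivAt (fun z : ℂ => deriv χ 0 * z) (deriv χ 0) z := by
      simpa using (hasDerivAt_id z).const_mul (deriv χ 0)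
    exact (h1.sub h2).hasDerivWithinAt
  refine ⟨hs, ?_, ?_, ?_, ?_, ?_, ?_, ?_, ?_, ?_⟩
  · intro w hw w' hw' he
    have h1 := key w hw w' hw'
    rw [he] at h1
    have h2 : (χ w' - deriv χ 0 * w) - (χ w' - deriv χ 0 * w') = -(deriv χ 0 * (w - w')) := by ring
    rw [h2, norm_neg, norm_mul] at h1
    have h3 : ‖deriv χ 0‖ * ‖w - w'‖ ≤ 0 := by nlinarith [mul_nonneg hs.le (norm_nonneg (w - w'))]
    have h4 : ‖w - w'‖ ≤ 0 := by
      by_contra h5
      push Not at h5
      nlinarith [mul_pos hs h5]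
    exact sub_eq_zero.mp (norm_le_zero_iff.mp h4)
  · intro w hw
    have h1 := key w hw 0 h0mem
    have h2 : χ w - χ 0 = ((χ w - deriv χ 0 * w) - (χ 0 - deriv χ 0 * 0)) + deriv χ 0 * w := by ring
    rw [h2]
    refine (norm_add_le _ _).trans ?_
    rw [norm_mul]
    rw [sub_zero] at h1
    linarith
  · exact (Finset.sum_nonneg fun q _ => norm_nonneg _).trans hS.tlev
  · have h1 : 0 ≤ η := (Finset.sum_nonneg fun q _ => norm_nonneg _).trans hS.tlev
    have h2 := hS.E0
    unfold eT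
    positivity
  all_goals
    have hn1 : (1 : ℝ) ≤ n := by
      have : 1 ≤ n := by have := hS.hn; omega
      exact_mod_cast this
    have hM0 : (0 : ℝ) ≤ M := Nat.cast_nonneg M
    have hden : 0 < 16 * ((M : ℝ) + 1) * n := by positivity
  · unfold d3
    exact lt_min hS.r0 (div_pos hh hden)
  · exact min_le_left _ _
  · exact min_le_right _ _
  · unfold e3
    have h1 : 0 < d3 n M h r₀ := lt_min hS.r0 (div_pos hh hden)
    have h2 := S3G_cn n hS.hn
    positivity
  · have h1 : 0 < d3 n M h r₀ := lt_min hS.r0 (div_pos hh hden)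
    have h2 := S3G_cn n hS.hn
    have h3 : d3 n M h r₀ ≤ h / 16 := by
      refine (min_le_right _ _).trans ?_
      apply div_le_div_of_nonneg_left hh.le (by norm_num)
      nlinarith
    have h4 : d3 n M h r₀ ^ 2 ≤ h ^ 2 / 256 := by
      have := pow_le_pow_left₀ h1.le h3 2
      rw [div_pow] at this
      norm_num at this
      exact this
    unfold e3
    rw [div_le_div_iff₀ (by positivity) (by positivity)]
    have h5 : h ^ 2 ≤ h ^ 2 * cn n := by
      nlinarith [sq_nonneg h]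
    calc d3 n M h r₀ ^ 2 * 256 ≤ h ^ 2 / 256 * 256 :=
          mul_le_mul_of_nonneg_right h4 (by positivity)
      _ = h ^ 2 := by ring
      _ ≤ h ^ 2 * cn n := h5

end WPS
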