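import Pool.Agent.helper54.XP.AllS
import Pool.Agent.helper52.WP.LEAX
import Pool.Agent.helper52.WP.LEIX
import Pool.Agent.helper52.WP.LVX
import Pool.Agent.helper52.WP.LVG
import Pool.Agent.helper52.WP.MIX
import Pool.Agent.helper52.WP.MAX
import Pool.Agent.helper52.WP.EVTX
import Pool.Agent.helper52.WP.NPLX
import Pool.Agent.helper52.WP.NUX
import Pool.Agent.helper52.WP.S3G
import Pool.Agent.helper52.WP.S3A
import Pool.Agent.helper52.WP.S3L
import Pool.Agent.helper52.WP.MU3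
import Pool.Agent.helper52.WP.PT3
import Pool.Agent.helper52.WP.REACH3
import Pool.Agent.helper52.WP.EV3
import Pool.Agent.helper52.WP.STEP3
import Pool.Agent.helper52.WP.SEQ3
import Pool.Agent.helper52.WP.PH3
import Pool.Agent.helper52.WP.CS

/-!
# Project wp: part S (chain step for a general differential, poles not forward invariant): assembly
-/

set_option autoImplicit false

namespace WPS

theorem LEAX_x : LEAX_stmt := LEAX
theorem LEIX_x : LEIX_stmt := LEIX PPS.PRB_p LEAX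
theorem MIX_x : MIX_stmt := MIX
theorem LVX_x : LVX_stmt := LVX LEIX_x MIX_x
theorem LVG_x : LVG_stmt := LVG PPS.PRB_p
theorem MAX_x : MAX_stmt := MAX MIX_x
theorem EVTX_x : EVTX_stmt := EVTX PPS.PRB_p MIX_x PPS.LUN_p PPS.PEX_p PPS.LIFT_p MPS.HCH_ok
theorem NPLX_x : NPLX_stmt := NPLX
theorem NUX_x : NUX_stmt := NUX
theorem S3G_x : S3G_stmt := S3G
theorem S3A_x : S3A_stmt := S3A PPS.LUN_p S3G_x
theorem S3L_x : S3L_stmt := S3L LEAX_x LVX_x MIX_x MAX_x MPS.HAR_ok S3A_x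
theorem MU3_x : MU3_stmt := MU3 S3A_x S3L_x LEAX_x MPS.HSM_ok
theorem PT3_x : PT3_stmt := PT3 S3L_x MPS.HSM_ok S3A_x LEAX_x LVX_x
theorem REACH3_x : REACH3_stmt := REACH3 NPLX_x LEAX_x S3G_x S3A_x PT3_x
theorem EV3_x : EV3_stmt := EV3 PPS.BDY_p EVTX_x LEIX_x LEAX_x LVX_x MAX_x MIX_x S3G_x S3A_x PT3_x
theorem STEP3_x : STEP3_stmt := STEP3 PPS.LUN_p S3G_x S3A_x
theorem SEQ3_x : SEQ3_stmt := SEQ3 STEP3_x
theorem PH3_x : PH3_stmt := PH3 S3G_x SEQ3_x MU3_x REACH3_x EV3_x MPS.CHEB_ok PPS.LIFT_p PPS.PRB_p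
theorem CS_x : CS_stmt := CS PH3_x S3G_x S3A_x PT3_x

end WPS
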