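import Pool.Agent.helper52.WP.Defs

/-!
# Project wp: (MP_af9036_an), part C: algebra and bounds of one datum (used by the parts B, L, N, T)

RULES. File `Pool/Agent/<seat>/WP/XX.lean`: `import Pool.Agent.helper52.WP.SpecC`, `set_option autoImplicit false`, `open Complex Metric Set Filter Topology MeasureTheory`,
`open V3S (UF)`, `open WP`, `noncomputable section`, `namespace WPC`, `theorem XX (h : YY_stmt) ... : XX_stmt`.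
Hypotheses may be: other statements of this file (no circles), and the proved tools `V3.KO0_stmt`, `V3.KO1_stmt`, `V3.KO3_stmt`, `V3.NPK_stmt`, .. of Pool/Agent/helper54/V3/SpecT.lean.
Auxiliary lemmas are prefixed `XX_`. No `sorry`, no double quotes in comments.
-/

set_option autoImplicit false

open Complex Metric Set Filter Topology MeasureTheory
open V3S (UF)
open WP

noncomputable section

namespace WPC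

/-- CB1: algebra of one datum (compare BA1 of project xp:, Pool/Agent/helper52/XP/BA1.lean).
PROOF. `sg = ρ ≠ 0`; `it f (i+j) = it f i ∘ it f j`; chain rule; the last claims: `D.zz` is injective, `p i j = F j (a i)`; a pole is `zz (p i j)`, `j < k`, its `q`-th iterate is `zz (p i (q + j))`, `q + j ≤ 2k`. -/
def CB1_stmt : Prop := ∀ D : Dat, 0 < D.ρ →
  D.sg ≠ 0 ∧ ‖D.sg‖ = D.ρ ∧ (∀ x, D.xx (D.zz x) = x) ∧ (∀ z, D.zz (D.xx z) = z) ∧ (∀ x, D.F 0 x = x) ∧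
  (∀ i j x, D.F (i + j) x = D.F i (D.F j x)) ∧ (∀ j, Differentiable ℂ (D.F j)) ∧
  (∀ i j x, deriv (D.F (i + j)) x = deriv (D.F i) (D.F j x) * deriv (D.F j) x) ∧
  (∀ j x, deriv (D.F j) x = deriv (it D.f j) (D.zz x)) ∧
  (∀ j x, D.zz (D.F j x) = it D.f j (D.zz x)) ∧
  (∀ (i : Fin 3) (j l : ℕ), D.F l (D.p i j) = D.p i (l + j)) ∧ (∀ i, D.p i 0 = D.a i) ∧
  (∀ x, D.B x = D.sg ^ 2 * D.H (D.zz x)) ∧
  (∀ x, D.zz x ∈ D.PP ↔ ∃ i : Fin 3, ∃ j < D.k, x = D.p i j) ∧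
  (∀ x ∉ D.Pt, D.zz x ∉ D.PP) ∧
  (∀ z ∈ D.PP, ∀ q ≤ D.k + 1, D.xx ((fun y : ℂ => D.f.eval y)^[q] z) ∈ D.Pt)

/-- CB2: bounds of one datum. Uses CB1, `V3.KO0_stmt`, `V3.KO1_stmt`, `V3.KO3_stmt`.
PROOF. `K ≥ 2` twice the constants of KO1, KO3 (`η = 1/2`), `c₀ = 1/(8 K² C)` or smaller. (1) `F k = F (k - j) ∘ F j`. (2) KO0. (3) KO3 on `ball 0 1` with centre `0`: `‖(F j)' 0‖ ≤ K‖(F j)' x‖`, `big`. (4) `near`, `om1`. (5) `‖γ‖ ≤ 1`, (3). (6), (7) the separation: for `j ≠ l < k` and points `x, x' ∈ ball 0 (1/(2C))` the sets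
`F j '' ball x (1/(2C)) ⊇ ball (F j x) (‖(F j)' x‖/(2 C K))` (KO1; `ball x (1/(2C)) ⊆ ball 0 (1/C)`) and `F l '' ..` are disjoint (`dj`), so `‖F j x - F l x'‖ ≥ 1/(4 K² C)`-ish. Apply it to `x = x' = a i`, to `F k (a i)` (in `ball 0 (1/(2C))` by `pt`, `near`, `om1`), and to `0`. (8) `j ≥ 1`: `F j x` is not in `F 0 '' ball 0 (1/C) = ball 0 (1/C)`. -/
def CB2_stmt : Prop := ∀ C : ℝ, 1 ≤ C → ∃ c₀ > (0 : ℝ), ∃ K : ℝ, 1 ≤ K ∧ ∀ (n : ℕ) (A : ℝ) (D : Dat), D.Good n C A →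
  (∀ j ≤ D.k, InjOn (D.F j) (ball 0 1)) ∧ (∀ j ≤ D.k, ∀ x ∈ ball (0 : ℂ) 1, deriv (D.F j) x ≠ 0) ∧
  (∀ j ≤ D.k, ∀ x ∈ ball (0 : ℂ) (1 / 2), 1 / K ≤ ‖deriv (D.F j) x‖) ∧
  (∀ x ∈ ball (0 : ℂ) (1 / (2 * C)), D.F D.k x ∈ ball (0 : ℂ) (1 / C)) ∧
  (∀ i : Fin 3, ∀ j ≤ D.k, ‖D.g i j‖ ≤ K) ∧
  (∀ j < D.k, ∀ l < D.k, j ≠ l → ∀ x ∈ ball (0 : ℂ) (1 / (2 * C)), ∀ x' ∈ ball (0 : ℂ) (1 / (2 * C)),
    c₀ ≤ ‖D.F j x - D.F l x'‖) ∧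
  (∀ i : Fin 3, ∀ j < D.k, ∀ l < D.k, j ≠ l → c₀ ≤ ‖D.p i j - D.p i l‖ ∧
    c₀ ≤ ‖D.p i (j + D.k) - D.p i (l + D.k)‖) ∧
  (∀ j, 1 ≤ j → j < D.k → ∀ x ∈ ball (0 : ℂ) (1 / C), 1 / C ≤ ‖D.F j x‖) ∧
  (∀ i : Fin 3, D.p i D.k ∈ ball (0 : ℂ) (1 / (2 * C)))

/-- CNT: the number of dangerous points in a ball. Uses CB1, CB2, `V3.NPK_stmt`.
PROOF. `Pt` is the union over `i : Fin 3` of `{p i j | j < k}`, `{p i (j + k) | j < k}` and `{p i (2k)}`; the points of the first two families are `c₀`-separated for different `j` (CB2), so by NPK at most `(1 + 2R/c₀)²` of them are in `ball 0 R`. -/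
def CNT_stmt : Prop := ∀ C : ℝ, 1 ≤ C → ∀ R : ℝ, 0 < R → ∃ N : ℕ, ∀ (n : ℕ) (A : ℝ) (D : Dat), D.Good n C A →
  ∀ S : Finset ℂ, (∀ x ∈ S, x ∈ D.Pt ∧ ‖x‖ < R) → S.card ≤ N

/-- AFX: `B0` is affine up to a bounded error away from the poles. Uses CB1, CB2, `V3.NPK_stmt`, `V3.NSU_stmt`.
PROOF. `1/(x - p) + 1/p + x/p² = x²/(p² (x - p))` for `p ≠ 0`. So `B0 x - ca - cb x = ∑_i g i 0/(x - p i 0) + ∑_i ∑_{1 ≤ j < k} g i j x²/(p_ij² (x - p_ij))`. The terms with `j = 0`: `≤ 3K/δ`. For `j ≥ 1`: `‖p_ij‖ ≥ 1/C` (CB2 (8)). Near terms (`‖p_ij‖ < 2ρ`): at most `3 (1 + 4ρ/c₀)²` (NPK), each `≤ K ρ² C²/δ`. Far terms: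
`‖x - p‖ ≥ ‖p‖/2`, `≤ 2Kρ²/‖p‖³`, sum `≤ 3 · 2Kρ² · 50/(c₀² 2ρ)` (NSU with `c = min c₀ 1`, `R = 2ρ`). -/
def AFX_stmt : Prop := ∀ C ρ : ℝ, 1 ≤ C → 1 ≤ ρ → ∃ K : ℝ, 0 ≤ K ∧ ∀ (n : ℕ) (A : ℝ) (D : Dat), D.Good n C A →
  ∀ δ : ℝ, 0 < δ → δ ≤ 1 → ∀ x ∈ closedBall (0 : ℂ) ρ, (∀ i : Fin 3, ∀ j < D.k, δ ≤ ‖x - D.p i j‖) →
  ‖D.B0 x - D.ca - D.cb * x‖ ≤ K / δ

end WPC
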