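import Pool.Agent.helper52.WP.SpecC
import Pool.Agent.helper45.BR.Spec

/-!
# Project wp: (MP_af9036_an), part B: the differential with three base points (output `WPB.BDT_stmt`)

Paper: /team-store/MP_af9036_Wplus_helper52.md, section 5, quoted as [W+, 5].

RULES. File `Pool/Agent/<seat>/WP/XX.lean`: `import Pool.Agent.helper52.WP.SpecB`, `set_option autoImplicit false`, `open Complex Metric Set Filter Topology MeasureTheory`,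
`open V3S (UF)`, `open WP`, `open PPS (pre TT fd)`, `open XPS (Df er)`, `noncomputable section`, `namespace WPB`, `theorem XX (h : YY_stmt) ... : XX_stmt`.
Hypotheses may be: other statements of this file (no circles), `WPC.CB1_stmt`, `WPC.CB2_stmt`, `WPA.ESC_stmt` (import Pool.Agent.helper52.WP.SpecA), and the proved statements `GR.TSP_stmt`, `GR.PREL_stmt`, `GR.NAT_stmt`, .. (Pool/Agent/helper88/GR/Spec.lean),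
`V3.KO0_stmt`, .. Auxiliary lemmas are prefixed `XX_`. No `sorry`, no double quotes in comments.
`GR.fp n c = X ^ n + C c`; `MPS.fd n z = n z^(n-1)`; `PPS.fd f z = f.derivative.eval z`.
-/

set_option autoImplicit false

open Complex Metric Set Filter Topology MeasureTheory
open V3S (UF)
open WP
open PPS (pre TT fd)
open XPS (Df er)
open Pool.Agent.helper16.Multibrot

noncomputable section

namespace WPB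

/-! ## The vector field -/

/-- VLC: local form of `v` [W+, 5].
PROOF. `κ = (v (w + ρ) - v w)/ρ`, `ν z = v z - v w - κ (z - w)`. (1) For `z ≠ w`, `‖z - w‖ ≤ 2ρ`: CR at `w` with `a = z - w`, `b = ρ`: `‖ν z‖ ≤ M ‖a‖ (1 + |log(‖a‖/ρ)|) ≤ 4Mρ` (`t(1 + |log t|) ≤ 4` for `0 < t ≤ 2`). (2) CR at `z` with `a = h`, `b = ρ`: `(v(z+h) - v z)/h` differs from `(v(z+ρ) - v z)/ρ` by `≤ M(1 + log(ρ/‖h‖))`, and the latter from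
`κ` by `‖ν(z+ρ) - ν z‖/ρ ≤ 8M`; `‖ν(z+h) - ν z‖ = ‖h‖ ‖(v(z+h) - v z)/h - κ‖`. -/
def VLC_stmt : Prop := ∀ (M : ℝ) (v : ℂ → ℂ), 0 ≤ M → BR.CR M v univ → ∀ (w : ℂ) (ρ : ℝ), 0 < ρ → ∃ κ : ℂ,
  (∀ z ∈ closedBall w (2 * ρ), ‖v z - v w - κ * (z - w)‖ ≤ 10 * M * ρ) ∧
  ∀ z ∈ ball w ρ, ∀ h : ℂ, h ≠ 0 → ‖h‖ ≤ ρ →
    ‖(v (z + h) - κ * h) - v z‖ ≤ 10 * M * ‖h‖ * (1 + Real.log (ρ / ‖h‖))

/-- VIT: `v` along an orbit: `v(f^k a) = (f^k)'(a) (v a + ∑_{1≤j≤k} 1/(f^j)'(a))`.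
PROOF. Induction on `k`, `(f^(k+1))'(a) = f'(f^k a) (f^k)'(a)`, `f'(z) = MPS.fd n z`; all `(f^j)'(a)`, `j ≤ k`, are `≠ 0`. -/
def VIT_stmt : Prop := ∀ (n : ℕ) (c : ℂ) (v : ℂ → ℂ), 2 ≤ n → (∀ z, v (z ^ n + c) = MPS.fd n z * v z + 1) →
  ∀ (k : ℕ) (a : ℂ), deriv (it (GR.fp n c) k) a ≠ 0 →
  ∑ j ∈ Finset.Icc 1 k, 1 / deriv (it (GR.fp n c) j) a =
    v (it (GR.fp n c) k a) / deriv (it (GR.fp n c) k) a - v a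

/-! ## The error term -/

/-- ERS: the error term of one base point `a` [W+, 5]. Uses `GR.TSP_stmt`.
PROOF. `(f^k)'(a) ≠ 0`, so `f^j a ≠ 0` for `j < k`. `TT` is additive (a sum over a multiset); TSP for `f^j a`: `TT (1/(w - f^j a)) z = (1/f'(f^j a)) (1/(z - f^(j+1) a) - 1/(z - c))`, `(f^j)'(a) f'(f^j a) = (f^(j+1))'(a)`. Telescope. -/
def ERS_stmt : Prop := ∀ (n : ℕ) (c : ℂ) (k : ℕ) (a : ℂ), 2 ≤ n → deriv (it (GR.fp n c) k) a ≠ 0 →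
  ∀ z : ℂ, z ≠ c → (∀ j ≤ k, z ≠ it (GR.fp n c) j a) →
  (∑ j ∈ Finset.range k, 1 / deriv (it (GR.fp n c) j) a / (z - it (GR.fp n c) j a)) -
    TT (GR.fp n c) (fun x => ∑ j ∈ Finset.range k, 1 / deriv (it (GR.fp n c) j) a / (x - it (GR.fp n c) j a)) z =
  1 / (z - a) - 1 / deriv (it (GR.fp n c) k) a / (z - it (GR.fp n c) k a) +
    (∑ j ∈ Finset.Icc 1 k, 1 / deriv (it (GR.fp n c) j) a) / (z - c)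

/-- LNA: two linear conditions for three numbers.
PROOF. The linear map `ℂ³ → ℂ²` has a nonzero kernel vector (`LinearMap.exists_ne_zero_..`, `Matrix.exists_mulVec_eq_zero..` or the cross product `p × q` if it is not `0`, and easy cases otherwise); divide by the maximum of the moduli. -/
def LNA_stmt : Prop := ∀ p q : Fin 3 → ℂ, ∃ γ : Fin 3 → ℂ, ∑ i, γ i * p i = 0 ∧ ∑ i, γ i * q i = 0 ∧
  (∀ i, ‖γ i‖ ≤ 1) ∧ ∃ i, ‖γ i‖ = 1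

/-- INQ: the integral of the first part of the error [W+, 5].
PROOF. `N x = ∑ γ_i (1/(x - a_i) - β_i/(x - b_i))`. Near part (`‖x‖ < 1`): `‖N‖ ≤ ∑ (‖1 - β_i‖/‖x - b_i‖ + ‖b_i - a_i‖/(‖x - a_i‖‖x - b_i‖))`; `∫_{ball 0 1} 1/‖x - b‖ ≤ 4π` (`MPS.MI`, `1/‖x-b‖` is integrable on balls); `∫_{ball 0 1} ‖b - a‖/(‖x-a‖‖x-b‖) ≤ C ‖b-a‖ (1 + log(1/‖b-a‖)) ≤ C ε (1 + log(1/ε))`
(regions `‖x-a‖ < ‖b-a‖/2`, `‖x-b‖ < ‖b-a‖/2`, the rest where the integrand is `≤ 3‖b-a‖/‖x-a‖²`; compare `GR.KER_stmt`, Pool/Agent files of module KER of project gr:; `t(1 + log(1/t))` is increasing on `(0,1]`; if `a = b` the term is `0`). Far part (`‖x‖ ≥ 1`): `1/(x - a) = 1/x + a/x² + a²/(x²(x - a))`, and by the two conditions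
`N x = ∑ γ_i (a_i²/(x²(x - a_i)) - β_i b_i²/(x²(x - b_i)))`, of modulus `≤ C ε/‖x‖³`; `∫_{‖x‖≥1} ‖x‖^(-3) = 2π`. -/
def INQ_stmt : Prop := ∃ C : ℝ, 0 < C ∧ ∀ (ε : ℝ) (a b β γ : Fin 3 → ℂ), 0 < ε → ε ≤ 1 / 4 → (∀ i, ‖γ i‖ ≤ 1) →
  (∀ i, ‖a i‖ ≤ 1 / 4) → (∀ i, ‖b i - a i‖ ≤ ε) → (∀ i, ‖β i - 1‖ ≤ ε) → ∑ i, γ i * (1 - β i) = 0 →
  ∑ i, γ i * (a i - β i * b i) = 0 →
  ∫⁻ x : ℂ, ENNReal.ofReal ‖∑ i, γ i * (1 / (x - a i) - β i / (x - b i))‖ ≤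
    ENNReal.ofReal (C * ε * (1 + Real.log (1 / ε)))

/-! ## The datum -/

/-- the conditions on a datum before the energy is computed: `F = D.F D.k` is near the identity, and the two linear conditions hold. -/
structure Pre (n : ℕ) (c : ℂ) (ε : ℝ) (D : Dat) : Prop where
  hn : 2 ≤ n
  hc : ‖c‖ ≤ 2
  hf : D.f = GR.fp n c
  rho : 0 < D.ρ
  rho4 : D.ρ ≤ 4
  w4 : ‖D.w‖ ≤ 4
  e0 : 0 < ε
  e1 : ε ≤ 1 / 64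
  near : ∀ x ∈ ball (0 : ℂ) 1, ‖D.F D.k x - x‖ ≤ ε
  der : ∀ i, deriv (D.F D.k) (D.a i) ≠ 0 ∧ ‖1 / deriv (D.F D.k) (D.a i) - 1‖ ≤ 8 * ε
  pt : ∀ i, ‖D.a i‖ ≤ 1 / 4
  gam : ∀ i, ‖D.γ i‖ ≤ 1
  l1 : ∑ i, D.γ i * (1 - 1 / deriv (D.F D.k) (D.a i)) = 0
  l2 : ∑ i, D.γ i * (D.a i - 1 / deriv (D.F D.k) (D.a i) * D.F D.k (D.a i)) = 0

/-- LOC: position and size of a near identity disc. Uses `WPA.ESC_stmt`.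
PROOF. ESC (last claim): `ρ ≤ ‖w‖`. If `‖w‖ ≥ 4`: `‖f^k w - w‖ ≥ 3‖w‖ - ‖w‖ ≥ 2ρ > ε ρ`: contradiction to `near` at `w`. -/
def LOC_stmt : Prop := ∀ (n : ℕ) (c : ℂ) (C ε : ℝ) (k : ℕ) (w : ℂ) (ρ : ℝ), 2 ≤ n → ‖c‖ ≤ 2 → ε ≤ 1 →
  Geo C ε (GR.fp n c) k w ρ → ‖w‖ < 4 ∧ ρ ≤ 4

/-- PRE: existence of the datum before the energy. Uses LNA, LOC, `WPC.CB1_stmt`.
PROOF. `a 0 = 0`, `a 1 = 1/(4C)`, `a 2 = -1/(4C)`. `F = D.F k` (it does not depend on `a, γ, ..`): `‖F x - x‖ ≤ ε` on `ball 0 1` (`Geo.near` divided by `ρ`), so `‖F' x - 1‖ ≤ 2ε` on `ball 0 (1/4)` closed (Cauchy, radius `1/2`), `‖1/F' - 1‖ ≤ 4ε`. LNA: `γ`. Other fields arbitrary (given). -/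
def PRE_stmt : Prop := ∀ (n : ℕ) (c : ℂ) (C ε : ℝ) (k : ℕ) (w : ℂ) (ρ : ℝ), 2 ≤ n → ‖c‖ ≤ 2 → 1 ≤ C → 0 < ε →
  ε ≤ 1 / 64 → Geo C ε (GR.fp n c) k w ρ → ∃ a γ : Fin 3 → ℂ, (∃ i, ‖γ i‖ = 1) ∧ (∀ i, ‖a i‖ ≤ 1 / (4 * C)) ∧
  (∀ i l, i ≠ l → 1 / (4 * C) ≤ ‖a i - a l‖) ∧
  ∀ (rad E s om : ℝ), Pre n c ε ⟨k, GR.fp n c, w, ρ, a, γ, rad, E, s, om⟩

/-- SBD: the sum of the `S(a_i)` [W+, 5]. Uses VLC, VIT, `WPC.CB1_stmt`.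
PROOF. `S_i = ∑_{1≤j≤k} 1/(f^j)'(zz (a i)) = β_i v(zz (F (a i))) - v(zz (a i))`, `β_i = 1/F'(a i)` (VIT, CB1). VLC at `D.w`, `D.ρ` with `M = M₀`: `v z = v w + κ(z - w) + ν z`: by `l1` the terms `v w` cancel, by `l2` the terms `κ` cancel: `∑ γ_i S_i = ∑ γ_i (β_i ν(zz F a_i) - ν(zz a_i)) = ∑ γ_i ((β_i - 1) ν(zz F a_i) + ν(zz F a_i) - ν (zz a_i))`,
`‖ν‖ ≤ 10 M ρ`, `h = zz F a_i - zz a_i`, `‖h‖ ≤ ερ`, `‖h‖(1 + log(ρ/‖h‖)) ≤ ερ(1 + log(1/ε))` (monotone). Total `≤ 3 (8ε · 10 M ρ + 10 M ερ(1 + log(1/ε))) ≤ 300 M ρ ε (1 + log(1/ε))`. -/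
def SBD_stmt : Prop := ∀ (n : ℕ) (c : ℂ) (ε M : ℝ) (D : Dat) (v : ℂ → ℂ), Pre n c ε D → 0 ≤ M → BR.CR M v univ →
  (∀ z, v (z ^ n + c) = MPS.fd n z * v z + 1) →
  ‖∑ i, D.γ i * ∑ j ∈ Finset.Icc 1 D.k, 1 / deriv (it (GR.fp n c) j) (D.zz (D.a i))‖ ≤
    300 * M * D.ρ * ε * (1 + Real.log (1 / ε))

/-- HFI: the differential is measurable, locally integrable, holomorphic off `PP`; formula in the `z`-plane. Uses `WPC.CB1_stmt`.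
PROOF. `H0 z = B0 (xx z)/sg² = ρ⁻¹ ∑_i ∑_j g i j/(z - zz (p i j))`, `zz (p i j) = f^j (zz (a i))`, `(F j)'(a i) = (f^j)'(zz (a i))`. `1/‖z - a‖` is integrable on balls (`MPS.MI`). -/
def HFI_stmt : Prop := ∀ D : Dat, 0 < D.ρ →
  (∀ z, D.H0 z = (1 / D.sg) * ∑ i : Fin 3, D.γ i * ∑ j ∈ Finset.range D.k,
    1 / deriv (it D.f j) (D.zz (D.a i)) / (z - it D.f j (D.zz (D.a i)))) ∧
  Measurable D.H0 ∧ (∀ R : ℝ, ∫⁻ z in ball (0 : ℂ) R, ENNReal.ofReal ‖D.H0 z‖ ≠ ⊤) ∧ D.PP.Finite ∧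
  DifferentiableOn ℂ D.H0 D.PPᶜ

/-- ERD: the energy of the error of the datum [W+, 5]. Uses ERS, SBD, INQ, HFI, `WPC.CB1_stmt`.
PROOF. For all `z` outside a finite set (ERS for `a = zz (a i)`, `(f^j)'(zz (a i)) ≠ 0` for `j ≤ k` from `der`; `TT` is linear): `er f H0 z = ρ⁻¹ (∑ γ_i (1/(z - zz a_i) - β_i/(z - zz (F a_i))) + S/(z - c))`. First part: `= ρ⁻² N (xx z)`; `∫ ρ⁻² ‖N (xx z)‖ dz = ∫ ‖N‖ dx` (translation and scaling, `MeasureTheory.Measure.addHaar` / `lintegral` change of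
variables for `z = w + ρ x`) `≤ C · 8ε(1 + log(1/(8ε)))` (INQ with `8ε`, `‖F a_i - a_i‖ ≤ ε`). Second: `ρ⁻¹‖S‖ ∫_{ball 0 R} 1/‖z - c‖ ≤ 300 M ε (1 + log(1/ε)) · 2π(R + 2)`. -/
def ERD_stmt : Prop := ∃ C : ℝ, 0 < C ∧ ∀ (n : ℕ) (c : ℂ) (ε M R : ℝ) (D : Dat) (v : ℂ → ℂ), Pre n c ε D → 0 ≤ M →
  1 ≤ R → BR.CR M v univ → (∀ z, v (z ^ n + c) = MPS.fd n z * v z + 1) →
  ∫⁻ z in ball (0 : ℂ) R, ENNReal.ofReal ‖er D.f D.H0 z‖ ≤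
    ENNReal.ofReal (C * (1 + M * R) * ε * (1 + Real.log (1 / ε)))

/-- EGR: the energy inequality on `ball 0 R` (copy of GR.ENG, module ENG of project gr:, with `R ≥ 4` in place of `4`).
PROOF. `f⁻¹(ball 0 R) ⊆ ball 0 R`. `PPS.MCV` for `F = ofReal ‖b‖`: `∫_{ball 0 R} T|b| = ∫_{f⁻¹ (ball)} |b| ≤ ∫_{ball 0 R} |b| < ∞`. `Df + ‖b‖ ≤ T|b| + ‖er‖` pointwise. -/
def EGR_stmt : Prop := ∀ (n : ℕ) (c : ℂ) (R : ℝ) (b : ℂ → ℂ) (e : ℝ), 2 ≤ n → ‖c‖ ≤ 2 → 4 ≤ R → Measurable b →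
  ∫⁻ z in ball (0 : ℂ) R, ENNReal.ofReal ‖b z‖ ≠ ⊤ → 0 ≤ e →
  ∫⁻ z in ball (0 : ℂ) R, ENNReal.ofReal ‖er (GR.fp n c) b z‖ ≤ ENNReal.ofReal e →
  (∀ y : ℂ, ‖(GR.fp n c).eval y‖ < R → ‖y‖ < R) ∧
  ∫⁻ z in ball (0 : ℂ) R, ENNReal.ofReal (Df (GR.fp n c) b z + 2 * ‖er (GR.fp n c) b z‖) ≤ ENNReal.ofReal (3 * e)

/-- BDT: the datum of a near identity disc. Uses PRE, LOC, ERD, EGR, HFI, `WPC.CB1_stmt`, `BR.BRG_stmt`.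
PROOF. `M = 4000/r`, `v` from BRG; `‖c‖ ≤ 2` for `c ∈ multibrot n` (e.g. `BR.MBB_stmt`, or `ESC`-type estimate). `rad = 4 + 4A`, `E = 3 C (1 + M rad) ε(1 + log(1/ε))` (tends to `0` with `ε`), `om = max ε E`, `s = (1 + ‖ca‖ + ‖cb‖)⁻¹` (`ca, cb` do not depend on `rad, E, s, om`). `Good`: `inj, dj, big, near` are the fields of `Geo` in the `x`-plane (CB1: `F j x = xx (f^j (zz x))`, `zz '' ball 0 t = ball w (ρ t)`);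
`radb`: `‖zz x‖ ≤ ‖w‖ + ρ‖x‖ < 4 + 4A`. `ε` small so that `om ≤ min τ (1/(16C))`, `ε ≤ 1/64`. -/
def BDT_stmt : Prop := ∀ n : ℕ, 2 ≤ n → ∀ r > (0 : ℝ), ∀ C A τ : ℝ, 1 ≤ C → 1 ≤ A → 0 < τ → ∃ ε > (0 : ℝ),
  ∀ c ∈ multibrot n, Disjoint (ball c r) (hyperbolic n) → ∀ (k : ℕ) (w : ℂ) (ρ : ℝ),
  Geo C ε (GR.fp n c) k w ρ → ∃ D : Dat, D.f = GR.fp n c ∧ D.k = k ∧ D.w = w ∧ D.ρ = ρ ∧ D.om ≤ τ ∧
    D.s = (1 + ‖D.ca‖ + ‖D.cb‖)⁻¹ ∧ D.Good n C A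

end WPB
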