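import Pool.Agent.helper52.WP.SpecL
import Pool.Agent.helper60.XP.SpecT

/-!
# Project wp: (MP_af9036_an), parts T, X: the start of the propagation and the final assembly

Paper: /team-store/MP_af9036_Wplus_helper52.md, section 6; model: project xp:, Pool/Agent/helper60/XP/SpecT.lean.

RULES. File `Pool/Agent/<seat>/WP/XX.lean`: `import Pool.Agent.helper52.WP.SpecT`, `set_option autoImplicit false`, `open Complex Metric Set Filter Topology MeasureTheory`,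
`open V3S (UF)`, `open WP`, `noncomputable section`, `namespace WPT`, `theorem XX (h : YY_stmt) ... : XX_stmt`.
Hypotheses may be: other statements of this file (no circles), `WPC.CB1_stmt, CB2_stmt`, `WPL.*_stmt`, `XPT.INVL_stmt` (inverse of a map near the identity; proved), `XPS.LVG_stmt`, `WPS.MAX_stmt, MIX_stmt, LEAX_stmt` (proved), the V3 tools.
Auxiliary lemmas prefixed `XX_`. No `sorry`, no double quotes in comments.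
Dictionary: `XP.Dat` -> `WP.Dat`, `XPS.LevSys, AD` -> `WPS.LevSys, AD`, `N = 1`, `D.K` -> `D.k`, `D.rad` as before; the cells are `F j '' ball 0 (1/C)`, `j < k`, disjoint (`Good.dj`).
-/

set_option autoImplicit false

open Complex Metric Set Filter Topology MeasureTheory
open V3S (UF)
open WP
open Pool.Agent.helper16.Multibrot

noncomputable section

namespace WPT

/-! ## One datum -/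

/-- the tower `G_q = f^(k-q) ∘ Ψ ∘ χ`. -/
def tw (D : Dat) (Ψ χ : ℂ → ℂ) (q : ℕ) (w : ℂ) : ℂ := D.zz (D.F (D.k - q) (Ψ (D.xx (χ w))))

/-- the setting: `Ψ` is an inverse branch of `F k` on `ball x₀ ρ`, `χ` a natural chart. -/
structure St (D : Dat) (C : ℝ) (x₀ : ℂ) (ρ r : ℝ) (χ Ψ : ℂ → ℂ) : Prop where
  r0 : 0 < r
  psd : DifferentiableOn ℂ Ψ (ball x₀ ρ)
  psi : ∀ x ∈ ball x₀ ρ, D.F D.k (Ψ x) = x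
  psr : ∀ x ∈ ball x₀ ρ, Ψ x ∈ ball (0 : ℂ) (1 / (2 * C)) ∧ x ∈ ball (0 : ℂ) (1 / (2 * C))
  nat : XPS.IsNat D.PP D.H χ (ball 0 (2 * r))
  far : ∀ w ∈ ball (0 : ℂ) (2 * r), D.xx (χ w) ∉ D.Pt
  val : χ 0 = D.zz x₀
  aff : ∀ w ∈ ball (0 : ℂ) (2 * r), ‖deriv χ w - deriv χ 0‖ ≤ ‖deriv χ 0‖ / 10
  mp : ∀ w ∈ ball (0 : ℂ) (2 * r), D.xx (χ w) ∈ ball x₀ ρ

/-- STS: the tower is a level system (compare Pool/Agent/helper19/XP/STS.lean). Uses CB1, CB2.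
PROOF. `x = xx (χ w)`, `z = zz (Ψ x)`, `tw q w = f^(k-q) z`, so `f^q (tw q w) = f^k z = zz (F k (Ψ x)) = χ w`. `rel`: `f (f^(k-q-1) z) = f^(k-q) z`, `fd f (f^j z) ≠ 0` for `j < k` as `(F (j+1))'(Ψ x) ≠ 0` (CB2 (2)). `av`: if `tw q w ∈ PP` then `xx (f^q (tw q w)) = xx (χ w) ∈ Pt` (CB1): contradiction to `far`; if `f y = tw q w`, `y ∈ PP`: the same with `f^(q+1) y`,
`q + 1 ≤ k + 1`. Injectivity: the `q`-th iterate maps `tw q w` to `χ w`, `χ` is injective (nearly affine, `XPL.CAF_stmt`). Range: `‖χ w‖ < rad` (`radb`, `‖x‖ < 1/(2C) < A`), and `‖f y‖ < rad → ‖y‖ < rad` (`eng.inv`): induction on `q`. Multiplicity one: `z' = tw q w = tw q' w'`, `q < q' < k`: `xx z' ∈ F (k-q') '' ball 0 (1/C)`, `1 ≤ k - q' < k`, and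
`xx z' ∈ F (k-q) '' ball 0 (1/C)` if `q ≥ 1`, resp. `xx z' = xx (χ w) ∈ ball 0 (1/(2C)) ⊆ F 0 '' ball 0 (1/C)` if `q = 0`: disjoint (`dj`). -/
def STS_stmt : Prop := ∀ (n : ℕ) (C A : ℝ) (D : Dat), D.Good n C A →
  ∀ (x₀ : ℂ) (ρ r : ℝ) (χ Ψ : ℂ → ℂ), St D C x₀ ρ r χ Ψ →
  WPS.LevSys D.f D.PP D.H (tw D Ψ χ) (ball 0 (2 * r)) D.k ∧ EqOn (tw D Ψ χ 0) χ (ball 0 (2 * r)) ∧
  (∀ q ≤ D.k, InjOn (tw D Ψ χ q) (ball 0 (2 * r))) ∧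
  (∀ q < D.k, MapsTo (tw D Ψ χ q) (ball 0 (2 * r)) (ball 0 D.rad)) ∧
  ∀ z : ℂ, ∀ S : Finset ℕ, (∀ q ∈ S, q < D.k ∧ z ∈ tw D Ψ χ q '' ball 0 (2 * r)) → S.card ≤ 1

/-- STC: the start for one datum (copy of the first half of Pool/Agent/helper56/XP/STC.lean). Uses STS, `WPL.ADH_stmt`, `XPS.LVG_stmt`, `WPS.MAX_stmt`, `WPS.LEAX_stmt`, `WPS.MIX_stmt`.
PROOF. `G = tw D Ψ χ`. LVG: `∑ lev ≤ ∑_{q<k} dens (G q) + ‖τ_0‖ - ‖τ_k‖`, `τ_0 = 1`. MAX (STS, multiplicity `1`, energy `E`: ADH): `∑_{q<k} ∫⁻_{ball 0 (2r)} dens ≤ E`. For `w ∈ ball 0 r`: `lev q` is the norm of a function holomorphic on `ball w r ⊆ ball 0 (2r)` (LEAX): mean value inequality. -/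
def STC_stmt : Prop := ∀ (n : ℕ) (C A : ℝ) (D : Dat), D.Good n C A →
  ∀ (x₀ : ℂ) (ρ r : ℝ) (χ Ψ : ℂ → ℂ), St D C x₀ ρ r χ Ψ →
  ∀ τ₀ : ℝ, (∀ w ∈ ball (0 : ℂ) (2 * r), 1 - ‖XPS.tau D.H (tw D Ψ χ) D.k w‖ ≤ τ₀) →
    ∀ w ∈ ball (0 : ℂ) r, ∑ q ∈ Finset.Icc 1 D.k, XPS.lev D.H (tw D Ψ χ) q w ≤ τ₀ + D.E / (Real.pi * r ^ 2)

/-- TAX: `τ_k` in the x-plane (copy of Pool/Agent/helper91/XP/TAX.lean). Uses CB1. -/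
def TAX_stmt : Prop := ∀ (n : ℕ) (C A : ℝ) (D : Dat), D.Good n C A →
  ∀ (x₀ : ℂ) (ρ r : ℝ) (χ Ψ : ℂ → ℂ), St D C x₀ ρ r χ Ψ → ∀ w ∈ ball (0 : ℂ) (2 * r),
  XPS.tau D.H (tw D Ψ χ) D.k w =
    deriv Ψ (D.xx (χ w)) ^ 2 * D.B (Ψ (D.xx (χ w))) / D.B (D.xx (χ w))

/-- KCB: the bound (kc) (compare Pool/Agent/helper23/XP/KCB.lean). Uses CB1, CB2, `V3.KO3_stmt`.
PROOF. `j = k - q < k`, `y = Ψ x₀ ∈ ball 0 (1/(2C))`. `tw q 0 = zz (F j y)`, so `‖tw q 0 - zz (F j 0)‖ = ‖sg‖‖F j y - F j 0‖ ≤ ‖sg‖ K ‖(F j)' y‖` (KO3 on `ball 0 1` or CB2: injective; `‖y‖ < 1/2`). Chain rule: `deriv (tw q) 0 = sg (F j)'(y) Ψ'(x₀) χ'(0)/sg`, modulus `≥ ‖(F j)' y‖ (1/2) ‖sg‖/C₂`. `C' = 2 K C₂`, `K` absolute. -/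
def KCB_stmt : Prop := ∃ K : ℝ, 1 ≤ K ∧ ∀ (n : ℕ) (C A : ℝ) (D : Dat), D.Good n C A →
  ∀ (x₀ : ℂ) (ρ r : ℝ) (χ Ψ : ℂ → ℂ), St D C x₀ ρ r χ Ψ → ∀ C₂ : ℝ, 0 < C₂ → 0 < ρ →
  1 / 2 ≤ ‖deriv Ψ x₀‖ → ‖D.sg‖ ≤ C₂ * ‖deriv χ 0‖ →
  ∀ q, 1 ≤ q → q ≤ D.k → ‖tw D Ψ χ q 0 - D.zz (D.F (D.k - q) 0)‖ ≤ K * C₂ * ‖deriv (tw D Ψ χ q) 0‖

/-- PHC: the displacement in the chart (copy of Pool/Agent/helper29/XP/PHC.lean). -/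
def PHC_stmt : Prop := ∀ (n : ℕ) (C A : ℝ) (D : Dat), D.Good n C A →
  ∀ (x₀ : ℂ) (ρ r : ℝ) (χ Ψ : ℂ → ℂ), St D C x₀ ρ r χ Ψ → ∀ C₂ ε₁ : ℝ, 0 < C₂ → 0 ≤ ε₁ →
  ‖D.sg‖ ≤ C₂ * ‖deriv χ 0‖ → C₂ * ε₁ ≤ r / 10 → (∀ x ∈ ball x₀ ρ, ‖Ψ x - x‖ ≤ ε₁) →
  ∃ Φ : ℂ → ℂ, DifferentiableOn ℂ Φ (ball 0 r) ∧ ∀ w ∈ ball (0 : ℂ) r, Φ w ∈ ball (0 : ℂ) (2 * r) ∧
    ‖Φ w - w‖ ≤ 2 * C₂ * ε₁ ∧ χ (Φ w) = tw D Ψ χ D.k w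

/-- CTS: the chain property at `x₀` for one datum (compare Pool/Agent/helper26/XP/CTS.lean). Uses STS, STC, KCB, PHC, TAX.
PROOF. Restrict STS to `ball 0 r`; STC with `τ₀` (TAX: `1 - ‖τ_k‖ ≤ ‖τ_k - 1‖ ≤ τ₀`), `E ≤ om`. -/
def CTS_stmt : Prop := ∀ (C₂ C₃ r : ℝ), 0 < C₂ → 0 < C₃ → 0 < r → ∃ C' > (0 : ℝ), ∀ (n : ℕ) (C A : ℝ) (D : Dat),
  D.Good n C A → ∀ (x₀ : ℂ) (ρ : ℝ) (χ Ψ : ℂ → ℂ), 0 < ρ → St D C x₀ ρ r χ Ψ →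
  ‖D.sg‖ ≤ C₂ * ‖deriv χ 0‖ → 1 / 2 ≤ ‖deriv Ψ x₀‖ → (∀ x ∈ ball x₀ ρ, ‖Ψ x - x‖ ≤ D.om) → C₂ * D.om ≤ r / 10 →
  (∀ x ∈ ball x₀ ρ, ‖deriv Ψ x ^ 2 * D.B (Ψ x) / D.B x - 1‖ ≤ C₃ * D.om) → ∃ Φ : ℂ → ℂ, Ctl D x₀ r C' χ (tw D Ψ χ) Φ

/-! ## Sequences -/

/-- BCV: bounds of `B` near regular points. Uses `WPL.LPB_stmt`, `WPL.REG_stmt`.
PROOF. `LB.conv` and LPB (2) on the compact `K ⊆ Reg ⊆ Pinᶜ`; `Bin` is continuous and `≠ 0` on `K`, `deriv Bin` is continuous. -/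
def BCV_stmt : Prop := ∀ (n : ℕ) (C : ℝ) (D : ℕ → Dat), 1 ≤ C → Seq n C D → LB D →
  ∀ K : Set ℂ, IsCompact K → K ⊆ Reg D → ∃ κ > (0 : ℝ), ∃ M : ℝ, ∀ᶠ m in UF, ∀ x ∈ K,
    DifferentiableAt ℂ (D m).B x ∧ κ ≤ ‖(D m).B x‖ ∧ ‖deriv (D m).B x‖ ≤ M

/-- TAU: the quotient `Ψ'^2 B(Ψ)/B` is near `1` (pure).
PROOF. `‖Ψ' - 1‖ ≤ e/ρ` on `ball x₀ ρ` (Cauchy for `Ψ - id`, radius `ρ`), `‖B (Ψ x) - B x‖ ≤ M e` (mean value inequality on the convex ball `ball x₀ (3ρ)`), `‖B x‖ ≥ κ`; `‖Ψ'² - 1‖ ≤ 3 e/ρ` (`e ≤ ρ`). `C = 3/ρ (1 + M ρ/κ) + M/κ`. -/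
def TAU_stmt : Prop := ∀ κ M ρ : ℝ, 0 < κ → 0 ≤ M → 0 < ρ → ∃ C > (0 : ℝ), ∀ (B Ψ : ℂ → ℂ) (x₀ : ℂ) (e : ℝ), 0 ≤ e → e ≤ ρ →
  (∀ x ∈ ball x₀ (3 * ρ), DifferentiableAt ℂ B x ∧ κ ≤ ‖B x‖ ∧ ‖deriv B x‖ ≤ M) →
  DifferentiableOn ℂ Ψ (ball x₀ (2 * ρ)) → (∀ x ∈ ball x₀ (2 * ρ), ‖Ψ x - x‖ ≤ e) →
  ∀ x ∈ ball x₀ ρ, ‖deriv Ψ x ^ 2 * B (Ψ x) / B x - 1‖ ≤ C * e

/-- STW: the start (compare Pool/Agent/helper63/XP/STA.lean). Uses CTS, `WPL.CHT_stmt`, `WPL.REG_stmt`, BCV, TAU, `XPT.INVL_stmt`, CB1, CB2, `XPL.CAF_stmt`.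
PROOF. REG (3) at `0`: `x₀ ∈ Reg`, `‖x₀‖ < 1/(8C)`; `ρ ≤ 1/(64 C)` with `closedBall x₀ (8ρ) ⊆ Reg` (open). INVL for `G = F k` on `ball x₀ (4ρ)` (`‖F k y - y‖ ≤ om ≤ ρ/2` eventually): `Ψ` on `ball x₀ (2ρ)`, `F k (Ψ x) = x`, `‖Ψ x - x‖ ≤ om`. BCV on `closedBall x₀ (8ρ)`, TAU. `‖Ψ' x₀‖ ≥ 1/2` (Cauchy). CHT at `x₀` (with `y = x₀`): `h, C₁, χ`;
`r` small: `2r ≤ 16 h` and `4 r C₁ ≤ ρ` (then `xx (χ w) ∈ ball x₀ ρ` by CAF); `far` from the ball of radius `18 h ‖χ' 0‖`. `C₂ = C₁`. CTS. -/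
def STW_stmt : Prop := ∀ (n : ℕ) (C : ℝ) (D : ℕ → Dat), 1 ≤ C → Seq n C D → LB D → WPL.ST D

/-! ## Assembly -/

/-- MPX: along a sequence of data the iterates `F k` tend to the identity. Uses LBX (`∀ n C D, 1 ≤ C → Seq n C D → LB D`, see SpecN), STW, `WPL.INJ_stmt`, `WPL.DSP_stmt`. -/
def MPX_stmt : Prop := ∀ (n : ℕ) (C : ℝ) (D : ℕ → Dat), 1 ≤ C → Seq n C D → ∀ ρ > (0 : ℝ), ∀ ε > (0 : ℝ),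
  ∀ᶠ m in UF, InjOn ((D m).F (D m).k) (ball 0 ρ) ∧ ∀ x ∈ ball (0 : ℂ) ρ, ‖(D m).F (D m).k x - x‖ ≤ ε

/-- WPU: Theorem W+, uniform form. Uses MPX, `WP.GEO_stmt`, `WPB.BDT_stmt` (import Pool.Agent.helper52.WP.SpecB), `WPA.WDS_stmt`, `WPA.ESC_stmt` (import Pool.Agent.helper52.WP.SpecA), CB1.
PROOF. `δ` from WDS for `n, r`; `C` from GEO. Suppose there is no `ε₀`. For `m : ℕ`: BDT with `A = m + 1`, `τ = 1/(m+1)`: `ε`; GEO with `δ, ε`: `ε₀`; a counterexample for this `ε₀` (`‖c‖ ≤ 2` for `c ∈ multibrot n`, `it (fp n c) j = (z^n + c)^[j]` by ESC): GEO gives `Geo C ε`, BDT a datum `D m`. `Seq n C D`. MPX with `ρ = C`, `ε = 1/4`: for some `m`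
`F k` is injective on `ball 0 C` and `‖F k x - x‖ ≤ 1/4`, so it maps `ball 0 (C/2)` into `ball 0 C`: contradiction to `Geo.fail` (`zz '' ball 0 t = ball w (ρ t)`). -/
def WPU_stmt : Prop := WP.WPU_stmt

/-- WPF: Theorem W+, closure form. Uses WPU. PROOF. If `c` is not in the closure: a ball `ball c r` disjoint from `H_n`; WPU gives `ε₀`; hypothesis with `ε = ε₀`. -/
def WPF_stmt : Prop := ∀ (n : ℕ) (c : ℂ), 2 ≤ n → c ∈ multibrot n → (∀ ε > (0 : ℝ), ∃ (k : ℕ) (w : ℂ) (ρ : ℝ),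
  1 ≤ k ∧ 0 < ρ ∧ InjOn ((fun z : ℂ => z ^ n + c)^[k]) (ball w ρ) ∧ ‖(fun z : ℂ => z ^ n + c)^[k] w - w‖ ≤ ε * ρ ∧
  ‖deriv ((fun z : ℂ => z ^ n + c)^[k]) w - 1‖ ≤ ε) → c ∈ closure (hyperbolic n)

end WPT
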