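import Pool.Agent.helper52.WP.SpecL

/-!
# Project wp: (MP_af9036_an), part N: normality of the differentials (output `WPN.LBX_stmt`)

Paper: /team-store/MP_af9036_Wplus_helper52.md, section 6, quoted as [W+, 6].

RULES. File `Pool/Agent/<seat>/WP/XX.lean`: `import Pool.Agent.helper52.WP.SpecN`, `set_option autoImplicit false`, `open Complex Metric Set Filter Topology MeasureTheory`,
`open V3S (UF)`, `open WP`, `noncomputable section`, `namespace WPN`, `theorem XX (h : YY_stmt) ... : XX_stmt`.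
Hypotheses may be: other statements of this file (no circles), `WPC.CB1_stmt, CB2_stmt, CNT_stmt, AFX_stmt`, `WPL.PIN_stmt`, `WPL.ADH_stmt`, the tools `V3.TUL_stmt` (ultralimits of bounded sequences), `V3.TMO_stmt` (Montel), `V3.TDE_stmt`, `V3.TBX_stmt` (maximum principle),
`V3.NPK_stmt`, .. of Pool/Agent/helper54/V3/SpecT.lean (all proved). Auxiliary lemmas prefixed `XX_`. No `sorry`, no double quotes in comments.
`UF` is by definition the coercion of `hyperfilter ℕ`; `V3S.UF_le : UF ≤ atTop`, `V3S.UF_em`, `V3S.UF_not`; it is `NeBot`.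
-/

set_option autoImplicit false

open Complex Metric Set Filter Topology MeasureTheory
open V3S (UF)
open WP

noncomputable section

namespace WPN

/-- NBD: local bounds. Uses `WPL.PIN_stmt`, `WPL.ADH_stmt`, CB1, `WPC.AFX_stmt`.
PROOF. PIN (1) at `x`: radius `2r ≤ 1`, no dangerous points in `ball x (2r)`. On `ball x r`: AFX with `ρ = ‖x‖ + 1`, `δ = r`: `‖B0 y - ca - cb y‖ ≤ K/r`, so `‖B y‖ ≤ s (‖ca‖ + ‖cb‖ρ) + s K/r ≤ ρ + K/r`. Differentiability: ADH, CB1. -/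
def NBD_stmt : Prop := ∀ (n : ℕ) (C : ℝ) (D : ℕ → Dat), 1 ≤ C → Seq n C D → ∀ x ∉ Pin D,
  ∃ r > (0 : ℝ), ∃ K : ℝ, ∀ᶠ m in UF, DifferentiableOn ℂ (D m).B (ball x r) ∧ ∀ y ∈ ball x r, ‖(D m).B y‖ ≤ K

/-- NLI: the limit exists. Uses NBD, `WPL.PIN_stmt`, `V3.TMO_stmt`.
PROOF. TMO on the open set `Pinᶜ`: a limit `F`; pointwise `Bin D x = F x` (`Tendsto.limUnder_eq`); `tendstoLocallyUniformlyOn_iff_forall_isCompact`. -/
def NLI_stmt : Prop := ∀ (n : ℕ) (C : ℝ) (D : ℕ → Dat), 1 ≤ C → Seq n C D →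
  DifferentiableOn ℂ (Bin D) (Pin D)ᶜ ∧
  ∀ K : Set ℂ, IsCompact K → K ⊆ (Pin D)ᶜ → TendstoUniformlyOn (fun m => (D m).B) (Bin D) UF K

/-- NZA: the limit is affine if `s → 0`. Uses NLI, `WPL.PIN_stmt`, `WPC.AFX_stmt`, `V3.TUL_stmt`.
PROOF. `s‖ca‖ ≤ 1`, `s‖cb‖ ≤ 1`: `s ca → α`, `s cb → β` (TUL); `s (‖ca‖ + ‖cb‖) = 1 - s → 1`, so `‖α‖ + ‖β‖ = 1`. For `x ∉ Pin` (PIN (1), AFX): `‖B x - s ca - s cb x‖ ≤ s K/δ → 0`, and `B x → Bin x`. -/
def NZA_stmt : Prop := ∀ (n : ℕ) (C : ℝ) (D : ℕ → Dat), 1 ≤ C → Seq n C D →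
  Tendsto (fun m => (D m).s) UF (𝓝 0) → ∃ α β : ℂ, (α ≠ 0 ∨ β ≠ 0) ∧ ∀ x ∉ Pin D, Bin D x = α + β * x

/-- NZB: the limit is not zero if `s` does not tend to `0`. Uses NLI, `WPL.PIN_stmt`, CB1, CB2, `V3.TUL_stmt`.
PROOF. Suppose `Bin = 0` off `Pin`. `UF` is an ultrafilter: there is a fixed `i` with `‖(D m).γ i‖ = 1` for `UF`-almost all `m` (`gam1`). `a i → a∞` along `UF` (TUL). Choose `0 < t < 1/(16C)` such that the circle `sphere a∞ t` contains no point of `Pin` (finite in balls). Eventually `‖a i - a∞‖ < t/2`. For such `m` the function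
`B x - s γ_i/(x - a i)` is holomorphic on `ball a∞ (2t)`: the other `a l` have distance `≥ 1/(4C)` from `a i`, and `‖p l j‖ ≥ 1/C` for `1 ≤ j < k` (CB2 (8) with `x = a l`), `‖a∞‖ + 2t ≤ 1/(4C) + 1/(8C) < 1/C`. Cauchy: `∮ B = 2π i s γ_i`, modulus `2π s`. `B → 0` uniformly on the circle (NLI): `s → 0`. So if the conclusion fails then `s → 0`. -/
def NZB_stmt : Prop := ∀ (n : ℕ) (C : ℝ) (D : ℕ → Dat), 1 ≤ C → Seq n C D →
  ¬ Tendsto (fun m => (D m).s) UF (𝓝 0) → ∃ x, x ∉ Pin D ∧ Bin D x ≠ 0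

/-- NNZ: the limit is not identically zero. Uses NZA, NZB, `WPL.PIN_stmt`.
PROOF. In case `s → 0`: `α + β x` has at most one zero, and the complement of `Pin` is infinite (`Pin` is countable). -/
def NNZ_stmt : Prop := ∀ (n : ℕ) (C : ℝ) (D : ℕ → Dat), 1 ≤ C → Seq n C D → ∃ x, x ∉ Pin D ∧ Bin D x ≠ 0

/-- NME: the limit is meromorphic. Uses NLI, `WPL.PIN_stmt`, CB1, CB2, `V3.NPK_stmt`, `V3.TBX_stmt`.
PROOF. Fix `p`. `0 < t ≤ 1/4` such that `closedBall p (2t) \ {p}` does not meet `Pin`. The number of labels `(i, j)`, `j < k`, with `p i j ∈ ball p t` is at most `N = 3 (1 + 2(‖p‖+1)/c₀)²` (NPK, CB2 (7)). For every `ε' > 0` eventually no dangerous point is in the compact annulus `ε' ≤ ‖x - p‖ ≤ 2t` (PIN (1), finite cover). On the circle `sphere p t` eventually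
`‖B‖ ≤ K` (NLI: uniform convergence on a compact set, `Bin` continuous). Let `Λ` = labels with `p_λ ∈ ball p t`, `Q x = ∏_{Λ} (x - p_λ)`, `R x = s (∑_{λ ∈ Λ} g_λ ∏_{λ' ≠ λ} (x - p_λ') + Q x ∑_{λ ∉ Λ} g_λ/(x - p_λ))`: holomorphic on `ball p (3t/2)`, `R = Q B` off the poles, `‖R‖ ≤ K` on the circle (`‖Q‖ ≤ (2t)^|Λ| ≤ 1`), hence on the disc (TBX (1)). Fix
`x ∈ ball p t`, `x ≠ p`: eventually all `p_λ`, `λ ∈ Λ`, are within `‖x-p‖/2` of `p`, so `(‖x-p‖/2)^N ≤ ‖Q x‖` (`‖x - p‖ ≤ 1`, `|Λ| ≤ N`) and `‖B x‖ ≤ K 2^N/‖x-p‖^N`; `m → ∞`. -/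
def NME_stmt : Prop := ∀ (n : ℕ) (C : ℝ) (D : ℕ → Dat), 1 ≤ C → Seq n C D → ∀ p : ℂ,
  ∃ (N : ℕ) (t K : ℝ), 0 < t ∧ ∀ x ∈ ball p t, x ≠ p → x ∉ Pin D ∧ ‖x - p‖ ^ N * ‖Bin D x‖ ≤ K

/-- NAC: zeros and poles of the limit do not accumulate. Uses NME, NNZ, NLI, `WPL.PIN_stmt`.
PROOF. `h y = (y - x)^N Bin y` is holomorphic and bounded on a punctured ball: it extends to an analytic function at `x` (removable singularity, `Complex.differentiableOn_update_limUnder_of_bddAbove` or similar), so either `h ≠ 0` on a punctured neighbourhood (done) or `h = 0`, hence `Bin = 0`, on a punctured neighbourhood; then `Bin = 0` on the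
connected open set `Pinᶜ` (PIN, identity theorem `AnalyticOnNhd.eqOn_zero_of_preconnected_of_eventuallyEq_zero`): contradiction to NNZ. -/
def NAC_stmt : Prop := ∀ (n : ℕ) (C : ℝ) (D : ℕ → Dat), 1 ≤ C → Seq n C D →
  ∀ x : ℂ, ∀ᶠ y in 𝓝[≠] x, y ∉ Pin D ∧ Bin D y ≠ 0

/-- LBX: part N, everything together. Uses NLI, NAC. -/
def LBX_stmt : Prop := ∀ (n : ℕ) (C : ℝ) (D : ℕ → Dat), 1 ≤ C → Seq n C D → LB D

end WPN
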