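import Pool.Agent.helper54.V3.All
import Pool.Agent.helper54.XP.AllL
import Pool.Agent.helper54.XP.AllS
import Pool.Agent.helper60.XP.AllX
import Pool.Agent.helper52.WP.AllS
import Pool.Agent.helper88.GR.All
import Pool.Agent.helper36.MP.All
import Pool.Agent.helper45.BR.All
import Pool.Agent.helper52.WP.SpecA
import Pool.Agent.helper52.WP.SpecC
import Pool.Agent.helper52.WP.SpecB
import Pool.Agent.helper52.WP.SpecL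
import Pool.Agent.helper52.WP.SpecN
import Pool.Agent.helper52.WP.SpecT
import Pool.Agent.helper1.WP.CNT
import Pool.Agent.helper11.WP.DJC
import Pool.Agent.helper11.WP.INJ
import Pool.Agent.helper11.WP.MPX
import Pool.Agent.helper13.WP.CB2
import Pool.Agent.helper13.WP.NLI
import Pool.Agent.helper13.WP.NZA
import Pool.Agent.helper15.WP.ADH
import Pool.Agent.helper15.WP.BCV
import Pool.Agent.helper19.WP.PIN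
import Pool.Agent.helper2.WP.ALC
import Pool.Agent.helper2.WP.DLO
import Pool.Agent.helper2.WP.NME
import Pool.Agent.helper2.WP.PRE
import Pool.Agent.helper26.WP.CHO
import Pool.Agent.helper26.WP.DRV
import Pool.Agent.helper26.WP.REC
import Pool.Agent.helper3.WP.CB1
import Pool.Agent.helper3.WP.SMC
import Pool.Agent.helper30.WP.LPB
import Pool.Agent.helper30.WP.RIG
import Pool.Agent.helper31.WP.PHS
import Pool.Agent.helper31.WP.WPU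
import Pool.Agent.helper34.WP.STW
import Pool.Agent.helper41.WP.ERD
import Pool.Agent.helper43.WP.LIN
import Pool.Agent.helper43.WP.NIW
import Pool.Agent.helper43.WP.TAU
import Pool.Agent.helper46.WP.GEO
import Pool.Agent.helper46.WP.HFI
import Pool.Agent.helper46.WP.NFO
import Pool.Agent.helper55.WP.CI1
import Pool.Agent.helper55.WP.DSP
import Pool.Agent.helper55.WP.LOC
import Pool.Agent.helper55.WP.STC
import Pool.Agent.helper55.WP.TAX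
import Pool.Agent.helper58.WP.CSZ
import Pool.Agent.helper58.WP.CTS
import Pool.Agent.helper58.WP.HRN
import Pool.Agent.helper62.WP.DSL
import Pool.Agent.helper62.WP.ERS
import Pool.Agent.helper62.WP.LNA
import Pool.Agent.helper62.WP.NAC
import Pool.Agent.helper62.WP.STS
import Pool.Agent.helper62.WP.WDS
import Pool.Agent.helper72.WP.KCB
import Pool.Agent.helper72.WP.SBD
import Pool.Agent.helper73.WP.PHC
import Pool.Agent.helper75.WP.REG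
import Pool.Agent.helper77.WP.VIT
import Pool.Agent.helper81.WP.STP
import Pool.Agent.helper82.WP.NZB
import Pool.Agent.helper87.WP.ESC
import Pool.Agent.helper87.WP.EXB
import Pool.Agent.helper87.WP.POL
import Pool.Agent.helper87.WP.WPF
import Pool.Agent.helper90.WP.LBX
import Pool.Agent.helper91.WP.CHT
import Pool.Agent.helper91.WP.FXP
import Pool.Agent.helper92.WP.CI0
import Pool.Agent.helper93.WP.CHN
import Pool.Agent.helper93.WP.ITB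
import Pool.Agent.helper93.WP.RHO
import Pool.Agent.helper95.WP.VLC
import Pool.Agent.helper96.WP.AFX
import Pool.Agent.helper97.WP.BDT
import Pool.Agent.helper97.WP.INQ
import Pool.Agent.helper98.WP.EGR
import Pool.Agent.helper99.WP.NBD
import Pool.Agent.helper99.WP.NNZ

/-! Assembly of the rows `wp:` (Theorem W+).  Generated by `/tmp/gen.py`. -/

theorem WPA.ITB_w : WPA.ITB_stmt :=
  WPA.ITB 
theorem WPA.CHN_w : WPA.CHN_stmt :=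
  WPA.CHN WPA.ITB_w
theorem WPA.ESC_w : WPA.ESC_stmt :=
  WPA.ESC 
theorem WPA.RHO_w : WPA.RHO_stmt :=
  WPA.RHO WPA.ESC_w WPA.ITB_w
theorem WPA.CHO_w : WPA.CHO_stmt :=
  WPA.CHO WPA.RHO_w WPA.ESC_w WPA.ITB_w
theorem WPA.LIN_w : WPA.LIN_stmt :=
  WPA.LIN V3A.KO0_v V3A.KO1_v V3A.KO3_v
theorem WPA.POL_w : WPA.POL_stmt :=
  WPA.POL 
theorem WPA.CI0_w : WPA.CI0_stmt :=
  WPA.CI0 WPA.ITB_w WPA.LIN_w WPA.POL_w WPA.CHN_w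
theorem WPA.CI1_w : WPA.CI1_stmt :=
  WPA.CI1 WPA.LIN_w WPA.ITB_w
theorem WPA.DSL_w : WPA.DSL_stmt :=
  WPA.DSL WPA.CI0_w WPA.CI1_w
theorem WPA.FXP_w : WPA.FXP_stmt :=
  WPA.FXP V3A.KO3_v
theorem WPA.DRV_w : WPA.DRV_stmt :=
  WPA.DRV WPA.FXP_w V3A.KO1_v WPA.ITB_w
theorem WPA.DJC_w : WPA.DJC_stmt :=
  WPA.DJC WPA.DSL_w WPA.DRV_w WPA.ITB_w
theorem WPA.RIG_w : WPA.RIG_stmt :=
  WPA.RIG V3A.KO2_v V3A.TMO_v V3A.TDE_v V3A.THU_v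
theorem WPA.HRN_w : WPA.HRN_stmt :=
  WPA.HRN 
theorem WPA.NFO_w : WPA.NFO_stmt :=
  WPA.NFO WPA.RIG_w WPA.HRN_w WPA.CHO_w WPA.RHO_w WPA.ITB_w
theorem WPA.SMC_w : WPA.SMC_stmt :=
  WPA.SMC WPA.ITB_w V3A.KO0_v V3A.KO1_v V3A.KO3_v
theorem WPA.GEO_w : WPA.GEO_stmt :=
  WPA.GEO WPA.NFO_w WPA.DJC_w WPA.SMC_w WPA.RHO_w WPA.ESC_w
theorem WPA.WDS_w : WPA.WDS_stmt :=
  WPA.WDS V3A.FW_v
theorem WPC.CB1_w : WPC.CB1_stmt :=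
  WPC.CB1 
theorem WPC.CB2_w : WPC.CB2_stmt :=
  WPC.CB2 WPC.CB1_w V3A.KO0_v V3A.KO1_v V3A.KO3_v
theorem WPC.AFX_w : WPC.AFX_stmt :=
  WPC.AFX WPC.CB1_w WPC.CB2_w V3A.NPK_v V3A.NSU_v
theorem WPC.CNT_w : WPC.CNT_stmt :=
  WPC.CNT WPC.CB1_w WPC.CB2_w V3A.NPK_v
theorem WPB.LNA_w : WPB.LNA_stmt :=
  WPB.LNA 
theorem WPB.LOC_w : WPB.LOC_stmt :=
  WPB.LOC WPA.ESC_w
theorem WPB.PRE_w : WPB.PRE_stmt :=
  WPB.PRE WPB.LNA_w WPB.LOC_w WPC.CB1_w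
theorem WPB.ERS_w : WPB.ERS_stmt :=
  WPB.ERS GR.TSP_asm
theorem WPB.VLC_w : WPB.VLC_stmt :=
  WPB.VLC 
theorem WPB.VIT_w : WPB.VIT_stmt :=
  WPB.VIT 
theorem WPB.SBD_w : WPB.SBD_stmt :=
  WPB.SBD WPB.VLC_w WPB.VIT_w WPC.CB1_w
theorem WPB.INQ_w : WPB.INQ_stmt :=
  WPB.INQ 
theorem WPB.HFI_w : WPB.HFI_stmt :=
  WPB.HFI WPC.CB1_w MPS.MI_ok
theorem WPB.ERD_w : WPB.ERD_stmt :=
  WPB.ERD WPB.ERS_w WPB.SBD_w WPB.INQ_w WPB.HFI_w WPC.CB1_w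
theorem WPB.EGR_w : WPB.EGR_stmt :=
  WPB.EGR PPS.MCV_p
theorem WPB.BDT_w : WPB.BDT_stmt :=
  WPB.BDT WPB.PRE_w WPB.LOC_w WPB.ERD_w WPB.EGR_w WPB.HFI_w WPC.CB1_w BR.bridge
theorem WPL.ADH_w : WPL.ADH_stmt :=
  WPL.ADH WPC.CB1_w
theorem WPL.PIN_w : WPL.PIN_stmt :=
  WPL.PIN WPC.CNT_w
theorem WPL.LPB_w : WPL.LPB_stmt :=
  WPL.LPB WPL.PIN_w WPL.ADH_w V3A.TDE_v
theorem WPL.REG_w : WPL.REG_stmt :=
  WPL.REG 
theorem WPL.CHT_w : WPL.CHT_stmt :=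
  WPL.CHT V3A.NCH_v WPL.LPB_w WPL.REG_w WPC.CB1_w
theorem WPL.EXB_w : WPL.EXB_stmt :=
  WPL.EXB XPL.CAF_l WPC.CB1_w WPC.CB2_w WPL.ADH_w V3A.NPK_v WPS.LVX_x
theorem WPL.NIW_w : WPL.NIW_stmt :=
  WPL.NIW WPS.LEAX_x WPS.LVX_x
theorem WPL.REC_w : WPL.REC_stmt :=
  WPL.REC XPL.CAF_l WPL.ADH_w V3A.KO3_v WPL.NIW_w
theorem WPL.STP_w : WPL.STP_stmt :=
  WPL.STP WPL.CHT_w XPL.SGN_l WPL.EXB_w WPS.CS_x WPL.REC_w WPL.ADH_w WPC.CB1_w XPL.CAF_l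
theorem WPL.ALC_w : WPL.ALC_stmt :=
  WPL.ALC WPL.STP_w WPL.REG_w
theorem WPL.CSZ_w : WPL.CSZ_stmt :=
  WPL.CSZ WPC.CB1_w
theorem WPL.PHS_w : WPL.PHS_stmt :=
  WPL.PHS WPL.CSZ_w XPL.CAF_l WPC.CB1_w
theorem WPL.DLO_w : WPL.DLO_stmt :=
  WPL.DLO WPL.PHS_w XPL.CAF_l WPC.CB1_w
theorem WPL.DSP_w : WPL.DSP_stmt :=
  WPL.DSP WPL.ALC_w WPL.DLO_w WPL.REG_w WPC.CB1_w V3A.TBX_v
theorem WPL.INJ_w : WPL.INJ_stmt :=
  WPL.INJ WPL.DSP_w WPC.CB1_w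
theorem WPN.NBD_w : WPN.NBD_stmt :=
  WPN.NBD WPL.PIN_w WPL.ADH_w WPC.CB1_w WPC.AFX_w
theorem WPN.NLI_w : WPN.NLI_stmt :=
  WPN.NLI WPN.NBD_w WPL.PIN_w V3A.TMO_v
theorem WPN.NME_w : WPN.NME_stmt :=
  WPN.NME WPN.NLI_w WPL.PIN_w WPC.CB2_w V3A.NPK_v V3A.TBX_v
theorem WPN.NZA_w : WPN.NZA_stmt :=
  WPN.NZA WPN.NLI_w WPL.PIN_w WPC.AFX_w V3A.TUL_v
theorem WPN.NZB_w : WPN.NZB_stmt :=
  WPN.NZB WPN.NLI_w WPL.PIN_w WPC.CB1_w WPC.CB2_w V3A.TUL_v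
theorem WPN.NNZ_w : WPN.NNZ_stmt :=
  WPN.NNZ WPN.NZA_w WPN.NZB_w WPL.PIN_w
theorem WPN.NAC_w : WPN.NAC_stmt :=
  WPN.NAC WPN.NME_w WPN.NNZ_w WPN.NLI_w WPL.PIN_w
theorem WPN.LBX_w : WPN.LBX_stmt :=
  WPN.LBX WPN.NLI_w WPN.NAC_w
theorem WPT.BCV_w : WPT.BCV_stmt :=
  WPT.BCV WPL.LPB_w WPL.REG_w
theorem WPT.STS_w : WPT.STS_stmt :=
  WPT.STS WPC.CB1_w WPC.CB2_w
theorem WPT.STC_w : WPT.STC_stmt :=
  WPT.STC WPT.STS_w WPL.ADH_w XPS.LVG_x WPS.MAX_x WPS.LEAX_x WPS.MIX_x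
theorem WPT.KCB_w : WPT.KCB_stmt :=
  WPT.KCB WPC.CB1_w V3A.KO3_v
theorem WPT.PHC_w : WPT.PHC_stmt :=
  WPT.PHC 
theorem WPT.TAX_w : WPT.TAX_stmt :=
  WPT.TAX 
theorem WPT.CTS_w : WPT.CTS_stmt :=
  WPT.CTS WPT.STS_w WPT.STC_w WPT.KCB_w WPT.PHC_w WPT.TAX_w
theorem WPT.TAU_w : WPT.TAU_stmt :=
  WPT.TAU 
theorem WPT.STW_w : WPT.STW_stmt :=
  WPT.STW WPT.CTS_w WPL.CHT_w WPL.REG_w WPT.BCV_w WPT.TAU_w XPA.INVL_t WPC.CB1_w XPL.CAF_l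
theorem WPT.MPX_w : WPT.MPX_stmt :=
  WPT.MPX WPN.LBX_w WPT.STW_w WPL.INJ_w WPL.DSP_w
theorem WPT.WPU_w : WPT.WPU_stmt :=
  WPT.WPU WPT.MPX_w WPA.GEO_w WPB.BDT_w WPA.WDS_w WPA.ESC_w WPC.CB1_w
theorem WPT.WPF_w : WPT.WPF_stmt :=
  WPT.WPF WPT.WPU_w
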