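import Pool.Agent.helper52.WP.SpecS

/-! Project v3:, module MU3 (adapted from Pool/Agent/helper21/PP/MU2.lean). -/

set_option autoImplicit false

open Complex Metric Set Filter Topology MeasureTheory
open PPS (fd fdd pre TT CV Br cn)
open MPS (PsiM)

noncomputable section

open XPS (IsNat er Df dens brv tau lev d3 e3 eT)

namespace WPS

theorem MU3 (hP2A : S3A_stmt) (hP2L : S3L_stmt) (hLEA : LEAX_stmt) (hHSM : MPS.HSM_stmt) :
    MU3_stmt := by
  intro n k ff P B R E η h r₀ χ G0 PP M T G Q H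
  have hP := hP2L n k ff P B R E η h r₀ χ G0 PP M T G Q H
  have hA := hP2A n k ff P B R E η h r₀ χ G0 PP M T G Q H
  set f : ℕ → ℂ → ENNReal := fun q w => ENNReal.ofReal (lev B G q w) with hf
  set S : ℕ → Set ℂ := fun q => ball (0 : ℂ) (T q) with hS
  set ν : Measure ℂ := ∑ q ∈ Finset.Icc 1 Q, (volume.restrict (S q)).withDensity (f q) with hν
  have hmeas : Measurable (fun w : ℂ => h - ‖w‖) :=
    (continuous_const.sub continuous_norm).measurable
  refine ⟨ν.map (fun w => h - ‖w‖), ?_, ?_⟩
  · rw [Measure.map_apply hmeas MeasurableSet.univ, preimage_univ, hν,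
      Measure.finsetSum_apply]
    calc ∑ q ∈ Finset.Icc 1 Q, (volume.restrict (S q)).withDensity (f q) univ
        = ∑ q ∈ Finset.Icc 1 Q, ∫⁻ w in S q, f q w := by
          refine Finset.sum_congr rfl fun q _ => ?_
          rw [withDensity_apply _ MeasurableSet.univ, Measure.restrict_univ]
      _ ≤ ENNReal.ofReal (eT M E η) := hP
  · intro p hp1 hpQ s t w hs ht0 hw
    have hanti : ∀ m, m ≤ p → T p ≤ T m := by
      intro m hm
      have : ∀ d, m + d ≤ p → T (m + d) ≤ T m := by
        intro d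
        induction d with
        | zero => intro _; exact le_rfl
        | succ d ih =>
          intro hd
          exact (H.sys.anti (m + d) (by omega)).trans (ih (by omega))
      have h := this (p - m) (by omega)
      rwa [Nat.add_sub_cancel' hm] at h
    have hLS := hA.2.2.2.1 p hpQ
    have hL := hLEA ff P B G (ball 0 (T p)) p H.su3.ad isOpen_ball hLS
    have hball : ∀ z ∈ ball w (t / 2), z ∈ ball (0 : ℂ) (T p) ∧ s + t / 2 < h - ‖z‖ ∧
        h - ‖z‖ < s + 3 * t / 2 := by
      intro z hz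
      rw [mem_ball, dist_eq_norm] at hz
      have h1 : ‖z‖ ≤ ‖z - w‖ + ‖w‖ := by
        calc ‖z‖ = ‖(z - w) + w‖ := by rw [sub_add_cancel]
          _ ≤ _ := norm_add_le _ _
      have h2 : ‖w‖ ≤ ‖z - w‖ + ‖z‖ := by
        calc ‖w‖ = ‖z - (z - w)‖ := by rw [sub_sub_cancel]
          _ ≤ ‖z‖ + ‖z - w‖ := norm_sub_le _ _
          _ = _ := add_comm _ _
      rw [hw] at h1 h2
      refine ⟨?_, by linarith, by linarith⟩
      rw [mem_ball, dist_zero_right]
      linarith
    have hsubHP : ball w (t / 2) ⊆ ball 0 (T p) := fun z hz => (hball z hz).1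
    -- the family
    set hh : ℕ → ℂ → ℂ := fun q z => tau B G (q - 1) z - tau B G q z with hhdef
    have hsum : ∀ z, ∑ q ∈ Finset.Icc 1 p, ‖hh q z‖ =
        ∑ q ∈ Finset.Icc 1 p, lev B G q z := fun z => rfl
    have hdiff : ∀ q ∈ Finset.Icc 1 p, DifferentiableOn ℂ (hh q) (ball 0 (T p)) := by
      intro q hq
      rw [Finset.mem_Icc] at hq
      exact (hL.2.2.1 (q - 1) (by omega)).sub (hL.2.2.1 q hq.2)
    have hkey := hHSM ℕ (Finset.Icc 1 p) hh w (t / 2) (by positivity)
      (fun i hi => (hdiff i hi).mono hsubHP)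
    simp only [hsum] at hkey
    have hlevnn : ∀ q z, 0 ≤ lev B G q z := fun q z => norm_nonneg _
    have hcont : ∀ q ∈ Finset.Icc 1 p, ContinuousOn (lev B G q) (ball 0 (T p)) := by
      intro q hq
      exact (hdiff q hq).continuousOn.norm
    have hint : ∫⁻ z in ball w (t / 2), ENNReal.ofReal (∑ q ∈ Finset.Icc 1 p,
        lev B G q z) = ∑ q ∈ Finset.Icc 1 p, ∫⁻ z in ball w (t / 2), f q z := by
      rw [← lintegral_finsetSum']
      · refine lintegral_congr fun z => ?_
        rw [ENNReal.ofReal_sum_of_nonneg (fun q _ => hlevnn q z)]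
      · intro q hq
        exact ((hcont q hq).mono hsubHP).aemeasurable measurableSet_ball |>.ennreal_ofReal
    have hpre : (ν.map (fun w : ℂ => h - ‖w‖)) (Ioo (s + t / 2) (s + 3 * t / 2)) =
        ∑ q ∈ Finset.Icc 1 Q, ∫⁻ z in (fun w : ℂ => h - ‖w‖) ⁻¹'
          (Ioo (s + t / 2) (s + 3 * t / 2)) ∩ S q, f q z := by
      rw [Measure.map_apply hmeas measurableSet_Ioo, hν, Measure.finsetSum_apply]
      refine Finset.sum_congr rfl fun q _ => ?_
      rw [withDensity_apply _ (hmeas measurableSet_Ioo), Measure.restrict_restrict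
        (hmeas measurableSet_Ioo)]
    have hle : ENNReal.ofReal (Real.pi * (t / 2) ^ 2 * ∑ q ∈ Finset.Icc 1 p,
        lev B G q w) ≤
        (ν.map (fun w : ℂ => h - ‖w‖)) (Ioo (s + t / 2) (s + 3 * t / 2)) := by
      refine hkey.trans ?_
      rw [hint, hpre]
      calc ∑ q ∈ Finset.Icc 1 p, ∫⁻ z in ball w (t / 2), f q z
          ≤ ∑ q ∈ Finset.Icc 1 p, ∫⁻ z in (fun w : ℂ => h - ‖w‖) ⁻¹'
            (Ioo (s + t / 2) (s + 3 * t / 2)) ∩ S q, f q z := by
            refine Finset.sum_le_sum fun q hq => lintegral_mono_set ?_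
            intro z hz
            have h1 := hball z hz
            exact ⟨⟨h1.2.1, h1.2.2⟩, ball_subset_ball (hanti q (Finset.mem_Icc.mp hq).2) h1.1⟩
        _ ≤ _ := by
            refine Finset.sum_le_sum_of_subset ?_
            exact Finset.Icc_subset_Icc le_rfl hpQ
    calc ENNReal.ofReal (∑ q ∈ Finset.Icc 1 p, lev B G q w)
        = ENNReal.ofReal (4 / (Real.pi * t ^ 2)) * ENNReal.ofReal (Real.pi * (t / 2) ^ 2 *
            ∑ q ∈ Finset.Icc 1 p, lev B G q w) := by
          rw [← ENNReal.ofReal_mul (by positivity)]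
          congr 1
          have hpi := Real.pi_ne_zero
          field_simp
          ring
      _ ≤ _ := mul_le_mul_right hle _

end WPS
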