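import Pool.Agent.helper52.WP.SpecC

/-!
# Project wp: (MP_af9036_an), parts P, L: the exceptional points, propagation of the chain property (output `WP.MPL_stmt`)

Paper: /team-store/MP_af9036_Wplus_helper52.md, section 6, quoted as [W+, 6]; model: project xp:, Pool/Agent/helper54/XP/SpecL.lean.

RULES. File `Pool/Agent/<seat>/WP/XX.lean`: `import Pool.Agent.helper52.WP.SpecL`, `set_option autoImplicit false`, `open Complex Metric Set Filter Topology MeasureTheory`,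
`open V3S (UF)`, `open WP`, `noncomputable section`, `namespace WPL`, `theorem XX (h : YY_stmt) ... : XX_stmt`.
Hypotheses may be: other statements of this file (no circles), `WPC.CB1_stmt, CB2_stmt, CNT_stmt, AFX_stmt`, the tools `V3S.NCH_stmt`, `V3.KO0_stmt`, `V3.KO1_stmt`, `V3.KO3_stmt`, `V3.TUL_stmt`,
`V3.TMO_stmt`, `V3.TDE_stmt`, `V3.TBX_stmt`, `V3.NPK_stmt`, `V3.PCO_stmt`, `XPL.CAF_stmt`, `XPL.SGN_stmt` (Pool/Agent/helper54/XP/SpecL.lean), `XPS.NUX_stmt`, `XPS.NPLX_stmt`, `XPS.LVG_stmt`, and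
all `WPS.*_stmt` (Pool/Agent/helper52/WP/SpecS.lean): all these are proved. Auxiliary lemmas prefixed `XX_`. No `sorry`, no double quotes in comments.
MOST MODULES ARE COPIES of a proved file of project xp: (named in the docstring). Dictionary: namespace `XPL` -> `WPL`, `XP.Dat` -> `WP.Dat`, `XPS.AD, LevSys, SU3, CS_stmt, LVX_stmt, LEAX_stmt` -> `WPS...` (`IsNat, lev, tau, er, Df, eT, e3` stay `XPS...`), `D.K` -> `D.k` (`N = 1`),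
`D.de` -> `D.om`, `D.b (-(q : ZMod D.k))` -> `D.zz (D.F (D.k - q) 0)` (the centre of the cell `k - q`), poles `D.p l` -> the dangerous points `D.Pt`, `XPL.BA1` -> `WPC.CB1`, `XPL.BAD` -> `WPC.CB2`.
`UF` is by definition the coercion of `hyperfilter ℕ`; `V3S.UF_le : UF ≤ atTop`, `V3S.UF_em`, `V3S.UF_not`.
-/

set_option autoImplicit false

open Complex Metric Set Filter Topology MeasureTheory
open V3S (UF)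
open WP

noncomputable section

namespace WPL

/-- the start of the propagation. -/
def ST (D : ℕ → Dat) : Prop := ∃ x₀ ∈ Reg D, CTL D x₀

/-! ## Tools -/

/-- NIW: continuation of the near identity statement (copy of Pool/Agent/helper20/XP/NIX.lean with `WPS.AD`, `WPS.LevSys`). Uses `XPL.CAF_stmt`, `WPS.LVX_stmt`, `WPS.LEAX_stmt`. -/
def NIW_stmt : Prop := ∀ (k : ℕ) (f : Polynomial ℂ) (P : Set ℂ) (B χ : ℂ → ℂ)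
  (G : ℕ → ℂ → ℂ) (Φ₁ : ℂ → ℂ) (h h' r η : ℝ), WPS.AD f P B → 0 < h → h ≤ 1 →
  0 < h' → h' ≤ h → 0 < r → r ≤ h' → 0 ≤ η → η ≤ h / 100 → η ≤ r / 100 → η ≤ 1 / 100 →
  XPS.IsNat P B χ (ball 0 (16 * h)) → WPS.LevSys f P B G (ball 0 h') k →
  (∀ w ∈ ball (0 : ℂ) h', ∑ q ∈ Finset.Icc 1 k, XPS.lev B G q w ≤ η) →
  DifferentiableOn ℂ Φ₁ (ball 0 r) →
  (∀ w ∈ ball (0 : ℂ) r, Φ₁ w ∈ ball (0 : ℂ) (16 * h) ∧ ‖Φ₁ w - w‖ ≤ η ∧ χ (Φ₁ w) = G k w) →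
  ∃ Φ : ℂ → ℂ, DifferentiableOn ℂ Φ (ball 0 h') ∧
    ∀ w ∈ ball (0 : ℂ) h', Φ w ∈ ball (0 : ℂ) (16 * h) ∧ ‖Φ w - w‖ ≤ 2 * η ∧ χ (Φ w) = G k w

/-- ADH: the normalised differential `H = s H0` (compare Pool/Agent/helper82/XP/ADH.lean). Uses `WPC.CB1_stmt`.
PROOF. `Good.eng.ad`; `TT f H = s TT f H0` (a multiset sum), so `er` and `Df` are multiplied by `s ∈ (0,1]`; `E ≤ om`. -/
def ADH_stmt : Prop := ∀ (n : ℕ) (C A : ℝ) (D : Dat), D.Good n C A →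
  WPS.AD D.f D.PP D.H ∧ (∀ z, z ∉ D.PP → DifferentiableAt ℂ D.H z) ∧
  (∀ x, D.zz x ∉ D.PP → DifferentiableAt ℂ D.B x) ∧
  ∫⁻ z in ball (0 : ℂ) D.rad, ENNReal.ofReal (XPS.Df D.f D.H z + 2 * ‖XPS.er D.f D.H z‖) ≤ ENNReal.ofReal D.E

/-- EXB: bound of the number of exceptional levels (copy of Pool/Agent/helper99/XP/EXB.lean; the centres `F j 0`, `j < k`, replace the poles, their distances are `≥ c₀` by CB2 (6) with `x = x' = 0`). Uses `XPL.CAF_stmt`, CB1, CB2, ADH, `V3.NPK_stmt`, `WPS.LVX_stmt`, `WPS.LEAX_stmt`. -/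
def EXB_stmt : Prop := ∀ C₀ C : ℝ, 1 ≤ C₀ → 1 ≤ C → ∃ M : ℕ, ∀ (n : ℕ) (A : ℝ) (D : Dat),
  D.Good n C₀ A → ∀ (y : ℂ) (h r : ℝ) (χ : ℂ → ℂ) (G : ℕ → ℂ → ℂ), 0 < h → h ≤ 1 → 0 < r →
  XPS.IsNat D.PP D.H χ (ball 0 (16 * h)) → χ 0 = D.zz y →
  (∀ w ∈ ball (0 : ℂ) (16 * h), ‖deriv χ w - deriv χ 0‖ ≤ ‖deriv χ 0‖ / 10) →
  ‖deriv χ 0‖ ≤ C * ‖D.sg‖ → WPS.LevSys D.f D.PP D.H G (ball 0 r) D.k → G 0 0 = χ 0 →
  ∑ q ∈ Finset.Icc 1 D.k, XPS.lev D.H G q 0 ≤ 1 →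
  (∀ q, 1 ≤ q → q ≤ D.k → ‖G q 0 - D.zz (D.F (D.k - q) 0)‖ ≤ C * ‖deriv (G q) 0‖) →
  {q : ℕ | 1 ≤ q ∧ q < D.k ∧ ‖G q 0 - χ 0‖ < 8 * h * ‖deriv χ 0‖}.ncard ≤ M

/-- REC: change of the centre (copy of Pool/Agent/helper98/XP/REC.lean with `δ = η`). Uses `XPL.CAF_stmt`, CB1, ADH, NIW, `V3.KO3_stmt`. -/
def REC_stmt : Prop := ∃ CK : ℝ, 1 ≤ CK ∧ ∀ (n : ℕ) (C₀ A : ℝ) (D : Dat),
  D.Good n C₀ A → ∀ (y y' : ℂ) (h r C C₁ η : ℝ) (χ : ℂ → ℂ) (G : ℕ → ℂ → ℂ) (Φ₁ : ℂ → ℂ), 0 < h → h ≤ 1 →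
  0 < r → r ≤ h / 2 → 1 ≤ C → 1 ≤ C₁ → 0 ≤ η → η ≤ h / 100 → η ≤ r / 100 →
  XPS.IsNat D.PP D.H χ (ball 0 (16 * h)) → χ 0 = D.zz y →
  (∀ w ∈ ball (0 : ℂ) (16 * h), ‖deriv χ w - deriv χ 0‖ ≤ ‖deriv χ 0‖ / 10) →
  ‖D.sg‖ / C₁ ≤ ‖deriv χ 0‖ → ‖y' - y‖ ≤ h / (10 * C₁) →
  WPS.LevSys D.f D.PP D.H G (ball 0 (h / 2)) D.k → EqOn (G 0) χ (ball 0 (h / 2)) →
  (∀ w ∈ ball (0 : ℂ) (h / 2), ∑ q ∈ Finset.Icc 1 D.k, XPS.lev D.H G q w ≤ η) →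
  DifferentiableOn ℂ Φ₁ (ball 0 r) →
  (∀ w ∈ ball (0 : ℂ) r, Φ₁ w ∈ ball (0 : ℂ) (16 * h) ∧ ‖Φ₁ w - w‖ ≤ η ∧ χ (Φ₁ w) = G D.k w) →
  (∀ q, 1 ≤ q → q ≤ D.k → ‖G q 0 - D.zz (D.F (D.k - q) 0)‖ ≤ C * ‖deriv (G q) 0‖) →
  ∀ C' : ℝ, CK * (CK + C) ≤ C' → 2 * η ≤ C' * D.om →
  ∃ (χ' : ℂ → ℂ) (G' : ℕ → ℂ → ℂ) (Φ' : ℂ → ℂ), Ctl D y' (h / 8) C' χ' G' Φ'

/-! ## Sequences -/

/-- PIN: the exceptional set. Uses `WPC.CNT_stmt`.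
PROOF. (1) `UF` is an ultrafilter: `x ∉ Pin` gives `ε > 0` with, for `UF`-almost all `m`, no dangerous point in `ball x ε`. (2) the complement is open by (1). (3) if `Pin ∩ ball 0 R` had more than `N(R+1)` points, take `N+1` of them with mutual distances `≥ 2ε`, `ε < 1`; eventually each has a dangerous point within `ε/2`, all different, in `ball 0 (R+1)`:
contradiction to CNT. (4) finite on every ball: no accumulation points, countable; the complement of a countable set is connected (`Set.Countable.isPathConnected_compl_of_one_lt_rank`, compare `V3.PCO_stmt`). -/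
def PIN_stmt : Prop := ∀ (n : ℕ) (C : ℝ) (D : ℕ → Dat), 1 ≤ C → Seq n C D →
  (∀ x, x ∉ Pin D → ∃ r > (0 : ℝ), ∀ᶠ m in UF, ∀ y ∈ (D m).Pt, r ≤ ‖y - x‖) ∧
  IsClosed (Pin D) ∧ (∀ R : ℝ, (Pin D ∩ ball 0 R).Finite) ∧ (Pin D).Countable ∧ IsPreconnected (Pin D)ᶜ ∧
  ∀ x : ℂ, ∀ᶠ y in 𝓝[≠] x, y ∉ Pin D

/-- LPB: local facts about `B` (compare Pool/Agent/helper99/XP/LPB.lean). Uses PIN, ADH, CB1, `V3.TDE_stmt`.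
PROOF. PIN (1); off `Pt` the function `B` is differentiable (CB1, ADH). TDE on the open set `Pinᶜ`. -/
def LPB_stmt : Prop := ∀ (n : ℕ) (C : ℝ) (D : ℕ → Dat), 1 ≤ C → Seq n C D → LB D →
  (∀ x, x ∉ Pin D → ∃ r > (0 : ℝ), ∀ᶠ m in UF, DifferentiableOn ℂ (D m).B (ball x r) ∧
    ∀ y ∈ ball x r, y ∉ (D m).Pt ∧ (D m).zz y ∉ (D m).PP) ∧
  (∀ K : Set ℂ, IsCompact K → K ⊆ (Pin D)ᶜ →
    TendstoUniformlyOn (fun m => deriv (D m).B) (deriv (Bin D)) UF K)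

/-- REG: topology of the regular set (as Pool/Agent/helper51/XP/REG.lean). Uses PIN. -/
def REG_stmt : Prop := ∀ (n : ℕ) (C : ℝ) (D : ℕ → Dat), 1 ≤ C → Seq n C D → LB D →
  IsOpen (Reg D) ∧ IsPreconnected (Reg D) ∧
  (∀ x : ℂ, ∃ ε > (0 : ℝ), ∀ y ∈ ball x ε, y ≠ x → y ∈ Reg D)

/-- CHT: uniform natural charts near a regular point (copy of Pool/Agent/helper8/XP/CHT.lean; new: no dangerous points near the image: choose `h` such that `18 h C` is smaller than the radius of LPB minus `η`). Uses `V3S.NCH_stmt`, LPB, REG, CB1, `LB.conv`. -/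
def CHT_stmt : Prop := ∀ (n : ℕ) (C : ℝ) (D : ℕ → Dat), 1 ≤ C → Seq n C D → LB D → ∀ x ∈ Reg D,
  ∃ h > (0 : ℝ), ∃ η > (0 : ℝ), ∃ C ≥ (1 : ℝ), h ≤ 1 ∧ ∀ᶠ m in UF, ∀ y ∈ ball x η, ∃ χ : ℂ → ℂ,
    XPS.IsNat (D m).PP (D m).H χ (ball 0 (16 * h)) ∧ χ 0 = (D m).zz y ∧
    (∀ z ∈ ball (χ 0) (18 * h * ‖deriv χ 0‖), (D m).xx z ∉ (D m).Pt) ∧
    (∀ w ∈ ball (0 : ℂ) (16 * h), ‖deriv χ w - deriv χ 0‖ ≤ ‖deriv χ 0‖ / 10) ∧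
    ‖(D m).sg‖ / C ≤ ‖deriv χ 0‖ ∧ ‖deriv χ 0‖ ≤ C * ‖(D m).sg‖

/-- STP: the step of the propagation (as Pool/Agent/helper1/XP/STP.lean). Uses CHT, `XPL.SGN_stmt`, EXB, `WPS.CS_stmt`, REC, ADH, CB1, `XPL.CAF_stmt`.
PROOF. `h, η₁, C₁` from CHT; `η = min η₁ (h/(20 C₁))`, `η ≤ 1`. Let `y ∈ ball x η` with `CTL D y` (`r, C`, w.l.o.g. `C ≥ C₁`), `y' ∈ ball x η`. Eventually: chart `χ` at `y` on `ball 0 (16h)` (CHT) and `Ctl (D m) y r C χ₁ G₁ Φ₁`. SGN: `χ₂` on `ball 0 (16 h)`, equal to `χ₁` on `ball 0 (min (16h) (2r))`, `χ₂ 0 = χ 0`, `‖χ₂' 0‖ = ‖χ' 0‖`; its image is in `ball (χ 0) (17.6 h ‖χ' 0‖)` (CAF), so it avoids `Pt` (in the `x`-plane).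
`r₀ = min r (h/2)`. `M` from EXB. `R = rad`: `χ₂ '' ball 0 h ⊆ ball 0 rad`: every point is `zz x'` with `‖x'‖ ≤ ‖x‖ + 1 + 2 C₁ < A m` (CAF, `radb`).
`WPS.SU3` holds with energy `E`, `η = C om` (eventually `≤ 1`), `PP` = the set of EXB; `far`: if `f^q z = χ₂ w` with `z ∈ PP`, `q ≤ k + 1`, then `xx (χ₂ w) ∈ Pt` (CB1). `XPS.eT M E (C om) ≤ (M + 1 + 4C) om → 0`, `XPS.e3 n M h r₀ > 0` fixed. CS gives `G` on `ball 0 (3h/4)`, `∑ lev ≤ 16 eT/h² ≤ C₃ om` on `ball 0 (h/2)`, `G q = G₁ q` on `ball 0 r₀`.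
REC with `r := r₀`, `Φ₁`, `η := max C C₃ * om`. -/
def STP_stmt : Prop := ∀ (n : ℕ) (C : ℝ) (D : ℕ → Dat), 1 ≤ C → Seq n C D → LB D → ∀ x ∈ Reg D,
  ∃ η > (0 : ℝ), ∀ y ∈ ball x η, CTL D y → ∀ y' ∈ ball x η, CTL D y'

/-- ALC: the chain property holds on the regular set (copy of Pool/Agent/helper78/XP/ALC.lean). Uses STP, REG. -/
def ALC_stmt : Prop := ∀ (n : ℕ) (C : ℝ) (D : ℕ → Dat), 1 ≤ C → Seq n C D → LB D → ST D → ∀ x ∈ Reg D, CTL D x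

/-- CSZ: size of the charts (copy of Pool/Agent/helper49/XP/CSZ.lean). Uses CB1, `LB.conv`. -/
def CSZ_stmt : Prop := ∀ (n : ℕ) (C : ℝ) (D : ℕ → Dat), 1 ≤ C → Seq n C D → LB D → ∀ x ∈ Reg D,
  ∃ C ≥ (1 : ℝ), ∀ᶠ m in UF, ∀ (χ : ℂ → ℂ) (r : ℝ), 0 < r → XPS.IsNat (D m).PP (D m).H χ (ball 0 r) →
    χ 0 = (D m).zz x → ‖(D m).sg‖ / C ≤ ‖deriv χ 0‖ ∧ ‖deriv χ 0‖ ≤ C * ‖(D m).sg‖

/-- PHS: surjectivity of `Φ` and of the charts, in the `x`-plane (copy of Pool/Agent/helper61/XP/PHS.lean; `om → 0` is `Seq.om` with `V3S.UF_le`). Uses CSZ, `XPL.CAF_stmt`, CB1. -/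
def PHS_stmt : Prop := ∀ (n : ℕ) (C : ℝ) (D : ℕ → Dat), 1 ≤ C → Seq n C D → LB D → ∀ x ∈ Reg D, CTL D x →
  ∃ r > (0 : ℝ), ∃ C > (0 : ℝ), ∃ ρ > (0 : ℝ), ∀ᶠ m in UF, ∃ (χ : ℂ → ℂ) (G : ℕ → ℂ → ℂ) (Φ : ℂ → ℂ),
    Ctl (D m) x r C χ G Φ ∧ ‖deriv χ 0‖ ≤ C * ‖(D m).sg‖ ∧
    ∀ y ∈ ball x ρ, ∃ w ∈ ball (0 : ℂ) r, (D m).zz y = G (D m).k w ∧ (D m).zz y = χ (Φ w) ∧
      (D m).zz ((D m).F (D m).k y) = χ w

/-- DLO: local bound of the displacement (copy of Pool/Agent/helper31/XP/DLO.lean). Uses PHS, `XPL.CAF_stmt`, CB1. -/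
def DLO_stmt : Prop := ∀ (n : ℕ) (C : ℝ) (D : ℕ → Dat), 1 ≤ C → Seq n C D → LB D → ∀ x ∈ Reg D, CTL D x →
  ∃ r > (0 : ℝ), ∃ C : ℝ, ∀ᶠ m in UF, ∀ y ∈ ball x r, ‖(D m).F (D m).k y - y‖ ≤ C * (D m).om

/-- DSP: bound of the displacement on bounded sets (as Pool/Agent/helper99/XP/DSP.lean, for the functions `(F k x - x)/om`; `om > 0`). Uses ALC, DLO, REG, CB1, `V3.TBX_stmt`. -/
def DSP_stmt : Prop := ∀ (n : ℕ) (C : ℝ) (D : ℕ → Dat), 1 ≤ C → Seq n C D → LB D → ST D → ∀ ρ > (0 : ℝ),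
  ∃ C : ℝ, 0 ≤ C ∧ ∀ᶠ m in UF, ∀ x ∈ ball (0 : ℂ) ρ, ‖(D m).F (D m).k x - x‖ ≤ C * (D m).om

/-- INJ: injectivity of the iterates (as Pool/Agent/helper63/XP/INJ.lean). Uses DSP, CB1.
PROOF. `‖F k x - x‖ ≤ C om` on `ball 0 (ρ+1)`, so the derivative of `F k x - x` is `≤ C om < 1` on `ball 0 ρ` (Cauchy): `F k` is injective there; `C om ≤ 1` eventually. -/
def INJ_stmt : Prop := ∀ (n : ℕ) (C : ℝ) (D : ℕ → Dat), 1 ≤ C → Seq n C D → LB D → ST D → ∀ ρ > (0 : ℝ),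
  ∀ᶠ m in UF, InjOn ((D m).F (D m).k) (ball 0 ρ) ∧ ∀ x ∈ ball (0 : ℂ) ρ, ‖(D m).F (D m).k x - x‖ ≤ 1

end WPL
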